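import Pool.Agent.Lib.SDF3.Dens

/-!
Averages over one vertex.
-/

set_option autoImplicit false

namespace Pool.Agent.Lib.SDF3

open Finset Function
open Pool.Agent.Lib.SDF (av av_add av_sub av_neg av_mul_left av_mul_right av_zero av_const av_mono
  av_nonneg av_finset_sum av_comm abs_av_le av_congr sum_eq_card_mul_av)

variable {κ S F B : Type} [Fintype κ] [LinearOrder κ] [Fintype S] [Nonempty S] [Field F]
  [Fintype F] [DecidableEq F] [Fintype B] [Nonempty B] {e : κ → κ → S → S → F} {P : S → B}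
  {D : (κ → B) → F} {θ : ℝ} (hG : Gad e P D θ)

include hG

/-- The vector of the `e a c`, `c ∈ Y`, is uniform. -/
theorem Gad.avU {a : κ} {Y : Finset κ} (hb : ∃ b, b ∉ insert a Y) (ha : a ∉ Y) (z : κ → S)
    (Φ : (κ → F) → ℝ) (hΦ : ∀ w w' : κ → F, (∀ c ∈ Y, w c = w' c) → Φ w = Φ w') :
    av (fun s => Φ (fun c => e a c s (z c))) = av Φ := by
  obtain ⟨b, hb⟩ := hb
  rw [mem_insert, not_or] at hb
  obtain ⟨f, _, h2, h3⟩ := hG.inv a b (Ne.symm hb.1) z
  rw [h3]
  have h4 : ∀ x w, Φ (fun c => e a c (f x w) (z c)) = Φ w := by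
    intro x w
    refine hΦ _ _ fun c hc => h2 x w c ?_ ?_
    · rintro rfl; exact ha hc
    · rintro rfl; exact hb.2 hc
  simp only [h4]
  rw [av_const]

theorem Gad.av_st (φ : F → ℝ) {a : κ} {Y : Finset κ} (hb : ∃ b, b ∉ insert a Y) (ha : a ∉ Y)
    (z : κ → S) : av (fun s => st e φ a Y z s) = av φ ^ Y.card := by
  rw [← av_prod φ Y]
  exact hG.avU hb ha z (fun w => ∏ c ∈ Y, φ (w c))
    (fun w w' h => Finset.prod_congr rfl fun c hc => by rw [h c hc])

theorem Gad.av_off {a : κ} {Y Y' : Finset κ} (hb : ∃ b, b ∉ insert a Y) (ha : a ∉ Y)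
    (hY : Y' ⊆ Y) (z : κ → S) (τ : F) :
    av (fun s => st e om a Y z s *
      if (∑ c ∈ Y', e a c s (z c) = τ ∧ ∃ c ∈ Y', e a c s (z c) ≠ 0) then 1 else 0)
      ≤ Y'.card * 2 ^ Y.card / Fintype.card F := by
  classical
  refine le_trans (le_of_eq ?_) (av_off_le Y Y' hY τ)
  refine hG.avU hb ha z (fun w => (∏ c ∈ Y, om (w c)) *
      if (∑ c ∈ Y', w c = τ ∧ ∃ c ∈ Y', w c ≠ 0) then 1 else 0) (fun w w' h => ?_)
  have h1 : ∑ c ∈ Y', w c = ∑ c ∈ Y', w' c := Finset.sum_congr rfl fun c hc => h c (hY hc)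
  have h2 : (∃ c ∈ Y', w c ≠ 0) ↔ ∃ c ∈ Y', w' c ≠ 0 := by
    constructor
    · rintro ⟨c, hc, h3⟩; exact ⟨c, hc, by rwa [← h c (hY hc)]⟩
    · rintro ⟨c, hc, h3⟩; exact ⟨c, hc, by rwa [h c (hY hc)]⟩
  congr 1
  · exact Finset.prod_congr rfl fun c hc => by rw [h c hc]
  · exact if_congr (by rw [h1, h2]) rfl rfl

/-- The constant of the extension lemma. -/
def CE (κ : Type) [Fintype κ] : ℝ := 2 * 2 ^ Fintype.card κ + Fintype.card κ * 4 ^ Fintype.card κ

omit hG in
theorem CE_pos : 1 ≤ CE κ := by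
  unfold CE
  have h1 : (1 : ℝ) ≤ 2 ^ Fintype.card κ := one_le_pow₀ (by norm_num)
  have h2 : (0 : ℝ) ≤ Fintype.card κ * 4 ^ Fintype.card κ := by positivity
  linarith

/-- The extension lemma. -/
theorem Gad.ext {Λ : ℝ} (hΛ : 0 ≤ Λ) (hΛq : Λ ≤ Fintype.card F) {v : κ} {Y : Finset κ}
    (hb : ∃ b, b ∉ insert v Y) (hv : v ∉ Y) (z : κ → S) :
    av (fun s => os e Λ (insert v Y) (update z v s)) ≤ CE κ * os e Λ Y z := by
  classical
  set p : ℝ := pp e om Y z with hp
  set n : ℝ := cnt e Y z with hn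
  have hp0 : 0 < p := pp_om_pos Y z
  have hn0 : 0 ≤ n := cnt_nonneg Y z
  have hYu : Y.card ≤ Fintype.card κ := Finset.card_le_univ Y
  have h2u : (2 : ℝ) ^ Y.card ≤ 2 ^ Fintype.card κ := pow_le_pow_right₀ (by norm_num) hYu
  have h1 : ∀ s, os e Λ (insert v Y) (update z v s)
      ≤ p * ((1 + 2 * Λ * n) * st e om v Y z s + Λ * ∑ Y' ∈ Y.powerset, (st e om v Y z s *
      if (∑ c ∈ Y', e v c s (z c) = - rr e Y' z ∧ ∃ c ∈ Y', e v c s (z c) ≠ 0)
        then (1 : ℝ) else 0)) := by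
    intro s
    unfold os
    rw [pp_insert_upd hG.symm om hv]
    have h3 : 0 ≤ st e om v Y z s := Finset.prod_nonneg fun _ _ => (om_pos _).le
    have h4 := cnt_insert_upd hG.symm hv z s
    rw [← hn] at h4
    have h5 := mul_le_mul_of_nonneg_left h4 (mul_nonneg hΛ (mul_nonneg hp0.le h3))
    rw [← Finset.mul_sum, ← hp]
    refine le_trans (le_of_eq ?_) (le_trans (add_le_add_right h5 (p * st e om v Y z s))
      (le_of_eq ?_))
    · ring
    · ring
  refine (av_mono h1).trans ?_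
  rw [av_mul_left, av_add, av_mul_left, av_mul_left, av_finset_sum, hG.av_st om hb hv]
  have h6 : av (om : F → ℝ) ^ Y.card ≤ 2 ^ Fintype.card κ :=
    (pow_le_pow_left₀ (av_nonneg fun x => (om_pos x).le) av_om_le _).trans h2u
  have h7 : ∑ Y' ∈ Y.powerset, av (fun s => st e om v Y z s *
      if (∑ c ∈ Y', e v c s (z c) = - rr e Y' z ∧ ∃ c ∈ Y', e v c s (z c) ≠ 0)
        then (1 : ℝ) else 0)
      ≤ Fintype.card κ * 4 ^ Fintype.card κ / Fintype.card F := by
    have h8 : ∀ Y' ∈ Y.powerset, av (fun s => st e om v Y z s *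
      if (∑ c ∈ Y', e v c s (z c) = - rr e Y' z ∧ ∃ c ∈ Y', e v c s (z c) ≠ 0)
        then (1 : ℝ) else 0) ≤ Fintype.card κ * 2 ^ Fintype.card κ / Fintype.card F := by
      intro Y' hY'
      refine (hG.av_off hb hv (Finset.mem_powerset.1 hY') z _).trans ?_
      refine div_le_div_of_nonneg_right ?_ q_pos.le
      refine mul_le_mul ?_ h2u (by positivity) (by positivity)
      exact_mod_cast Finset.card_le_univ Y'
    refine (Finset.sum_le_sum h8).trans ?_
    rw [Finset.sum_const, Finset.card_powerset, nsmul_eq_mul]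
    push_cast
    have h9 : (4 : ℝ) ^ Fintype.card κ = 2 ^ Fintype.card κ * 2 ^ Fintype.card κ := by
      rw [← mul_pow]; norm_num
    rw [h9, mul_div_assoc', ← mul_assoc]
    refine div_le_div_of_nonneg_right ?_ q_pos.le
    have := mul_le_mul_of_nonneg_right h2u
      (show (0 : ℝ) ≤ Fintype.card κ * 2 ^ Fintype.card κ by positivity)
    nlinarith
  have h10 : Λ * (Fintype.card κ * 4 ^ Fintype.card κ / Fintype.card F)
      ≤ Fintype.card κ * 4 ^ Fintype.card κ := by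
    rw [mul_div_assoc', div_le_iff₀ q_pos, mul_comm Λ]
    exact mul_le_mul_of_nonneg_left hΛq (by positivity)
  have h11 := mul_le_mul_of_nonneg_left h7 hΛ
  have h12 : (1 + 2 * Λ * n) * av (om : F → ℝ) ^ Y.card ≤ (1 + 2 * Λ * n) * 2 ^ Fintype.card κ :=
    mul_le_mul_of_nonneg_left h6 (by positivity)
  unfold os
  rw [← hp, ← hn]
  have h13 : CE κ * (p * (1 + Λ * n)) = p * (CE κ * (1 + Λ * n)) := by ring
  rw [h13]
  refine mul_le_mul_of_nonneg_left ?_ hp0.le
  refine (add_le_add h12 (h11.trans h10)).trans ?_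
  unfold CE
  have h14 : (0 : ℝ) ≤ 2 ^ Fintype.card κ := by positivity
  have h15 : (0 : ℝ) ≤ Fintype.card κ * 4 ^ Fintype.card κ := by positivity
  have h16 : 0 ≤ Λ * n := mul_nonneg hΛ hn0
  nlinarith [mul_nonneg h15 h16]

/-- `E[ρ f] ` over one vertex. -/
theorem Gad.av_rho {v : κ} {Y : Finset κ} (hb : ∃ b, b ∉ insert v Y) (hv : v ∉ Y) (z : κ → S) :
    av (fun s => pp e dl (insert v Y) (update z v s)) = pp e dl Y z := by
  have h1 : ∀ s, pp e dl (insert v Y) (update z v s) = pp e dl Y z * st e dl v Y z s :=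
    fun s => pp_insert_upd hG.symm dl hv z s
  simp only [h1]
  rw [av_mul_left, hG.av_st dl hb hv, av_dl, one_pow, mul_one]

/-- The mean of the product density. -/
theorem Gad.mean_rho (Y : Finset κ) (hY : ∃ b, b ∉ Y) : av (fun z => pp e dl Y z) = 1 := by
  induction Y using Finset.induction_on with
  | empty =>
    simp only [pp, pairs_empty, Finset.prod_empty]
    exact av_const 1
  | insert v Y hv ih =>
    rw [← av_resample v]
    simp only [hG.av_rho hY hv]
    obtain ⟨b, hb⟩ := hY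
    exact ih ⟨b, fun h => hb (mem_insert_of_mem h)⟩

/-- Removing the vertices outside `J` from the majorant. -/
theorem Gad.peel {Λ : ℝ} (hΛ : 0 ≤ Λ) (hΛq : Λ ≤ Fintype.card F) (J : Finset κ)
    (f : (κ → S) → ℝ) (hf0 : ∀ z, 0 ≤ f z)
    (hf : ∀ z z' : κ → S, (∀ v ∈ J, z v = z' v) → f z = f z') (Y : Finset κ) (hYJ : Disjoint Y J)
    (hY : ∃ b, b ∉ Y ∪ J) :
    av (fun z => os e Λ (Y ∪ J) z * f z) ≤ CE κ ^ Y.card * av (fun z => os e Λ J z * f z) := by
  induction Y using Finset.induction_on with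
  | empty => simp
  | insert v Y hv ih =>
    rw [Finset.disjoint_insert_left] at hYJ
    obtain ⟨b, hb⟩ := hY
    have hvY : v ∉ Y ∪ J := by
      rw [mem_union, not_or]
      exact ⟨hv, hYJ.1⟩
    have ih' := ih hYJ.2 ⟨b, fun h => hb (by rw [Finset.insert_union]; exact mem_insert_of_mem h)⟩
    rw [Finset.insert_union, ← av_resample v]
    have h1 : ∀ (z : κ → S) (s : S), f (update z v s) = f z := fun z s =>
      hf _ _ (upd_ne hYJ.1 z s)
    simp only [h1]
    have h2 : ∀ z, av (fun s => os e Λ (insert v (Y ∪ J)) (update z v s) * f z)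
        ≤ CE κ * (os e Λ (Y ∪ J) z * f z) := by
      intro z
      rw [av_mul_right, ← mul_assoc]
      refine mul_le_mul_of_nonneg_right (hG.ext hΛ hΛq ⟨b, ?_⟩ hvY z) (hf0 z)
      rwa [← Finset.insert_union]
    refine (av_mono h2).trans ?_
    rw [av_mul_left, Finset.card_insert_of_notMem hv, pow_succ, mul_comm (CE κ ^ Y.card), mul_assoc]
    exact mul_le_mul_of_nonneg_left ih' (zero_le_one.trans CE_pos)

/-- Comparison of the majorants of `J ⊆ Y`, `Y ≠ univ`. -/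
theorem Gad.peel' {Λ : ℝ} (hΛ : 0 ≤ Λ) (hΛq : Λ ≤ Fintype.card F) {J Y : Finset κ}
    (hJ : J ⊆ Y) (hY : ∃ b, b ∉ Y) (f : (κ → S) → ℝ) (hf0 : ∀ z, 0 ≤ f z)
    (hf : ∀ z z' : κ → S, (∀ v ∈ J, z v = z' v) → f z = f z') :
    av (fun z => os e Λ Y z * f z) ≤ CE κ ^ Fintype.card κ * av (fun z => os e Λ J z * f z) := by
  have h1 := hG.peel hΛ hΛq J f hf0 hf (Y \ J) Finset.sdiff_disjoint
    (by rw [Finset.sdiff_union_of_subset hJ]; exact hY)
  rw [Finset.sdiff_union_of_subset hJ] at h1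
  refine h1.trans ?_
  refine mul_le_mul_of_nonneg_right (pow_le_pow_right₀ CE_pos (Finset.card_le_univ _)) ?_
  exact av_nonneg fun z => mul_nonneg (os_nonneg hΛ _ _) (hf0 z)

theorem Gad.mean_os {Λ : ℝ} (hΛ : 0 ≤ Λ) (hΛq : Λ ≤ Fintype.card F) {Y : Finset κ}
    (hY : ∃ b, b ∉ Y) : av (fun z => os e Λ Y z) ≤ CE κ ^ Fintype.card κ := by
  have h1 := hG.peel' hΛ hΛq (Finset.empty_subset Y) hY (fun _ => 1) (fun _ => zero_le_one)
    (fun _ _ _ => rfl)
  have h2 : ∀ z : κ → S, os e Λ ∅ z = 1 := by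
    intro z
    unfold os
    have hc : Cl e ∅ z := by
      intro p hp
      rw [pairs_empty] at hp
      exact absurd hp (Finset.notMem_empty p)
    rw [cnt_of_cl hc, pp_of_cl _ hc, pairs_empty, Finset.card_empty]
    simp
  simpa [h2, av_const] using h1

end Pool.Agent.Lib.SDF3
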