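import Mathlib

/-!
# Convolution operators on `F × F` are bounded by their Fourier coefficients
-/

set_option autoImplicit false

namespace Pool.Agent.Lib.SDF3

open Finset

variable {F : Type} [Field F] [Fintype F] [DecidableEq F]

/-- Orthogonality of the characters of `F × F`. -/
theorem orth (ψ : AddChar F ℂ) (hψ : ψ.IsPrimitive) (z : F × F) :
    ∑ a : F × F, ψ (a.1 * z.1 + a.2 * z.2) =
      if z = 0 then (Fintype.card F : ℂ) ^ 2 else 0 := by
  have h3 : ∀ x : F, ∑ a : F, ψ (a * x) = if x = 0 then (Fintype.card F : ℂ) else 0 := by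
    intro x
    rw [AddChar.sum_mulShift x hψ]
    split_ifs <;> simp
  rw [← Finset.univ_product_univ, Finset.sum_product]
  have h4 : ∀ a b : F, ψ (a * z.1 + b * z.2) = ψ (a * z.1) * ψ (b * z.2) := fun a b =>
    AddChar.map_add_eq_mul ψ _ _
  simp only [h4]
  rw [← Finset.sum_mul_sum, h3, h3]
  obtain ⟨z1, z2⟩ := z
  simp only [Prod.mk_eq_zero]
  by_cases h1 : z1 = 0
  · by_cases h2 : z2 = 0
    · rw [if_pos h1, if_pos h2, if_pos ⟨h1, h2⟩, sq]
    · rw [if_neg h2, mul_zero, if_neg fun h => h2 h.2]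
  · rw [if_neg h1, zero_mul, if_neg fun h => h1 h.1]

theorem parseval {ι : Type*} [Fintype ι] (ψ : AddChar F ℂ) (hψ : ψ.IsPrimitive)
    (p : ι → F × F) (hp : Function.Injective p) (f : ι → ℝ) :
    ∑ a : F × F, ‖∑ i, (f i : ℂ) * ψ (a.1 * (p i).1 + a.2 * (p i).2)‖ ^ 2 =
      (Fintype.card F : ℝ) ^ 2 * ∑ i, f i ^ 2 := by
  classical
  have key : ((∑ a : F × F, ‖∑ i, (f i : ℂ) * ψ (a.1 * (p i).1 + a.2 * (p i).2)‖ ^ 2 : ℝ) : ℂ) =
      (((Fintype.card F : ℝ) ^ 2 * ∑ i, f i ^ 2 : ℝ) : ℂ) := by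
    rw [Complex.ofReal_sum]
    have h1 : ∀ a : F × F,
        ((‖∑ i, (f i : ℂ) * ψ (a.1 * (p i).1 + a.2 * (p i).2)‖ ^ 2 : ℝ) : ℂ) =
        ∑ i, ∑ j, (f i : ℂ) * (f j : ℂ) *
          ψ (a.1 * (p i - p j).1 + a.2 * (p i - p j).2) := by
      intro a
      rw [← Complex.normSq_eq_norm_sq, ← Complex.mul_conj, map_sum, Finset.sum_mul_sum]
      refine Finset.sum_congr rfl fun i _ => Finset.sum_congr rfl fun j _ => ?_
      rw [map_mul, Complex.conj_ofReal, ← AddChar.map_neg_eq_conj]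
      have h2 : ψ (a.1 * (p i - p j).1 + a.2 * (p i - p j).2) =
          ψ (a.1 * (p i).1 + a.2 * (p i).2) * ψ (-(a.1 * (p j).1 + a.2 * (p j).2)) := by
        rw [← AddChar.map_add_eq_mul]
        congr 1
        rw [Prod.fst_sub, Prod.snd_sub]
        ring
      rw [h2]
      ring
    rw [Finset.sum_congr rfl fun a _ => h1 a, Finset.sum_comm]
    rw [Finset.sum_congr rfl fun i _ => Finset.sum_comm]
    have h3 : ∀ i j, ∑ a : F × F, (f i : ℂ) * (f j : ℂ) *
        ψ (a.1 * (p i - p j).1 + a.2 * (p i - p j).2) =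
        if i = j then (f i : ℂ) * (f j : ℂ) * (Fintype.card F : ℂ) ^ 2 else 0 := by
      intro i j
      rw [← Finset.mul_sum, orth ψ hψ]
      by_cases h : i = j
      · rw [if_pos h, if_pos (by rw [h, sub_self])]
      · rw [if_neg h, if_neg (fun h5 => h (hp (sub_eq_zero.mp h5))), mul_zero]
    rw [Finset.sum_congr rfl fun i _ => Finset.sum_congr rfl fun j _ => h3 i j]
    rw [Finset.sum_congr rfl fun i _ => Finset.sum_ite_eq _ _ _]
    simp only [Finset.mem_univ, if_true]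
    push_cast
    rw [Finset.mul_sum]
    refine Finset.sum_congr rfl fun i _ => ?_
    ring
  exact_mod_cast key

/-- A convolution operator is bounded by its largest Fourier coefficient. -/
theorem conv_bound {ι : Type*} [Fintype ι] (ψ : AddChar F ℂ) (hψ : ψ.IsPrimitive)
    (p : ι → F × F) (hp : Function.Injective p) (k : F × F → ℝ) (M : ℝ)
    (hM : ∀ a : F × F, ‖∑ z : F × F, (k z : ℂ) * ψ (-(a.1 * z.1 + a.2 * z.2))‖ ≤ M)
    (f g : ι → ℝ) :
    |∑ i, ∑ j, k (p i + p j) * (f i * g j)| ≤ M / 2 * (∑ i, f i ^ 2 + ∑ i, g i ^ 2) := by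
  classical
  set A : F × F → ℂ := fun a => ∑ i, (f i : ℂ) * ψ (a.1 * (p i).1 + a.2 * (p i).2) with hA
  set B : F × F → ℂ := fun a => ∑ i, (g i : ℂ) * ψ (a.1 * (p i).1 + a.2 * (p i).2) with hB
  set K : F × F → ℂ := fun a => ∑ z : F × F, (k z : ℂ) * ψ (-(a.1 * z.1 + a.2 * z.2)) with hK
  have hq : (0 : ℝ) < (Fintype.card F : ℝ) ^ 2 := by
    have : (0 : ℝ) < Fintype.card F := by exact_mod_cast Fintype.card_pos
    positivity
  have key : ∑ a, K a * (A a * B a) =
      (Fintype.card F : ℂ) ^ 2 * ((∑ i, ∑ j, k (p i + p j) * (f i * g j) : ℝ) : ℂ) := by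
    have h1 : ∀ a : F × F, K a * (A a * B a) = ∑ z, ∑ i, ∑ j,
        (k z : ℂ) * ((f i : ℂ) * (g j : ℂ)) *
          ψ (a.1 * (p i + p j - z).1 + a.2 * (p i + p j - z).2) := by
      intro a
      rw [hK, hA, hB]
      simp only
      rw [Finset.sum_mul_sum, Finset.sum_mul_sum]
      refine Finset.sum_congr rfl fun z _ => ?_
      refine Finset.sum_congr rfl fun i _ => ?_
      rw [Finset.mul_sum]
      refine Finset.sum_congr rfl fun j _ => ?_
      have h2 : ψ (a.1 * (p i + p j - z).1 + a.2 * (p i + p j - z).2) =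
          ψ (-(a.1 * z.1 + a.2 * z.2)) * (ψ (a.1 * (p i).1 + a.2 * (p i).2) *
            ψ (a.1 * (p j).1 + a.2 * (p j).2)) := by
        rw [← AddChar.map_add_eq_mul, ← AddChar.map_add_eq_mul]
        congr 1
        rw [Prod.fst_sub, Prod.snd_sub, Prod.fst_add, Prod.snd_add]
        ring
      rw [h2]
      ring
    rw [Finset.sum_congr rfl fun a _ => h1 a]
    rw [Finset.sum_comm]
    rw [Finset.sum_congr rfl fun z _ => Finset.sum_comm]
    rw [Finset.sum_congr rfl fun z _ => Finset.sum_congr rfl fun i _ => Finset.sum_comm]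
    have h3 : ∀ z : F × F, ∀ i j, ∑ a : F × F, (k z : ℂ) * ((f i : ℂ) * (g j : ℂ)) *
        ψ (a.1 * (p i + p j - z).1 + a.2 * (p i + p j - z).2) =
        if z = p i + p j then (k z : ℂ) * ((f i : ℂ) * (g j : ℂ)) * (Fintype.card F : ℂ) ^ 2
        else 0 := by
      intro z i j
      rw [← Finset.mul_sum, orth ψ hψ]
      by_cases h : z = p i + p j
      · rw [if_pos h, if_pos (by rw [h, sub_self])]
      · rw [if_neg h, if_neg (fun h5 => h (sub_eq_zero.mp h5).symm), mul_zero]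
    rw [Finset.sum_congr rfl fun z _ => Finset.sum_congr rfl fun i _ =>
      Finset.sum_congr rfl fun j _ => h3 z i j]
    rw [Finset.sum_comm]
    push_cast
    rw [Finset.mul_sum]
    refine Finset.sum_congr rfl fun i _ => ?_
    rw [Finset.sum_comm, Finset.mul_sum]
    refine Finset.sum_congr rfl fun j _ => ?_
    rw [Finset.sum_ite_eq' Finset.univ (p i + p j)]
    simp only [Finset.mem_univ, if_true]
    ring
  have hnorm : (Fintype.card F : ℝ) ^ 2 * |∑ i, ∑ j, k (p i + p j) * (f i * g j)| =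
      ‖∑ a, K a * (A a * B a)‖ := by
    rw [key, norm_mul, Complex.norm_real, Real.norm_eq_abs, norm_pow, Complex.norm_natCast]
  have hbd : ‖∑ a, K a * (A a * B a)‖ ≤
      (Fintype.card F : ℝ) ^ 2 * (M / 2 * (∑ i, f i ^ 2 + ∑ i, g i ^ 2)) := by
    calc ‖∑ a, K a * (A a * B a)‖ ≤ ∑ a, ‖K a * (A a * B a)‖ := norm_sum_le _ _
      _ ≤ ∑ a, M / 2 * (‖A a‖ ^ 2 + ‖B a‖ ^ 2) := by
          refine Finset.sum_le_sum fun a _ => ?_
          rw [norm_mul, norm_mul]
          have h1 : ‖A a‖ * ‖B a‖ ≤ (‖A a‖ ^ 2 + ‖B a‖ ^ 2) / 2 := by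
            nlinarith [sq_nonneg (‖A a‖ - ‖B a‖)]
          have h2 : 0 ≤ ‖A a‖ * ‖B a‖ := by positivity
          have h0 : 0 ≤ M := (norm_nonneg _).trans (hM a)
          calc ‖K a‖ * (‖A a‖ * ‖B a‖) ≤ M * (‖A a‖ * ‖B a‖) :=
                mul_le_mul_of_nonneg_right (hM a) h2
            _ ≤ M * ((‖A a‖ ^ 2 + ‖B a‖ ^ 2) / 2) := mul_le_mul_of_nonneg_left h1 h0
            _ = M / 2 * (‖A a‖ ^ 2 + ‖B a‖ ^ 2) := by ring
      _ = M / 2 * (∑ a, ‖A a‖ ^ 2 + ∑ a, ‖B a‖ ^ 2) := by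
          rw [← Finset.mul_sum, Finset.sum_add_distrib]
      _ = _ := by
          rw [hA, hB]
          simp only
          rw [parseval ψ hψ p hp f, parseval ψ hψ p hp g]
          ring
  rw [← hnorm] at hbd
  exact le_of_mul_le_mul_left hbd hq

end Pool.Agent.Lib.SDF3
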