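import Mathlib

/-!
# The fourth moment of Kloosterman sums

For a finite field `F` with `q` elements and a nontrivial additive character `ψ`, every
Kloosterman sum `∑ x : Fˣ, ψ (x + c / x)`, `c ≠ 0`, satisfies `|K|^4 ≤ 3 q^2 (q - 1)`.
-/

set_option autoImplicit false

namespace Pool.Agent.SDF3

open Finset

variable {F : Type*} [Field F] [Fintype F] [DecidableEq F]

/-- The quadruples of the fourth moment. -/
def quads (F : Type*) [Field F] [Fintype F] [DecidableEq F] : Finset ((Fˣ × Fˣ) × (Fˣ × Fˣ)) :=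
  Finset.univ.filter fun t =>
    (t.1.1 : F) + t.1.2 = t.2.1 + t.2.2 ∧
      ((t.1.1 : F))⁻¹ + ((t.1.2 : F))⁻¹ = ((t.2.1 : F))⁻¹ + ((t.2.2 : F))⁻¹

theorem quads_cases (t : (Fˣ × Fˣ) × (Fˣ × Fˣ)) (ht : t ∈ quads F) :
    t = ((t.1.1, -t.1.1), (t.2.1, -t.2.1)) ∨ t = ((t.1.1, t.1.2), (t.1.1, t.1.2)) ∨
      t = ((t.1.1, t.1.2), (t.1.2, t.1.1)) := by
  obtain ⟨⟨x, y⟩, ⟨z, w⟩⟩ := t
  simp only [quads, mem_filter, mem_univ, true_and] at ht
  obtain ⟨h1, h2⟩ := ht
  have hx : (x : F) ≠ 0 := x.ne_zero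
  have hy : (y : F) ≠ 0 := y.ne_zero
  have hz : (z : F) ≠ 0 := z.ne_zero
  have hw : (w : F) ≠ 0 := w.ne_zero
  have h3 : ((x : F) + y) * (z * w) = ((x : F) + y) * (x * y) := by
    have e1 : ((x : F))⁻¹ + ((y : F))⁻¹ = (x + y) / (x * y) := by
      field_simp
      ring
    have e2 : ((z : F))⁻¹ + ((w : F))⁻¹ = (z + w) / (z * w) := by
      field_simp
      ring
    rw [e1, e2, div_eq_div_iff (mul_ne_zero hx hy) (mul_ne_zero hz hw)] at h2
    rw [h2, ← h1]
  by_cases hs : (x : F) + y = 0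
  · left
    have hy' : y = -x := by
      apply Units.ext
      rw [Units.val_neg]
      exact (neg_eq_of_add_eq_zero_right hs).symm
    have hw' : w = -z := by
      apply Units.ext
      rw [Units.val_neg]
      rw [hs] at h1
      exact (neg_eq_of_add_eq_zero_right h1.symm).symm
    rw [hy', hw']
  · right
    have h4 : (z : F) * w = x * y := mul_left_cancel₀ hs h3
    have h5 : ((z : F) - x) * (z - y) = 0 := by
      have : (w : F) = x + y - z := by
        rw [h1]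
        ring
      rw [this] at h4
      linear_combination (-1 : F) * h4
    rcases mul_eq_zero.mp h5 with h6 | h6
    · left
      have hzx : z = x := Units.ext (sub_eq_zero.mp h6)
      have hwy : w = y := by
        apply Units.ext
        rw [hzx] at h1
        exact (add_left_cancel h1).symm
      rw [hzx, hwy]
    · right
      have hzy : z = y := Units.ext (sub_eq_zero.mp h6)
      have hwx : w = x := by
        apply Units.ext
        rw [hzy] at h1
        have h7 : (y : F) + x = y + w := by rw [add_comm]; exact h1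
        exact (add_left_cancel h7).symm
      rw [hzy, hwx]

theorem card_quads : (quads F).card ≤ 3 * (Fintype.card Fˣ) ^ 2 := by
  classical
  have hsub : quads F ⊆
      (Finset.univ.image fun p : Fˣ × Fˣ => ((p.1, -p.1), (p.2, -p.2))) ∪
      ((Finset.univ.image fun p : Fˣ × Fˣ => ((p.1, p.2), (p.1, p.2))) ∪
      (Finset.univ.image fun p : Fˣ × Fˣ => ((p.1, p.2), (p.2, p.1)))) := by
    intro t ht
    rw [mem_union, mem_union, mem_image, mem_image, mem_image]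
    rcases quads_cases t ht with h | h | h
    · exact Or.inl ⟨(t.1.1, t.2.1), mem_univ _, h.symm⟩
    · exact Or.inr (Or.inl ⟨(t.1.1, t.1.2), mem_univ _, h.symm⟩)
    · exact Or.inr (Or.inr ⟨(t.1.1, t.1.2), mem_univ _, h.symm⟩)
  have hcard : Fintype.card (Fˣ × Fˣ) = (Fintype.card Fˣ) ^ 2 := by
    rw [Fintype.card_prod, sq]
  have h1 : ∀ f : Fˣ × Fˣ → (Fˣ × Fˣ) × (Fˣ × Fˣ),
      (Finset.univ.image f).card ≤ (Fintype.card Fˣ) ^ 2 := fun f =>
    le_trans Finset.card_image_le (le_of_eq (by rw [Finset.card_univ, hcard]))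
  calc (quads F).card ≤ _ := Finset.card_le_card hsub
    _ ≤ _ := Finset.card_union_le _ _
    _ ≤ (Fintype.card Fˣ) ^ 2 + ((Fintype.card Fˣ) ^ 2 + (Fintype.card Fˣ) ^ 2) :=
        add_le_add (h1 _) (le_trans (Finset.card_union_le _ _) (add_le_add (h1 _) (h1 _)))
    _ = 3 * (Fintype.card Fˣ) ^ 2 := by ring

/-- Parseval for a finite family of frequencies in `F × F`. -/
theorem sum_norm_sq {ι : Type*} [Fintype ι] (ψ : AddChar F ℂ) (hψ : ψ ≠ 1) (s r : ι → F) :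
    ∑ a : F, ∑ b : F, ‖∑ i, ψ (a * s i + b * r i)‖ ^ 2 =
      (Fintype.card F : ℝ) ^ 2 *
        ((Finset.univ.filter fun t : ι × ι => s t.1 = s t.2 ∧ r t.1 = r t.2).card : ℝ) := by
  classical
  have hprim : ψ.IsPrimitive := AddChar.IsPrimitive.of_ne_one hψ
  have key : ∑ a : F, ∑ b : F, ((‖∑ i, ψ (a * s i + b * r i)‖ ^ 2 : ℝ) : ℂ) =
      (Fintype.card F : ℂ) ^ 2 *
        ((Finset.univ.filter fun t : ι × ι => s t.1 = s t.2 ∧ r t.1 = r t.2).card : ℂ) := by
    have h1 : ∀ a b : F, ((‖∑ i, ψ (a * s i + b * r i)‖ ^ 2 : ℝ) : ℂ) =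
        ∑ t : ι × ι, ψ (a * (s t.1 - s t.2)) * ψ (b * (r t.1 - r t.2)) := by
      intro a b
      have h2 : ((‖∑ i, ψ (a * s i + b * r i)‖ ^ 2 : ℝ) : ℂ) =
          (∑ i, ψ (a * s i + b * r i)) * (starRingEnd ℂ) (∑ i, ψ (a * s i + b * r i)) := by
        rw [Complex.mul_conj, Complex.normSq_eq_norm_sq]
      rw [h2, map_sum, Finset.sum_mul_sum, ← Finset.univ_product_univ, Finset.sum_product]
      refine Finset.sum_congr rfl fun i _ => Finset.sum_congr rfl fun j _ => ?_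
      rw [← AddChar.map_neg_eq_conj, ← AddChar.map_add_eq_mul, ← AddChar.map_add_eq_mul]
      congr 1
      ring
    have h3 : ∀ x : F, ∑ a : F, ψ (a * x) = if x = 0 then (Fintype.card F : ℂ) else 0 := by
      intro x
      rw [AddChar.sum_mulShift x hprim]
      split_ifs <;> simp
    calc ∑ a : F, ∑ b : F, ((‖∑ i, ψ (a * s i + b * r i)‖ ^ 2 : ℝ) : ℂ)
        = ∑ a : F, ∑ b : F, ∑ t : ι × ι, ψ (a * (s t.1 - s t.2)) * ψ (b * (r t.1 - r t.2)) :=
          Finset.sum_congr rfl fun a _ => Finset.sum_congr rfl fun b _ => h1 a b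
      _ = ∑ t : ι × ι, (∑ a : F, ψ (a * (s t.1 - s t.2))) *
            (∑ b : F, ψ (b * (r t.1 - r t.2))) := by
          rw [Finset.sum_congr rfl fun a _ => Finset.sum_comm, Finset.sum_comm]
          refine Finset.sum_congr rfl fun t _ => ?_
          rw [Finset.sum_mul_sum]
      _ = ∑ t : ι × ι, if s t.1 = s t.2 ∧ r t.1 = r t.2 then (Fintype.card F : ℂ) ^ 2 else 0 := by
          refine Finset.sum_congr rfl fun t _ => ?_
          rw [h3, h3]
          by_cases h5 : s t.1 = s t.2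
          · by_cases h6 : r t.1 = r t.2
            · rw [if_pos (sub_eq_zero.mpr h5), if_pos (sub_eq_zero.mpr h6), if_pos ⟨h5, h6⟩, sq]
            · rw [if_neg (fun h => h6 (sub_eq_zero.mp h)), mul_zero, if_neg fun h => h6 h.2]
          · rw [if_neg (fun h => h5 (sub_eq_zero.mp h)), zero_mul, if_neg fun h => h5 h.1]
      _ = _ := by
          rw [← Finset.sum_filter, Finset.sum_const, nsmul_eq_mul, mul_comm]
  have h7 := congrArg Complex.re key
  have h8 : ((∑ a : F, ∑ b : F, ((‖∑ i, ψ (a * s i + b * r i)‖ ^ 2 : ℝ) : ℂ)) : ℂ) =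
      ((∑ a : F, ∑ b : F, ‖∑ i, ψ (a * s i + b * r i)‖ ^ 2 : ℝ) : ℂ) := by
    push_cast
    rfl
  rw [h8, Complex.ofReal_re] at h7
  rw [h7]
  have h9 : ((Fintype.card F : ℂ) ^ 2 *
        ((Finset.univ.filter fun t : ι × ι => s t.1 = s t.2 ∧ r t.1 = r t.2).card : ℂ)) =
      (((Fintype.card F : ℝ) ^ 2 *
        ((Finset.univ.filter fun t : ι × ι => s t.1 = s t.2 ∧ r t.1 = r t.2).card : ℝ) : ℝ) : ℂ) := by
    push_cast
    rfl
  rw [h9, Complex.ofReal_re]

/-- Every Kloosterman sum is at most `(3 q^2 (q - 1))^(1/4)` in absolute value. -/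
theorem kloosterman_four (ψ : AddChar F ℂ) (hψ : ψ ≠ 1) (c : F) :
    ‖∑ x : Fˣ, ψ ((x : F) + c * (x : F)⁻¹)‖ ^ 4 ≤
      3 * (Fintype.card F : ℝ) ^ 2 * (Fintype.card Fˣ : ℝ) := by
  classical
  set K : F → F → ℂ := fun a b => ∑ x : Fˣ, ψ (a * (x : F) + b * (x : F)⁻¹) with hK
  have hpair : ∀ a b : F, ‖K a b‖ ^ 4 =
      ‖∑ p : Fˣ × Fˣ, ψ (a * ((p.1 : F) + p.2) + b * ((p.1 : F)⁻¹ + (p.2 : F)⁻¹))‖ ^ 2 := by
    intro a b
    have h1 : ∑ p : Fˣ × Fˣ, ψ (a * ((p.1 : F) + p.2) + b * ((p.1 : F)⁻¹ + (p.2 : F)⁻¹)) =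
        K a b ^ 2 := by
      rw [sq, hK]
      simp only
      rw [Finset.sum_mul_sum, ← Finset.univ_product_univ, Finset.sum_product]
      refine Finset.sum_congr rfl fun x _ => Finset.sum_congr rfl fun y _ => ?_
      rw [← AddChar.map_add_eq_mul]
      congr 1
      ring
    rw [h1, norm_pow, ← pow_mul]
  have htot : ∑ a : F, ∑ b : F, ‖K a b‖ ^ 4 ≤
      3 * (Fintype.card F : ℝ) ^ 2 * (Fintype.card Fˣ : ℝ) ^ 2 := by
    have h2 := sum_norm_sq ψ hψ (fun p : Fˣ × Fˣ => (p.1 : F) + p.2)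
      (fun p : Fˣ × Fˣ => (p.1 : F)⁻¹ + (p.2 : F)⁻¹)
    rw [Finset.sum_congr rfl fun a _ => Finset.sum_congr rfl fun b _ => hpair a b, h2]
    have h3 : ((Finset.univ.filter fun t : (Fˣ × Fˣ) × (Fˣ × Fˣ) =>
        (t.1.1 : F) + t.1.2 = (t.2.1 : F) + t.2.2 ∧
          (t.1.1 : F)⁻¹ + (t.1.2 : F)⁻¹ = (t.2.1 : F)⁻¹ + (t.2.2 : F)⁻¹).card : ℝ) ≤
        3 * (Fintype.card Fˣ : ℝ) ^ 2 := by
      have h4 := card_quads (F := F)
      unfold quads at h4
      exact_mod_cast h4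
    calc (Fintype.card F : ℝ) ^ 2 * _ ≤ (Fintype.card F : ℝ) ^ 2 *
          (3 * (Fintype.card Fˣ : ℝ) ^ 2) := mul_le_mul_of_nonneg_left h3 (by positivity)
      _ = _ := by ring
  have hshift : ∀ u : Fˣ, K (u : F) (c * (u : F)⁻¹) = K 1 c := by
    intro u
    rw [hK]
    simp only
    rw [← Equiv.sum_comp (Equiv.mulLeft u)
      (fun x : Fˣ => ψ (1 * (x : F) + c * (x : F)⁻¹))]
    refine Finset.sum_congr rfl fun x _ => ?_
    rw [Equiv.coe_mulLeft, Units.val_mul, mul_inv]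
    congr 1
    ring
  have hlow : (Fintype.card Fˣ : ℝ) * ‖K 1 c‖ ^ 4 ≤ ∑ a : F, ∑ b : F, ‖K a b‖ ^ 4 := by
    rw [← Finset.sum_product']
    have hinj : Function.Injective fun u : Fˣ => ((u : F), c * (u : F)⁻¹) := by
      intro u v huv
      exact Units.ext (Prod.ext_iff.mp huv).1
    calc (Fintype.card Fˣ : ℝ) * ‖K 1 c‖ ^ 4
        = ∑ u : Fˣ, ‖K (u : F) (c * (u : F)⁻¹)‖ ^ 4 := by
          rw [Finset.sum_congr rfl fun u _ => by rw [hshift u], Finset.sum_const,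
            Finset.card_univ, nsmul_eq_mul]
      _ = ∑ t ∈ Finset.univ.image fun u : Fˣ => ((u : F), c * (u : F)⁻¹), ‖K t.1 t.2‖ ^ 4 := by
          rw [Finset.sum_image fun u _ v _ h => hinj h]
      _ ≤ ∑ t ∈ Finset.univ ×ˢ Finset.univ, ‖K t.1 t.2‖ ^ 4 :=
          Finset.sum_le_sum_of_subset_of_nonneg (Finset.subset_univ _)
            fun _ _ _ => by positivity
  have hpos : (0 : ℝ) < Fintype.card Fˣ := by exact_mod_cast Fintype.card_pos
  have h5 : (Fintype.card Fˣ : ℝ) * ‖K 1 c‖ ^ 4 ≤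
      (Fintype.card Fˣ : ℝ) * (3 * (Fintype.card F : ℝ) ^ 2 * (Fintype.card Fˣ : ℝ)) := by
    refine (hlow.trans htot).trans (le_of_eq ?_)
    ring
  have h6 := le_of_mul_le_mul_left h5 hpos
  have h7 : K 1 c = ∑ x : Fˣ, ψ ((x : F) + c * (x : F)⁻¹) := by
    rw [hK]
    simp only [one_mul]
  rw [← h7]
  exact h6

end Pool.Agent.SDF3
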