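import Pool.Agent.Lib.SDF.Base
import Pool.Agent.Lib.SDF3.Kloos
import Pool.Agent.Lib.SDF3.Conv

/-!
# The shifted hyperbola is quasirandom (row A)
-/

set_option autoImplicit false

namespace Pool.Agent.Lib.SDF3

open Finset
open Pool.Agent.Lib.SDF (av)

section

variable {F : Type} [Field F] [Fintype F] [DecidableEq F]

theorem kl_gen (ψ : AddChar F ℂ) (hψ : ψ ≠ 1) (b c : F) (h : b ≠ 0 ∨ c ≠ 0) :
    ‖∑ x : Fˣ, ψ (b * (x : F) + c * (x : F)⁻¹)‖ ^ 4 ≤
      3 * (Fintype.card F : ℝ) ^ 2 * (Fintype.card Fˣ : ℝ) := by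
  have main : ∀ b c : F, b ≠ 0 → ‖∑ x : Fˣ, ψ (b * (x : F) + c * (x : F)⁻¹)‖ ^ 4 ≤
      3 * (Fintype.card F : ℝ) ^ 2 * (Fintype.card Fˣ : ℝ) := by
    intro b c hb
    have h1 : ∑ x : Fˣ, ψ (b * (x : F) + c * (x : F)⁻¹) =
        ∑ x : Fˣ, ψ ((x : F) + (b * c) * (x : F)⁻¹) := by
      rw [← Equiv.sum_comp (Equiv.mulLeft (Units.mk0 b hb))
        (fun x : Fˣ => ψ ((x : F) + (b * c) * (x : F)⁻¹))]
      refine Finset.sum_congr rfl fun x _ => ?_
      rw [Equiv.coe_mulLeft, Units.val_mul, Units.val_mk0, mul_inv]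
      congr 1
      field_simp
    rw [h1]
    exact SDF3.kloosterman_four ψ hψ (b * c)
  by_cases hb : b = 0
  · have hc : c ≠ 0 := h.resolve_left (fun h2 => h2 hb)
    have h1 : ∑ x : Fˣ, ψ (b * (x : F) + c * (x : F)⁻¹) =
        ∑ x : Fˣ, ψ (c * (x : F) + b * (x : F)⁻¹) := by
      rw [← Equiv.sum_comp (Equiv.inv Fˣ)
        (fun x : Fˣ => ψ (c * (x : F) + b * (x : F)⁻¹))]
      refine Finset.sum_congr rfl fun x _ => ?_
      rw [Equiv.inv_apply, Units.val_inv_eq_inv_val, inv_inv, add_comm]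
    rw [h1]
    exact main c b hc
  · exact main b c hb

/-- The points of the shifted hyperbola. -/
theorem hyp_sum (s s' r : F) (hr : r ≠ 0) (G : F × F → ℂ) :
    ∑ z : F × F, (if (z.1 + s) * (z.2 + s') = r then G z else 0) =
      ∑ u : Fˣ, G ((u : F) - s, r * (u : F)⁻¹ - s') := by
  classical
  rw [← Finset.sum_filter]
  symm
  refine Finset.sum_bij (fun (u : Fˣ) _ => ((u : F) - s, r * (u : F)⁻¹ - s')) ?_ ?_ ?_ ?_
  · intro u _
    rw [Finset.mem_filter]
    refine ⟨Finset.mem_univ _, ?_⟩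
    have hu : (u : F) ≠ 0 := u.ne_zero
    simp only [sub_add_cancel]
    field_simp
  · intro u _ v _ huv
    have h1 := (Prod.ext_iff.mp huv).1
    simp only at h1
    exact Units.ext (sub_left_inj.mp h1)
  · intro z hz
    rw [Finset.mem_filter] at hz
    have hne : z.1 + s ≠ 0 := by
      intro h0
      apply hr
      rw [← hz.2, h0, zero_mul]
    refine ⟨Units.mk0 (z.1 + s) hne, Finset.mem_univ _, ?_⟩
    rw [Units.val_mk0]
    ext
    · simp only
      ring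
    · simp only
      rw [← hz.2]
      field_simp
      ring
  · intro u _
    rfl

theorem hat_bound (ψ : AddChar F ℂ) (hψ : ψ.IsPrimitive) (hψ1 : ψ ≠ 1) (Q : ℝ) (hQ : 1 ≤ Q)
    (hq : Q ^ 4 = Fintype.card F) (s s' r : F) (hr : r ≠ 0) (a : F × F) :
    ‖∑ z : F × F, (((if (z.1 + s) * (z.2 + s') = r then (Fintype.card F : ℝ) else 0) - 1 : ℝ) : ℂ)
      * ψ (-(a.1 * z.1 + a.2 * z.2))‖ ≤ 2 * Q ^ 7 := by
  classical
  have hq' : (Fintype.card F : ℂ) = ((Q ^ 4 : ℝ) : ℂ) := by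
    rw [hq]
    push_cast
    rfl
  have hQ0 : 0 ≤ Q := by linarith
  have hcardu : (Fintype.card Fˣ : ℝ) = Q ^ 4 - 1 := by
    have h1 : Fintype.card Fˣ = Fintype.card F - 1 := Fintype.card_units F
    have h2 : 1 ≤ Fintype.card F := Fintype.card_pos
    rw [h1, Nat.cast_sub h2, hq, Nat.cast_one]
  have hsplit : ∑ z : F × F,
      (((if (z.1 + s) * (z.2 + s') = r then (Fintype.card F : ℝ) else 0) - 1 : ℝ) : ℂ)
        * ψ (-(a.1 * z.1 + a.2 * z.2)) =
      (Fintype.card F : ℂ) * ∑ z : F × F, (if (z.1 + s) * (z.2 + s') = r then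
        ψ (-(a.1 * z.1 + a.2 * z.2)) else 0) - ∑ z : F × F, ψ (-(a.1 * z.1 + a.2 * z.2)) := by
    rw [Finset.mul_sum, ← Finset.sum_sub_distrib]
    refine Finset.sum_congr rfl fun z _ => ?_
    split_ifs
    · push_cast
      ring
    · push_cast
      ring
  have horth : ∑ z : F × F, ψ (-(a.1 * z.1 + a.2 * z.2)) =
      if a = 0 then (Fintype.card F : ℂ) ^ 2 else 0 := by
    have h1 := orth ψ hψ (-a)
    have h2 : ∑ z : F × F, ψ (-(a.1 * z.1 + a.2 * z.2)) =
        ∑ z : F × F, ψ (z.1 * (-a).1 + z.2 * (-a).2) := by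
      refine Finset.sum_congr rfl fun z _ => ?_
      congr 1
      rw [Prod.fst_neg, Prod.snd_neg]
      ring
    rw [h2, h1]
    by_cases h : a = 0
    · rw [if_pos h, if_pos (by rw [h, neg_zero])]
    · rw [if_neg h, if_neg (fun h3 => h (neg_eq_zero.mp h3))]
  rw [hsplit, horth, hyp_sum s s' r hr]
  by_cases ha : a = 0
  · rw [if_pos ha]
    have h1 : ∑ u : Fˣ, ψ (-(a.1 * ((u : F) - s) + a.2 * (r * (u : F)⁻¹ - s'))) =
        (Fintype.card Fˣ : ℂ) := by
      have h2 : ∀ u : Fˣ, ψ (-(a.1 * ((u : F) - s) + a.2 * (r * (u : F)⁻¹ - s'))) = 1 := by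
        intro u
        rw [ha]
        simp
      rw [Finset.sum_congr rfl fun u _ => h2 u, Finset.sum_const, Finset.card_univ,
        nsmul_eq_mul, mul_one]
    simp only at h1 ⊢
    rw [h1]
    have h3 : (Fintype.card Fˣ : ℂ) = ((Q ^ 4 - 1 : ℝ) : ℂ) := by
      rw [← hcardu]
      push_cast
      rfl
    rw [h3, hq']
    have h4 : ((Q ^ 4 : ℝ) : ℂ) * ((Q ^ 4 - 1 : ℝ) : ℂ) - ((Q ^ 4 : ℝ) : ℂ) ^ 2 =
        ((-(Q ^ 4) : ℝ) : ℂ) := by
      push_cast
      ring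
    rw [h4, Complex.norm_real, Real.norm_eq_abs, abs_neg, abs_of_nonneg (by positivity)]
    have h5 : Q ^ 4 ≤ Q ^ 7 := pow_le_pow_right₀ hQ (by norm_num)
    nlinarith [pow_nonneg hQ0 7]
  · rw [if_neg ha, sub_zero, norm_mul, Complex.norm_natCast, ← hq]
    have h1 : ∀ u : Fˣ, ψ (-(a.1 * ((u : F) - s) + a.2 * (r * (u : F)⁻¹ - s'))) =
        ψ (a.1 * s + a.2 * s') * ψ ((-a.1) * (u : F) + (-(a.2 * r)) * (u : F)⁻¹) := by
      intro u
      rw [← AddChar.map_add_eq_mul]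
      congr 1
      ring
    simp only
    rw [Finset.sum_congr rfl fun u _ => h1 u, ← Finset.mul_sum, norm_mul, AddChar.norm_apply,
      one_mul]
    have h2 : -a.1 ≠ 0 ∨ -(a.2 * r) ≠ 0 := by
      by_contra hcon
      push Not at hcon
      apply ha
      have h3 : a.1 = 0 := neg_eq_zero.mp hcon.1
      have h4 : a.2 = 0 := by
        rcases mul_eq_zero.mp (neg_eq_zero.mp hcon.2) with h | h
        · exact h
        · exact absurd h hr
      exact Prod.ext h3 h4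
    have h5 := kl_gen ψ hψ1 (-a.1) (-(a.2 * r)) h2
    set T := ‖∑ x : Fˣ, ψ (-a.1 * (x : F) + -(a.2 * r) * (x : F)⁻¹)‖ with hT
    have hT0 : 0 ≤ T := norm_nonneg _
    have h6 : T ^ 4 ≤ (2 * Q ^ 3) ^ 4 := by
      rw [hcardu, ← hq] at h5
      have h7 : 3 * (Q ^ 4) ^ 2 * (Q ^ 4 - 1) ≤ (2 * Q ^ 3) ^ 4 := by
        have h8 : (0 : ℝ) ≤ Q ^ 8 := by positivity
        have h9 : (0 : ℝ) ≤ Q ^ 12 := by positivity
        nlinarith
      exact h5.trans h7
    have h10 : T ≤ 2 * Q ^ 3 := le_of_pow_le_pow_left₀ (by norm_num) (by positivity) h6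
    calc Q ^ 4 * T ≤ Q ^ 4 * (2 * Q ^ 3) := mul_le_mul_of_nonneg_left h10 (by positivity)
      _ = 2 * Q ^ 7 := by ring

end

/-- The shifted hyperbola is quasirandom on `H × H`, `H` of index at most 2, `q = Q ^ 4`. -/
theorem bil_bound {F : Type} [Field F] [Fintype F] [DecidableEq F] [CharP F 2] (H : AddSubgroup F)
    [Fintype H] (hH : Fintype.card F ≤ 2 * Fintype.card H) (Q : ℝ) (hQ : 1 ≤ Q)
    (hq : Q ^ 4 = Fintype.card F) (s s' r : F) (hr : r ≠ 0) (f g : H × H → ℝ) :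
    |av fun x : H × H => av fun x' : H × H =>
      ((if ((x.1 : F) + x'.1 + s) * ((x.2 : F) + x'.2 + s') = r
        then (Fintype.card F : ℝ) else 0) - 1) * (f x * g x')|
      ≤ (8 / Q) / 2 * (av (fun x => f x ^ 2) + av (fun x => g x ^ 2)) := by
  classical
  obtain ⟨ψ, hψ⟩ := (AddChar.exists_apply_ne_zero (α := F) (a := 1)).2 one_ne_zero
  have hψ1 : ψ ≠ 1 := by
    intro h
    apply hψ
    rw [h, AddChar.one_apply]
  have hprim : ψ.IsPrimitive := AddChar.IsPrimitive.of_ne_one hψ1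
  set k : F × F → ℝ := fun z =>
    (if (z.1 + s) * (z.2 + s') = r then (Fintype.card F : ℝ) else 0) - 1 with hk
  let p : H × H → F × F := fun x => ((x.1 : F), (x.2 : F))
  have hp : Function.Injective p := by
    intro x y hxy
    have h1 := Prod.ext_iff.mp hxy
    exact Prod.ext (Subtype.ext h1.1) (Subtype.ext h1.2)
  have h1 := conv_bound ψ hprim p hp k (2 * Q ^ 7)
    (fun a => hat_bound ψ hprim hψ1 Q hQ hq s s' r hr a) f g
  have hQ0 : 0 < Q := by linarith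
  set N : ℝ := (Fintype.card (H × H) : ℝ) with hN
  have hNpos : 0 < N := by
    rw [hN]
    exact_mod_cast Fintype.card_pos
  have hNlow : Q ^ 8 / 4 ≤ N := by
    have h2 : (Fintype.card (H × H) : ℝ) = (Fintype.card H : ℝ) * (Fintype.card H : ℝ) := by
      rw [Fintype.card_prod]
      push_cast
      rfl
    have h3 : Q ^ 4 ≤ 2 * (Fintype.card H : ℝ) := by
      rw [hq]
      exact_mod_cast hH
    rw [hN, h2]
    have h4 : 0 ≤ Q ^ 4 := by positivity
    nlinarith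
  have hav : (av fun x : H × H => av fun x' : H × H =>
      ((if ((x.1 : F) + x'.1 + s) * ((x.2 : F) + x'.2 + s') = r
        then (Fintype.card F : ℝ) else 0) - 1) * (f x * g x')) =
      (∑ i, ∑ j, k (p i + p j) * (f i * g j)) / (N * N) := by
    rw [← div_div]
    unfold av
    rw [← Finset.sum_div]
    rfl
  have hf : av (fun x => f x ^ 2) = (∑ i, f i ^ 2) / N := rfl
  have hg : av (fun x => g x ^ 2) = (∑ i, g i ^ 2) / N := rfl
  rw [hav, abs_div, abs_of_pos (mul_pos hNpos hNpos), hf, hg, div_le_iff₀ (mul_pos hNpos hNpos)]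
  refine h1.trans ?_
  set S := ∑ i, f i ^ 2 + ∑ i, g i ^ 2 with hS
  have hS0 : 0 ≤ S := by
    rw [hS]
    positivity
  have h5 : 8 / Q / 2 * ((∑ i, f i ^ 2) / N + (∑ i, g i ^ 2) / N) * (N * N) =
      (8 / Q / 2 * N) * S := by
    rw [hS]
    field_simp
  rw [h5]
  refine mul_le_mul_of_nonneg_right ?_ hS0
  have h6 : 8 / Q / 2 * (Q ^ 8 / 4) = Q ^ 7 := by
    field_simp
    ring
  have h7 : 0 ≤ 8 / Q / 2 := by positivity
  nlinarith [mul_le_mul_of_nonneg_left hNlow h7]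

end Pool.Agent.Lib.SDF3
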