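import Pool.Agent.Lib.SDF3.Pair

/-!
The cross terms of the main part.
-/

set_option autoImplicit false

namespace Pool.Agent.Lib.SDF3

open Finset Function
open Pool.Agent.Lib.SDF (av av_add av_sub av_neg av_mul_left av_mul_right av_zero av_const av_mono
  av_nonneg av_finset_sum av_comm abs_av_le av_congr sum_eq_card_mul_av)

variable {κ S F B : Type} [Fintype κ] [LinearOrder κ] [Fintype S] [Nonempty S] [Field F]
  [Fintype F] [DecidableEq F] [Fintype B] [Nonempty B] {e : κ → κ → S → S → F} {P : S → B}
  {D : (κ → B) → F} {θ : ℝ}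

/-- The sum of `e` over a star. -/
def ss (e : κ → κ → S → S → F) (v : κ) (Y : Finset κ) (z : κ → S) (s : S) : F :=
  ∑ c ∈ Y, e v c s (z c)

/-- The weighted average of `f` over one vertex. -/
noncomputable def pav (e : κ → κ → S → S → F) (v : κ) (Y : Finset κ) (z : κ → S) (f : S → ℝ) :
    ℝ := av fun s => st e dl v Y z s * f s

variable (hG : Gad e P D θ)
include hG

/-- The edge `b a` is determined by the rest, both vertices are free. -/
theorem Gad.edge_two {a b : κ} (hab : a ≠ b) (z : κ → S) (s t : S) :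
    e b a t s = D (update (update (fun v => P (z v)) a (P s)) b (P t))
      - (rr e ((univ.erase b).erase a) z + ∑ c ∈ (univ.erase b).erase a, e a c s (z c)
      + ∑ c ∈ (univ.erase b).erase a, e b c t (z c)) := by
  have h1 := hG.edge_one hab (update z a s) t
  rw [update_self] at h1
  have h2 : (fun v => P (update z a s v)) = update (fun v => P (z v)) a (P s) := by
    funext v
    by_cases hv : v = a
    · subst hv; simp
    · simp [hv]
  have h3 : insert a ((univ.erase b).erase a) = univ.erase b :=
    Finset.insert_erase (Finset.mem_erase.2 ⟨hab, mem_univ a⟩)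
  have h4 : rr e (univ.erase b) (update z a s) = rr e ((univ.erase b).erase a) z
      + ∑ c ∈ (univ.erase b).erase a, e a c s (z c) := by
    conv_lhs => rw [← h3]
    exact rr_insert_upd hG.symm (Finset.notMem_erase a _) z s
  have h5 : ∑ c ∈ (univ.erase b).erase a, e b c t (update z a s c)
      = ∑ c ∈ (univ.erase b).erase a, e b c t (z c) :=
    Finset.sum_congr rfl fun c hc => by rw [upd_ne (Finset.notMem_erase a _) z s c hc]
  rw [h1, h2, h4, h5]
  ring

/-- The bound for one pair, for fixed types of the other vertices. -/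
theorem Gad.pair {a b : κ} (hab : a ≠ b) (σ : ℝ) (hσ : 1 ≤ σ)
    (hσq : σ ^ 2 = Fintype.card F) (hθ : 0 ≤ θ) (z : κ → S) (f g : S → ℝ) :
    |av (fun s => av fun t => st e ps a ((univ.erase b).erase a) z s
        * st e ps b ((univ.erase b).erase a) z t * ps (e b a t s) * (f s * g t))
      + (if rr e ((univ.erase b).erase a) z = 0 then 1 else 0)
        * (((Fintype.card F : ℝ) - 1) / Fintype.card F) ^ (2 * ((univ.erase b).erase a).card)
        * (pav e a ((univ.erase b).erase a) z f * pav e b ((univ.erase b).erase a) z g)|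
      ≤ (θ * 2 ^ ((univ.erase b).erase a).card
          + (1 + ((univ.erase b).erase a).card * 2 ^ ((univ.erase b).erase a).card) / σ) / 2
        * (av (fun s => st e om a ((univ.erase b).erase a) z s * f s ^ 2)
          + av (fun t => st e om b ((univ.erase b).erase a) z t * g t ^ 2)) := by
  obtain ⟨Z, hZ⟩ : ∃ Z : Finset κ, Z = (univ.erase b).erase a := ⟨_, rfl⟩
  have hZa : ∀ c ∈ Z, c ≠ a := fun c hc => Finset.ne_of_mem_erase (hZ ▸ hc)
  have hZb : ∀ c ∈ Z, c ≠ b := fun c hc =>
    Finset.ne_of_mem_erase (Finset.mem_of_mem_erase (hZ ▸ hc))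
  have hedge := fun s t => hG.edge_two hab z s t
  rw [← hZ] at hedge ⊢
  obtain ⟨fa, a1, a2, a3⟩ := hG.inv a b hab z
  obtain ⟨fb, b1, b2, b3⟩ := hG.inv b a hab.symm z
  have sta : ∀ (φ : F → ℝ) (x : B) (w : κ → F), st e φ a Z z (fa x w) = ∏ c ∈ Z, φ (w c) := by
    intro φ x w
    exact Finset.prod_congr rfl fun c hc => by rw [a2 x w c (hZa c hc) (hZb c hc)]
  have stb : ∀ (φ : F → ℝ) (x : B) (w : κ → F), st e φ b Z z (fb x w) = ∏ c ∈ Z, φ (w c) := by
    intro φ x w
    exact Finset.prod_congr rfl fun c hc => by rw [b2 x w c (hZb c hc) (hZa c hc)]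
  have suma : ∀ (x : B) (w : κ → F), ∑ c ∈ Z, e a c (fa x w) (z c) = ∑ c ∈ Z, w c := by
    intro x w
    exact Finset.sum_congr rfl fun c hc => by rw [a2 x w c (hZa c hc) (hZb c hc)]
  have sumb : ∀ (x : B) (w : κ → F), ∑ c ∈ Z, e b c (fb x w) (z c) = ∑ c ∈ Z, w c := by
    intro x w
    exact Finset.sum_congr rfl fun c hc => by rw [b2 x w c (hZb c hc) (hZa c hc)]
  obtain ⟨y, hy⟩ : ∃ y : κ → B, y = fun v => P (z v) := ⟨_, rfl⟩
  obtain ⟨R0, hR0⟩ : ∃ R0 : F, R0 = rr e Z z := ⟨_, rfl⟩
  rw [← hy, ← hR0] at hedge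
  rw [← hR0]
  -- the averages in coordinates
  have eA : av (fun s => st e om a Z z s * f s ^ 2)
      = av fun w : κ → F => (∏ c ∈ Z, om (w c)) * av fun x => f (fa x w) ^ 2 := by
    rw [a3, av_comm]
    refine av_congr fun w => ?_
    simp only [sta, av_mul_left]
  have eB : av (fun s => st e om b Z z s * g s ^ 2)
      = av fun w : κ → F => (∏ c ∈ Z, om (w c)) * av fun x => g (fb x w) ^ 2 := by
    rw [b3, av_comm]
    refine av_congr fun w => ?_
    simp only [stb, av_mul_left]
  have eA' : pav e a Z z f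
      = av fun w : κ → F => (∏ c ∈ Z, dl (w c)) * av fun x => f (fa x w) := by
    unfold pav
    rw [a3, av_comm]
    refine av_congr fun w => ?_
    simp only [sta, av_mul_left]
  have eB' : pav e b Z z g
      = av fun w : κ → F => (∏ c ∈ Z, dl (w c)) * av fun x => g (fb x w) := by
    unfold pav
    rw [b3, av_comm]
    refine av_congr fun w => ?_
    simp only [stb, av_mul_left]
  obtain ⟨I, hI⟩ : ∃ I : (κ → F) → (κ → F) → ℝ, I = fun w w' => av fun x => av fun x' =>
    ((if D (update (update y a x) b x') = R0 + ∑ c ∈ Z, w c + ∑ c ∈ Z, w' c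
      then (Fintype.card F : ℝ) else 0) - 1) * (f (fa x w) * g (fb x' w')) := ⟨_, rfl⟩
  have eL : av (fun s => av fun t => st e ps a Z z s * st e ps b Z z t * ps (e b a t s)
        * (f s * g t))
      = av fun w : κ → F => av fun w' : κ → F =>
        (∏ c ∈ Z, ps (w c)) * (∏ c ∈ Z, ps (w' c)) * I w w' := by
    rw [a3, av_comm]
    refine av_congr fun w => ?_
    have h1 : ∀ x : B, av (fun t => st e ps a Z z (fa x w) * st e ps b Z z t
        * ps (e b a t (fa x w)) * (f (fa x w) * g t))
        = av fun w' : κ → F => av fun x' : B => st e ps a Z z (fa x w) * st e ps b Z z (fb x' w')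
        * ps (e b a (fb x' w') (fa x w)) * (f (fa x w) * g (fb x' w')) := by
      intro x
      rw [b3, av_comm]
    simp only [h1]
    rw [av_comm]
    refine av_congr fun w' => ?_
    rw [hI]
    simp only
    rw [← av_mul_left]
    refine av_congr fun x => ?_
    rw [← av_mul_left]
    refine av_congr fun x' => ?_
    rw [sta, stb, hedge, a1, b1, suma, sumb]
    unfold ps dl
    simp only [sub_eq_zero]
    ring
  rw [eL, eA, eB, eA', eB']
  refine pair_abs Z R0 σ θ hσ hσq hθ I _ _ _ _ ?_ ?_ ?_ ?_
  · intro w w' h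
    rw [hI]
    simp only
    rw [h]
    have h2 : ∀ x x', (if D (update (update y a x) b x') = 0 then (Fintype.card F : ℝ) else 0)
        - 1 = -1 := by
      intro x x'
      rw [if_neg (hG.ne _)]; norm_num
    simp only [h2]
    simp only [av_mul_left, av_mul_right]
    ring
  · intro w w' h
    rw [hI]
    exact hG.bil a b hab y _ h (fun x => f (fa x w)) (fun x => g (fb x w'))
  · intro w
    exact av_sq_le _
  · intro w
    exact av_sq_le _

omit hG in
theorem pav_sq_le (hG : Gad e P D θ) {a : κ} {Y : Finset κ} (hb : ∃ b, b ∉ insert a Y)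
    (ha : a ∉ Y) (z : κ → S) (f : S → ℝ) :
    pav e a Y z f ^ 2 ≤ av fun s => st e om a Y z s * f s ^ 2 := by
  have h0 : ∀ s, 0 ≤ st e dl a Y z s := fun s => Finset.prod_nonneg fun _ _ => dl_nonneg _
  refine (av_cs (fun s => st e dl a Y z s) f h0).trans ?_
  have h1 : av (fun s => st e dl a Y z s) = 1 := by
    rw [hG.av_st dl hb ha, av_dl, one_pow]
  rw [h1, one_mul]
  refine av_mono fun s => mul_le_mul_of_nonneg_right ?_ (sq_nonneg _)
  exact Finset.prod_le_prod (fun _ _ => dl_nonneg _) fun _ _ => dl_le_om _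

/-- The difference of the weighted averages, on the cliques. -/
noncomputable def hf (e : κ → κ → S → S → F) (a b : κ) (ga gb : (κ → S) → ℝ) (z : κ → S) : ℝ :=
  open Classical in
  if Cl e ((univ.erase b).erase a) z then
    pav e a ((univ.erase b).erase a) z (fun s => gb (update z a s))
      - pav e b ((univ.erase b).erase a) z (fun t => ga (update z b t)) else 0

/-- The cross terms. -/
theorem Gad.cross {a b : κ} (hab : a ≠ b) (σ : ℝ) (hσ : 1 ≤ σ)
    (hσq : σ ^ 2 = Fintype.card F) (hθ : 0 ≤ θ) (ga gb : (κ → S) → ℝ)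
    (hga : ∀ z s, ga (update z a s) = ga z) (hgb : ∀ z s, gb (update z b s) = gb z) :
    - (1 / 4) * av (fun z => pp e dl ((univ.erase b).erase a) z * hf e a b ga gb z ^ 2)
      - ((θ * 2 ^ Fintype.card κ + (1 + Fintype.card κ * 2 ^ Fintype.card κ) / σ) / 2
          + 1 / (2 * σ)) * (av (fun z => os e σ (univ.erase b) z * gb z ^ 2)
            + av (fun z => os e σ (univ.erase a) z * ga z ^ 2))
      ≤ av fun z => - pp e ps univ z * (ga z * gb z) := by
  classical
  obtain ⟨Z, hZ⟩ : ∃ Z : Finset κ, Z = (univ.erase b).erase a := ⟨_, rfl⟩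
  have hZu : (Z.card : ℝ) ≤ Fintype.card κ := by exact_mod_cast Finset.card_le_univ Z
  have h2Z : (2 : ℝ) ^ Z.card ≤ 2 ^ Fintype.card κ :=
    pow_le_pow_right₀ (by norm_num) (Finset.card_le_univ Z)
  have haZ : a ∉ Z := by rw [hZ]; exact Finset.notMem_erase a _
  have hbZ : b ∉ Z := by
    rw [hZ]
    exact fun h => Finset.notMem_erase b univ (Finset.mem_of_mem_erase h)
  have hia : insert a Z = univ.erase b := by
    rw [hZ]; exact Finset.insert_erase (Finset.mem_erase.2 ⟨hab, mem_univ a⟩)
  have hib : insert b Z = univ.erase a := by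
    rw [hZ, Finset.erase_right_comm]
    exact Finset.insert_erase (Finset.mem_erase.2 ⟨hab.symm, mem_univ b⟩)
  have hiab : insert b (insert a Z) = univ := by
    rw [hia]; exact Finset.insert_erase (mem_univ b)
  have hbaZ : b ∉ insert a Z := by rw [hia]; exact Finset.notMem_erase b _
  have habZ : a ∉ insert b Z := by rw [hib]; exact Finset.notMem_erase a _
  have hσ0 : 0 < σ := by linarith
  obtain ⟨η, hη⟩ : ∃ η : ℝ, η = (θ * 2 ^ Fintype.card κ
    + (1 + Fintype.card κ * 2 ^ Fintype.card κ) / σ) / 2 := ⟨_, rfl⟩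
  have hη0 : 0 ≤ η := by rw [hη]; positivity
  have hpair := fun z => hG.pair hab σ hσ hσq hθ z (fun s => gb (update z a s))
    (fun t => ga (update z b t))
  rw [← hη]
  rw [← hZ] at hpair ⊢
  obtain ⟨L, hL⟩ : ∃ L : (κ → S) → ℝ, L = fun z => av (fun s => av fun t => st e ps a Z z s
        * st e ps b Z z t * ps (e b a t s) * (gb (update z a s) * ga (update z b t))) := ⟨_, rfl⟩
  obtain ⟨κ0, hκ0⟩ : ∃ κ0 : ℝ, κ0 = (((Fintype.card F : ℝ) - 1) / Fintype.card F)
    ^ (2 * Z.card) := ⟨_, rfl⟩
  have hκ00 : 0 ≤ κ0 := by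
    rw [hκ0]
    refine pow_nonneg (div_nonneg ?_ q_pos.le) _
    linarith [one_le_q (F := F)]
  have hκ01 : κ0 ≤ 1 := by
    rw [hκ0]
    refine pow_le_one₀ (div_nonneg ?_ q_pos.le) ?_
    · linarith [one_le_q (F := F)]
    · rw [div_le_one q_pos]; linarith
  obtain ⟨x, hx⟩ : ∃ x : (κ → S) → ℝ, x = fun z => pav e a Z z (fun s => gb (update z a s)) :=
    ⟨_, rfl⟩
  obtain ⟨y, hy⟩ : ∃ y : (κ → S) → ℝ, y = fun z => pav e b Z z (fun t => ga (update z b t)) :=
    ⟨_, rfl⟩
  obtain ⟨A, hA⟩ : ∃ A : (κ → S) → ℝ, A = fun z => av (fun s => st e om a Z z s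
    * gb (update z a s) ^ 2) := ⟨_, rfl⟩
  obtain ⟨A', hA'⟩ : ∃ A' : (κ → S) → ℝ, A' = fun z => av (fun t => st e om b Z z t
    * ga (update z b t) ^ 2) := ⟨_, rfl⟩
  have hA0 : ∀ z, 0 ≤ A z := by
    intro z
    rw [hA]
    exact av_nonneg fun s => mul_nonneg (Finset.prod_nonneg fun _ _ => (om_pos _).le)
      (sq_nonneg _)
  have hA0' : ∀ z, 0 ≤ A' z := by
    intro z
    rw [hA']
    exact av_nonneg fun s => mul_nonneg (Finset.prod_nonneg fun _ _ => (om_pos _).le)
      (sq_nonneg _)
  have hxA : ∀ z, x z ^ 2 ≤ A z := by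
    intro z
    rw [hx, hA]
    exact pav_sq_le hG ⟨b, hbaZ⟩ haZ z _
  have hyA : ∀ z, y z ^ 2 ≤ A' z := by
    intro z
    rw [hy, hA']
    exact pav_sq_le hG ⟨a, habZ⟩ hbZ z _
  have hL1 : ∀ z, |L z + (if rr e Z z = 0 then 1 else 0) * κ0 * (x z * y z)|
      ≤ η * (A z + A' z) := by
    intro z
    have h1 := hpair z
    rw [← hκ0] at h1
    rw [hL, hx, hy, hA, hA']
    refine h1.trans ?_
    refine mul_le_mul_of_nonneg_right ?_ ?_
    · rw [hη]
      have h3 : θ * 2 ^ Z.card ≤ θ * 2 ^ Fintype.card κ := mul_le_mul_of_nonneg_left h2Z hθ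
      have h4 : (1 + (Z.card : ℝ) * 2 ^ Z.card) / σ
          ≤ (1 + Fintype.card κ * 2 ^ Fintype.card κ) / σ := by
        refine div_le_div_of_nonneg_right ?_ hσ0.le
        have := mul_le_mul hZu h2Z (by positivity) (Nat.cast_nonneg _)
        linarith
      linarith
    · have := hA0 z
      have := hA0' z
      rw [hA, hA'] at *
      simp only at *
      linarith
  -- the expectation
  have hE : av (fun z => - pp e ps univ z * (ga z * gb z))
      = av fun z => - pp e ps Z z * L z := by
    rw [← av_resample b, ← av_resample a]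
    refine av_congr fun z => ?_
    rw [hL]
    simp only
    rw [← av_mul_left]
    refine av_congr fun s => ?_
    rw [← av_mul_left]
    refine av_congr fun t => ?_
    have h1 : pp e ps univ (update (update z a s) b t)
        = pp e ps Z z * st e ps a Z z s * (st e ps b Z z t * ps (e b a t s)) := by
      rw [← hiab, pp_insert_upd hG.symm ps hbaZ, pp_insert_upd hG.symm ps haZ]
      congr 1
      unfold st
      rw [Finset.prod_insert haZ, update_self, mul_comm]
      congr 1
      exact Finset.prod_congr rfl fun c hc => by rw [upd_ne haZ z s c hc]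
    have h2 : ga (update (update z a s) b t) = ga (update z b t) := by
      rw [update_comm hab, hga]
    rw [h1, h2, hgb]
    ring
  rw [hE]
  -- the pointwise bound
  have hpt : ∀ z, - (1 / 4) * (pp e dl Z z * hf e a b ga gb z ^ 2)
      - (η + 1 / (2 * σ)) * (os e σ Z z * A z + os e σ Z z * A' z) ≤ - pp e ps Z z * L z := by
    intro z
    have hos := om_le_os hσ0.le (e := e) Z z
    have hos0 := os_nonneg hσ0.le (e := e) Z z
    have hps := abs_pp_ps_le (e := e) Z z
    have hps' : |pp e ps Z z| ≤ os e σ Z z := hps.trans hos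
    have h0 := hA0 z
    have h0' := hA0' z
    obtain ⟨E, hEdef⟩ : ∃ E, E = L z + (if rr e Z z = 0 then 1 else 0) * κ0 * (x z * y z) :=
      ⟨_, rfl⟩
    have hEb : |E| ≤ η * (A z + A' z) := by rw [hEdef]; exact hL1 z
    have h1 : - pp e ps Z z * L z = pp e ps Z z * ((if rr e Z z = 0 then 1 else 0) * κ0
        * (x z * y z)) - pp e ps Z z * E := by
      rw [hEdef]; ring
    have h2 : pp e ps Z z * E ≤ os e σ Z z * (η * (A z + A' z)) := by
      refine (le_abs_self _).trans ?_
      rw [abs_mul]
      exact mul_le_mul hps' hEb (abs_nonneg _) hos0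
    have h3 : - (1 / 4) * (pp e dl Z z * hf e a b ga gb z ^ 2)
        - 1 / (2 * σ) * (os e σ Z z * A z + os e σ Z z * A' z)
        ≤ pp e ps Z z * ((if rr e Z z = 0 then 1 else 0) * κ0 * (x z * y z)) := by
      have hdl0 : 0 ≤ pp e dl Z z := pp_nonneg dl dl_nonneg Z z
      have hsig : 0 < 1 / (2 * σ) := by positivity
      have h4 : 0 ≤ 1 / (2 * σ) * (os e σ Z z * A z + os e σ Z z * A' z) := by positivity
      by_cases hr : rr e Z z = 0
      · rw [if_pos hr, one_mul]
        by_cases hc : Cl e Z z
        · have hh : hf e a b ga gb z = x z - y z := by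
            unfold hf
            rw [← hZ, if_pos hc, hx, hy]
          rw [hh]
          have h5 : 0 ≤ pp e ps Z z * κ0 := by
            refine mul_nonneg ?_ hκ00
            rw [pp_of_cl _ hc, ps_zero]
            exact pow_nonneg (by linarith [one_le_q (F := F)]) _
          have h6 : pp e ps Z z * κ0 ≤ pp e dl Z z := by
            have h7 : pp e ps Z z ≤ pp e dl Z z := by
              rw [pp_of_cl _ hc, pp_of_cl _ hc, ps_zero, dl_zero]
              exact pow_le_pow_left₀ (by linarith [one_le_q (F := F)]) (by linarith) _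
            have h8 : 0 ≤ pp e ps Z z := by
              rw [pp_of_cl _ hc, ps_zero]
              exact pow_nonneg (by linarith [one_le_q (F := F)]) _
            nlinarith
          have h7 : - (1 / 4) * (x z - y z) ^ 2 ≤ x z * y z := by
            nlinarith [sq_nonneg (x z + y z)]
          have h8 := mul_le_mul_of_nonneg_left h7 h5
          have h9 := mul_le_mul_of_nonneg_right h6 (sq_nonneg (x z - y z))
          nlinarith
        · have hbad := os_of_bad hσ0.le (e := e) (Y := Z) (z := z) ⟨hr, hc⟩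
          rw [pp_dl_of_not_cl hc, zero_mul, mul_zero, zero_sub]
          have h5 : |pp e ps Z z * (κ0 * (x z * y z))|
              ≤ (1 / σ * os e σ Z z) * ((A z + A' z) / 2) := by
            rw [abs_mul]
            refine mul_le_mul ?_ ?_ (abs_nonneg _) (by positivity)
            · refine hps.trans ?_
              rw [div_mul_eq_mul_div, one_mul, le_div_iff₀ hσ0, mul_comm]
              exact hbad
            · rw [abs_mul, abs_of_nonneg hκ00]
              have h6 := two_mul_le (x z) (y z) 1 one_pos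
              have h7 : |x z * y z| ≤ (A z + A' z) / 2 := by
                refine h6.trans ?_
                have := hxA z
                have := hyA z
                rw [div_one]
                linarith
              nlinarith [abs_nonneg (x z * y z)]
          have h6 := neg_abs_le (pp e ps Z z * (κ0 * (x z * y z)))
          have h7 : (1 / σ * os e σ Z z) * ((A z + A' z) / 2)
              = 1 / (2 * σ) * (os e σ Z z * A z + os e σ Z z * A' z) := by
            field_simp
          linarith
      · rw [if_neg hr, zero_mul, zero_mul, mul_zero]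
        have h5 : 0 ≤ pp e dl Z z * hf e a b ga gb z ^ 2 := mul_nonneg hdl0 (sq_nonneg _)
        linarith
    rw [h1]
    nlinarith
  refine le_trans ?_ (av_mono hpt)
  rw [av_sub, av_mul_left, av_mul_left, av_add]
  have hfin1 : av (fun z => os e σ Z z * A z) ≤ av fun z => os e σ (univ.erase b) z * gb z ^ 2 := by
    rw [← av_resample a (fun z => os e σ (univ.erase b) z * gb z ^ 2)]
    refine av_mono fun z => ?_
    rw [hA]
    simp only
    rw [← av_mul_left]
    refine av_mono fun s => ?_
    rw [← mul_assoc]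
    refine mul_le_mul_of_nonneg_right ?_ (sq_nonneg _)
    rw [← hia]
    exact os_insert_ge hG.symm hσ0.le haZ z s
  have hfin2 : av (fun z => os e σ Z z * A' z) ≤ av fun z => os e σ (univ.erase a) z * ga z ^ 2 := by
    rw [← av_resample b (fun z => os e σ (univ.erase a) z * ga z ^ 2)]
    refine av_mono fun z => ?_
    rw [hA']
    simp only
    rw [← av_mul_left]
    refine av_mono fun s => ?_
    rw [← mul_assoc]
    refine mul_le_mul_of_nonneg_right ?_ (sq_nonneg _)
    rw [← hib]
    exact os_insert_ge hG.symm hσ0.le hbZ z s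
  have h9 : 0 ≤ η + 1 / (2 * σ) := by positivity
  have h10 := mul_le_mul_of_nonneg_left (add_le_add hfin1 hfin2) h9
  linarith

end Pool.Agent.Lib.SDF3
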