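import Pool.Agent.Lib.SDF3.Avg

/-!
Decompositions of a function of degree at most `k - 1` into functions which do not depend on one
of the coordinates.
-/

set_option autoImplicit false

namespace Pool.Agent.Lib.SDF3

open Finset Function
open Pool.Agent.Lib.SDF (av av_add av_sub av_neg av_mul_left av_mul_right av_zero av_const av_mono
  av_nonneg av_finset_sum av_comm abs_av_le av_congr sum_eq_card_mul_av degLE Junta)

section EJ
variable {κ S : Type} [Fintype κ] [LinearOrder κ] [Fintype S] [Nonempty S]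

/-- The average over the coordinates outside `J`. -/
noncomputable def EJ (J : Finset κ) (g : (κ → S) → ℝ) (z : κ → S) : ℝ :=
  av fun z' => g (J.piecewise z z')

theorem EJ_univ (g : (κ → S) → ℝ) (z : κ → S) : EJ univ g z = g z := by
  unfold EJ
  simp only [Finset.piecewise_univ]
  exact av_const _

theorem EJ_congr (J : Finset κ) (g : (κ → S) → ℝ) {z z' : κ → S} (h : ∀ v ∈ J, z v = z' v) :
    EJ J g z = EJ J g z' := by
  unfold EJ
  refine av_congr fun x => ?_
  congr 1
  funext v
  by_cases hv : v ∈ J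
  · simp [hv, h v hv]
  · simp [hv]

/-- The alternating sum vanishes on the functions of degree at most `k - 1`. -/
theorem EJ_alt (g : (κ → S) → ℝ) (hg : g ∈ degLE κ S (Fintype.card κ - 1))
    (hκ : 0 < Fintype.card κ) (z : κ → S) :
    ∑ J ∈ (univ : Finset κ).powerset, (-1 : ℝ) ^ J.card * EJ J g z = 0 := by
  unfold degLE at hg
  induction hg using Submodule.span_induction with
  | mem g hg =>
    obtain ⟨Q, hQ, hg⟩ := hg
    obtain ⟨b, hb⟩ : ∃ b, b ∉ Q := by
      by_contra hcon
      push Not at hcon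
      have : Q = univ := Finset.eq_univ_iff_forall.2 hcon
      rw [this, Finset.card_univ] at hQ
      omega
    have h1 : insert b (univ.erase b) = (univ : Finset κ) := Finset.insert_erase (mem_univ b)
    rw [← h1, Finset.sum_powerset_insert (Finset.notMem_erase b univ), ← Finset.sum_add_distrib]
    refine Finset.sum_eq_zero fun J hJ => ?_
    have hbJ : b ∉ J := fun h => Finset.notMem_erase b univ (Finset.mem_powerset.1 hJ h)
    have h2 : EJ (insert b J) g z = EJ J g z := by
      unfold EJ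
      refine av_congr fun x => hg _ _ fun v hv => ?_
      have hvb : v ≠ b := by
        rintro rfl
        exact hb hv
      by_cases hvJ : v ∈ J
      · simp [hvJ]
      · simp [hvJ, hvb]
    rw [h2, Finset.card_insert_of_notMem hbJ, pow_succ]
    ring
  | zero =>
    refine Finset.sum_eq_zero fun J _ => ?_
    have : EJ J (0 : (κ → S) → ℝ) z = 0 := by
      unfold EJ
      simp only [Pi.zero_apply]
      exact av_zero
    rw [this, mul_zero]
  | add f g _ _ hf hg =>
    have h1 : ∀ J : Finset κ, EJ J (f + g) z = EJ J f z + EJ J g z := by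
      intro J
      unfold EJ
      rw [← av_add]
      rfl
    simp only [h1, mul_add, Finset.sum_add_distrib]
    rw [hf, hg, add_zero]
  | smul c f _ hf =>
    have h1 : ∀ J : Finset κ, EJ J (c • f) z = c * EJ J f z := by
      intro J
      unfold EJ
      rw [← av_mul_left]
      rfl
    simp only [h1]
    rw [Finset.sum_congr rfl fun J _ => show (-1 : ℝ) ^ J.card * (c * EJ J f z)
      = c * ((-1 : ℝ) ^ J.card * EJ J f z) by ring, ← Finset.mul_sum, hf, mul_zero]

/-- A decomposition of `g` into functions `G b` which do not depend on the coordinate `b`. -/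
structure IsDec (g : (κ → S) → ℝ) (G : κ → (κ → S) → ℝ) : Prop where
  indep : ∀ b z s, G b (update z b s) = G b z
  sum : ∀ z, ∑ b, G b z = g z

end EJ

variable {κ S F B : Type} [Fintype κ] [LinearOrder κ] [Fintype S] [Nonempty S] [Field F]
  [Fintype F] [DecidableEq F] [Fintype B] [Nonempty B] {e : κ → κ → S → S → F} {P : S → B}
  {D : (κ → B) → F} {θ : ℝ}

theorem os_mono {Λ : ℝ} (hΛ : 0 ≤ Λ) {Y Y' : Finset κ} (h : Y ⊆ Y') (z : κ → S) :
    os e Λ Y z ≤ os e Λ Y' z := by
  unfold os
  have h1 : pp e om Y z ≤ pp e om Y' z := by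
    unfold pp
    rw [← Finset.prod_sdiff (pairs_mono h)]
    have h2 : 1 ≤ ∏ p ∈ pairs Y' \ pairs Y, om (e p.1 p.2 (z p.1) (z p.2)) := by
      calc (1 : ℝ) = ∏ _p ∈ pairs Y' \ pairs Y, (1 : ℝ) := by rw [Finset.prod_const_one]
        _ ≤ _ := Finset.prod_le_prod (fun _ _ => zero_le_one) fun _ _ => one_le_om _
    have h3 := (pp_om_pos (e := e) Y z).le
    unfold pp at h3
    nlinarith
  have h2 : Λ * cnt e Y z ≤ Λ * cnt e Y' z := mul_le_mul_of_nonneg_left (cnt_mono h z) hΛ
  exact mul_le_mul h1 (by linarith) (by linarith [mul_nonneg hΛ (cnt_nonneg (e := e) Y z)])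
    (pp_om_pos Y' z).le

/-- The sum of the majorants. -/
noncomputable def MM (e : κ → κ → S → S → F) (Λ : ℝ) (z : κ → S) : ℝ :=
  ∑ b, os e Λ (univ.erase b) z

theorem os_le_MM {Λ : ℝ} (hΛ : 0 ≤ Λ) (b : κ) (z : κ → S) :
    os e Λ (univ.erase b) z ≤ MM e Λ z :=
  Finset.single_le_sum (f := fun b => os e Λ (univ.erase b) z)
    (fun c _ => os_nonneg hΛ (univ.erase c) z) (mem_univ b)

/-- The projection to the functions of the coordinates in `J` in the weighted norm. -/
theorem EJ_os_le {Λ : ℝ} (hΛ : 0 ≤ Λ) (J : Finset κ) (g : (κ → S) → ℝ) :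
    av (fun z => os e Λ J z * EJ J g z ^ 2) ≤ av fun z => os e Λ J z * g z ^ 2 := by
  rw [← av_piecewise J (fun z => os e Λ J z * g z ^ 2)]
  refine av_mono fun z => ?_
  have h1 : ∀ z', os e Λ J (J.piecewise z z') = os e Λ J z := by
    intro z'
    refine os_congr Λ fun v hv => ?_
    simp [hv]
  simp only [h1]
  rw [av_mul_left]
  refine mul_le_mul_of_nonneg_left ?_ (os_nonneg hΛ _ _)
  exact av_sq_le _

/-- There is a decomposition with bounded norm. -/
theorem Gad.exists_dec (hG : Gad e P D θ) {Λ : ℝ} (hΛ : 0 ≤ Λ) (hΛq : Λ ≤ Fintype.card F)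
    (hκ : 0 < Fintype.card κ) (g : (κ → S) → ℝ) (hg : g ∈ degLE κ S (Fintype.card κ - 1)) :
    ∃ G : κ → (κ → S) → ℝ, IsDec g G ∧ ∀ b,
      av (fun z => os e Λ (univ.erase b) z * G b z ^ 2)
        ≤ 4 ^ Fintype.card κ * CE κ ^ Fintype.card κ * av fun z => MM e Λ z * g z ^ 2 := by
  classical
  have hne : Nonempty κ := Fintype.card_pos_iff.1 hκ
  have hβ : ∀ J : Finset κ, ∃ b, J ≠ univ → b ∉ J := by
    intro J
    by_cases hJ : J = univ
    · obtain ⟨b⟩ := hne
      exact ⟨b, fun h => absurd hJ h⟩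
    · have : ∃ b, b ∉ J := by
        by_contra hcon
        push Not at hcon
        exact hJ (Finset.eq_univ_iff_forall.2 hcon)
      obtain ⟨b, hb⟩ := this
      exact ⟨b, fun _ => hb⟩
  choose β hβ using hβ
  set T : Finset (Finset κ) := (univ : Finset κ).powerset.erase univ with hT
  have hTne : ∀ J ∈ T, β J ∉ J := fun J hJ => hβ J (Finset.ne_of_mem_erase hJ)
  set sg : Finset κ → ℝ := fun J => - (-1) ^ Fintype.card κ * (-1) ^ J.card with hsg
  have hsg2 : ∀ J, sg J ^ 2 = 1 := by
    intro J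
    rw [hsg]
    simp only
    rw [mul_pow, neg_sq, ← pow_mul, ← pow_mul, mul_comm _ 2, mul_comm _ 2, pow_mul, pow_mul]
    norm_num
  refine ⟨fun b z => ∑ J ∈ T.filter (fun J => β J = b), sg J * EJ J g z, ⟨?_, ?_⟩, ?_⟩
  · intro b z s
    refine Finset.sum_congr rfl fun J hJ => ?_
    rw [Finset.mem_filter] at hJ
    have hb : b ∉ J := by rw [← hJ.2]; exact hTne J hJ.1
    rw [EJ_congr J g (upd_ne hb z s)]
  · intro z
    rw [Finset.sum_fiberwise (s := T) (g := β) (f := fun J => sg J * EJ J g z)]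
    have h1 := EJ_alt g hg hκ z
    rw [← Finset.add_sum_erase _ _ (Finset.mem_powerset.2 (Finset.Subset.refl univ)), ← hT,
      EJ_univ, Finset.card_univ] at h1
    have h2 : ∑ J ∈ T, sg J * EJ J g z
        = - (-1) ^ Fintype.card κ * ∑ J ∈ T, (-1 : ℝ) ^ J.card * EJ J g z := by
      rw [Finset.mul_sum]
      refine Finset.sum_congr rfl fun J _ => ?_
      rw [hsg]; ring
    have h3 : ∑ J ∈ T, (-1 : ℝ) ^ J.card * EJ J g z = - ((-1) ^ Fintype.card κ * g z) := by
      linarith
    rw [h2, h3]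
    have h4 : ((-1 : ℝ) ^ Fintype.card κ) * (-1) ^ Fintype.card κ = 1 := by
      rw [← mul_pow]; norm_num
    calc -(-1 : ℝ) ^ Fintype.card κ * -((-1) ^ Fintype.card κ * g z)
        = ((-1 : ℝ) ^ Fintype.card κ) * (-1) ^ Fintype.card κ * g z := by ring
      _ = g z := by rw [h4, one_mul]
  · intro b
    set Tb : Finset (Finset κ) := T.filter (fun J => β J = b) with hTb
    have hcard : (Tb.card : ℝ) ≤ 2 ^ Fintype.card κ := by
      have h1 : Tb.card ≤ (univ : Finset κ).powerset.card :=
        Finset.card_le_card ((Finset.filter_subset _ _).trans (Finset.erase_subset _ _))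
      rw [Finset.card_powerset, Finset.card_univ] at h1
      exact_mod_cast h1
    set Γ : ℝ := av fun z => MM e Λ z * g z ^ 2 with hΓ
    have hΓ0 : 0 ≤ Γ := av_nonneg fun z => mul_nonneg
      (Finset.sum_nonneg fun c _ => os_nonneg hΛ _ _) (sq_nonneg _)
    have hJb : ∀ J ∈ Tb, av (fun z => os e Λ (univ.erase b) z * EJ J g z ^ 2)
        ≤ CE κ ^ Fintype.card κ * Γ := by
      intro J hJ
      rw [hTb, Finset.mem_filter] at hJ
      have hb : b ∉ J := by rw [← hJ.2]; exact hTne J hJ.1
      have hJsub : J ⊆ univ.erase b := fun v hv =>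
        Finset.mem_erase.2 ⟨fun h => hb (h ▸ hv), mem_univ v⟩
      refine (hG.peel' hΛ hΛq hJsub ⟨b, Finset.notMem_erase b univ⟩ _ (fun z => sq_nonneg _)
        (fun z z' h => by rw [EJ_congr J g h])).trans ?_
      refine mul_le_mul_of_nonneg_left ?_ (pow_nonneg (zero_le_one.trans CE_pos) _)
      refine (EJ_os_le hΛ J g).trans ?_
      refine av_mono fun z => mul_le_mul_of_nonneg_right ?_ (sq_nonneg _)
      exact (os_mono hΛ hJsub z).trans (os_le_MM hΛ b z)
    have hpt : ∀ z, os e Λ (univ.erase b) z * (∑ J ∈ Tb, sg J * EJ J g z) ^ 2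
        ≤ 2 ^ Fintype.card κ * ∑ J ∈ Tb, os e Λ (univ.erase b) z * EJ J g z ^ 2 := by
      intro z
      have h1 := sq_sum_le_card_mul_sum_sq (s := Tb) (f := fun J => sg J * EJ J g z)
      have h2 : ∑ J ∈ Tb, (sg J * EJ J g z) ^ 2 = ∑ J ∈ Tb, EJ J g z ^ 2 := by
        refine Finset.sum_congr rfl fun J _ => ?_
        rw [mul_pow, hsg2, one_mul]
      rw [h2] at h1
      have h3 : 0 ≤ ∑ J ∈ Tb, EJ J g z ^ 2 := Finset.sum_nonneg fun _ _ => sq_nonneg _
      have h4 := h1.trans (mul_le_mul_of_nonneg_right hcard h3)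
      rw [← Finset.mul_sum]
      have h5 := mul_le_mul_of_nonneg_left h4 (os_nonneg hΛ (e := e) (univ.erase b) z)
      linarith
    refine (av_mono hpt).trans ?_
    rw [av_mul_left, av_finset_sum]
    have h1 := Finset.sum_le_sum hJb
    rw [Finset.sum_const, nsmul_eq_mul] at h1
    have h2 : 0 ≤ CE κ ^ Fintype.card κ * Γ :=
      mul_nonneg (pow_nonneg (zero_le_one.trans CE_pos) _) hΓ0
    have h3 := h1.trans (mul_le_mul_of_nonneg_right hcard h2)
    have h4 : (4 : ℝ) ^ Fintype.card κ = 2 ^ Fintype.card κ * 2 ^ Fintype.card κ := by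
      rw [← mul_pow]; norm_num
    rw [h4]
    have h5 := mul_le_mul_of_nonneg_left h3 (show (0 : ℝ) ≤ 2 ^ Fintype.card κ by positivity)
    linarith

end Pool.Agent.Lib.SDF3
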