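import Pool.Agent.Lib.SDF.Base

/-!
The interface of the gadget for the pseudo-density of degree `k - 1` for `k`-clique, and basic
facts on averages.
-/

set_option autoImplicit false

namespace Pool.Agent.Lib.SDF3

open Finset Function
open Pool.Agent.Lib.SDF (av av_add av_sub av_neg av_mul_left av_mul_right av_zero av_const av_mono
  av_nonneg av_finset_sum av_comm abs_av_le av_congr sum_eq_card_mul_av)

/-- The pairs of elements of `Y`. -/
def pairs {κ : Type} [LinearOrder κ] (Y : Finset κ) : Finset (κ × κ) :=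
  (Y ×ˢ Y).filter fun p => p.1 < p.2

/-- The interface of the gadget. -/
structure Gad {κ S F B : Type} [Fintype κ] [LinearOrder κ] [Fintype S] [Field F] [Fintype F]
    [DecidableEq F] [Fintype B] (e : κ → κ → S → S → F) (P : S → B) (D : (κ → B) → F)
    (θ : ℝ) : Prop where
  symm : ∀ v w s t, e v w s t = e w v t s
  sum : ∀ z : κ → S, ∑ p ∈ pairs univ, e p.1 p.2 (z p.1) (z p.2) = D fun v => P (z v)
  ne : ∀ y, D y ≠ 0
  inv : ∀ a b, a ≠ b → ∀ z : κ → S, ∃ f : B → (κ → F) → S, (∀ x w, P (f x w) = x) ∧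
    (∀ x w c, c ≠ a → c ≠ b → e a c (f x w) (z c) = w c) ∧
    ∀ G : S → ℝ, av G = av fun x => av fun w => G (f x w)
  row : ∀ a y r, r ≠ 0 →
    |av fun x => (if D (update y a x) = r then (Fintype.card F : ℝ) else 0) - 1| ≤ θ
  bil : ∀ a b, a ≠ b → ∀ y r, r ≠ 0 → ∀ f g : B → ℝ,
    |av fun x => av fun x' => ((if D (update (update y a x) b x') = r then
      (Fintype.card F : ℝ) else 0) - 1) * (f x * g x')|
      ≤ θ / 2 * (av (fun x => f x ^ 2) + av (fun x => g x ^ 2))

section av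
variable {X Y : Type*} [Fintype X] [Fintype Y]

/-- Resampling one coordinate. -/
theorem av_resample {ι X : Type*} [Fintype ι] [DecidableEq ι] [Fintype X] [Nonempty X] (i : ι)
    (G : (ι → X) → ℝ) : av (fun z => av fun s => G (update z i s)) = av G := by
  have hX : (Fintype.card X : ℝ) ≠ 0 := by exact_mod_cast Fintype.card_ne_zero
  have hinv : Function.Involutive (fun p : (ι → X) × X => (update p.1 i p.2, p.1 i)) := by
    rintro ⟨z, s⟩
    simp
  have h1 : ∑ z : ι → X, ∑ s : X, G (update z i s) = ∑ z : ι → X, ∑ _s : X, G z := by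
    have h2 := Equiv.sum_comp (hinv.toPerm) (fun p : (ι → X) × X => G p.1)
    rw [← Finset.univ_product_univ, Finset.sum_product, Finset.sum_product] at h2
    exact h2
  simp only [av]
  rw [← Finset.sum_div, h1]
  simp only [Finset.sum_const, Finset.card_univ, nsmul_eq_mul]
  rw [← Finset.mul_sum]
  field_simp

/-- Resampling the coordinates outside `J`. -/
theorem av_piecewise {ι X : Type*} [Fintype ι] [DecidableEq ι] [Fintype X] [Nonempty X]
    (J : Finset ι) (G : (ι → X) → ℝ) :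
    av (fun z => av fun z' => G (J.piecewise z z')) = av G := by
  have hX : (Fintype.card (ι → X) : ℝ) ≠ 0 := by exact_mod_cast Fintype.card_ne_zero
  have hinv : Function.Involutive (fun p : (ι → X) × (ι → X) =>
      (J.piecewise p.1 p.2, J.piecewise p.2 p.1)) := by
    rintro ⟨z, s⟩
    refine Prod.ext ?_ ?_ <;> funext j <;> by_cases hj : j ∈ J <;> simp [hj]
  have h1 : ∑ z : ι → X, ∑ s : ι → X, G (J.piecewise z s)
      = ∑ z : ι → X, ∑ _s : ι → X, G z := by
    have h2 := Equiv.sum_comp (hinv.toPerm) (fun p : (ι → X) × (ι → X) => G p.1)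
    rw [← Finset.univ_product_univ, Finset.sum_product, Finset.sum_product] at h2
    exact h2
  simp only [av]
  rw [← Finset.sum_div, h1]
  simp only [Finset.sum_const, Finset.card_univ, nsmul_eq_mul]
  rw [← Finset.mul_sum]
  field_simp

/-- Cauchy–Schwarz with a weight. -/
theorem av_cs (α f : X → ℝ) (hα : ∀ x, 0 ≤ α x) :
    (av fun x => α x * f x) ^ 2 ≤ (av α) * av fun x => α x * f x ^ 2 := by
  unfold av
  rw [div_pow, div_mul_div_comm, ← pow_two]
  refine div_le_div_of_nonneg_right ?_ (by positivity)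
  have h := Finset.sum_sq_le_sum_mul_sum_of_sq_le_mul univ (r := fun x => α x * f x) (f := α)
    (g := fun x => α x * f x ^ 2) (fun x _ => hα x)
    (fun x _ => mul_nonneg (hα x) (sq_nonneg _)) (fun x _ => le_of_eq (by ring))
  exact h

theorem av_sq_le [Nonempty X] (f : X → ℝ) : (av f) ^ 2 ≤ av fun x => f x ^ 2 := by
  have h := av_cs (fun _ => (1 : ℝ)) f (fun _ => zero_le_one)
  rw [av_const, one_mul] at h
  simpa using h

theorem av_bij {X Y : Type*} [Fintype X] [Fintype Y] (φ : X → Y) (hφ : Function.Bijective φ)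
    (G : Y → ℝ) : av (fun x => G (φ x)) = av G := by
  unfold av
  rw [Fintype.sum_bijective φ hφ (fun x => G (φ x)) G (fun _ => rfl),
    Fintype.card_of_bijective hφ]

end av

section pairs
variable {κ : Type} [LinearOrder κ]

theorem mem_pairs {Y : Finset κ} {p : κ × κ} :
    p ∈ pairs Y ↔ p.1 ∈ Y ∧ p.2 ∈ Y ∧ p.1 < p.2 := by
  simp [pairs, and_assoc]

theorem pairs_empty : pairs (∅ : Finset κ) = ∅ := by
  simp [pairs]

theorem pairs_mono {Y Y' : Finset κ} (h : Y ⊆ Y') : pairs Y ⊆ pairs Y' := by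
  intro p hp
  rw [mem_pairs] at hp ⊢
  exact ⟨h hp.1, h hp.2.1, hp.2.2⟩

theorem pairs_insert {Y : Finset κ} {v : κ} (hv : v ∉ Y) :
    pairs (insert v Y) = pairs Y ∪ Y.image (fun c => if v < c then (v, c) else (c, v)) := by
  ext ⟨a, b⟩
  simp only [mem_pairs, mem_union, mem_image, mem_insert]
  constructor
  · rintro ⟨ha, hb, hab⟩
    rcases ha with rfl | ha
    · rcases hb with rfl | hb
      · exact absurd hab (lt_irrefl _)
      · exact Or.inr ⟨b, hb, by rw [if_pos hab]⟩
    · rcases hb with rfl | hb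
      · refine Or.inr ⟨a, ha, ?_⟩
        rw [if_neg (not_lt.2 hab.le)]
      · exact Or.inl ⟨ha, hb, hab⟩
  · rintro (⟨ha, hb, hab⟩ | ⟨c, hc, h⟩)
    · exact ⟨Or.inr ha, Or.inr hb, hab⟩
    · have hne : v ≠ c := fun h => hv (h ▸ hc)
      split_ifs at h with hvc
      · obtain ⟨rfl, rfl⟩ := Prod.mk.inj h
        exact ⟨Or.inl rfl, Or.inr hc, hvc⟩
      · obtain ⟨rfl, rfl⟩ := Prod.mk.inj h
        exact ⟨Or.inr hc, Or.inl rfl, lt_of_le_of_ne (not_lt.1 hvc) hne.symm⟩

theorem prod_pairs_insert {M : Type*} [CommMonoid M] (f : κ → κ → M)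
    (hf : ∀ v w, f v w = f w v) {Y : Finset κ} {v : κ} (hv : v ∉ Y) :
    ∏ p ∈ pairs (insert v Y), f p.1 p.2 = (∏ p ∈ pairs Y, f p.1 p.2) * ∏ c ∈ Y, f v c := by
  rw [pairs_insert hv, Finset.prod_union, Finset.prod_image]
  · congr 1
    refine Finset.prod_congr rfl fun c _ => ?_
    split_ifs
    · rfl
    · exact hf _ _
  · intro c hc c' hc' h
    have hne : v ≠ c := fun h => hv (h ▸ hc)
    have hne' : v ≠ c' := fun h => hv (h ▸ hc')
    simp only at h
    split_ifs at h
    · exact (Prod.mk.inj h).2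
    · exact absurd (Prod.mk.inj h).1 hne'
    · exact absurd (Prod.mk.inj h).1.symm hne
    · exact (Prod.mk.inj h).1
  · rw [Finset.disjoint_left]
    rintro ⟨a, b⟩ hab h
    rw [mem_pairs] at hab
    rw [mem_image] at h
    obtain ⟨c, hc, h⟩ := h
    split_ifs at h
    · obtain ⟨rfl, rfl⟩ := Prod.mk.inj h
      exact hv hab.1
    · obtain ⟨rfl, rfl⟩ := Prod.mk.inj h
      exact hv hab.2.1

theorem sum_pairs_insert {M : Type*} [AddCommMonoid M] (f : κ → κ → M)
    (hf : ∀ v w, f v w = f w v) {Y : Finset κ} {v : κ} (hv : v ∉ Y) :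
    ∑ p ∈ pairs (insert v Y), f p.1 p.2 = (∑ p ∈ pairs Y, f p.1 p.2) + ∑ c ∈ Y, f v c := by
  rw [pairs_insert hv, Finset.sum_union, Finset.sum_image]
  · congr 1
    refine Finset.sum_congr rfl fun c _ => ?_
    split_ifs
    · rfl
    · exact hf _ _
  · intro c hc c' hc' h
    have hne : v ≠ c := fun h => hv (h ▸ hc)
    have hne' : v ≠ c' := fun h => hv (h ▸ hc')
    simp only at h
    split_ifs at h
    · exact (Prod.mk.inj h).2
    · exact absurd (Prod.mk.inj h).1 hne'
    · exact absurd (Prod.mk.inj h).1.symm hne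
    · exact (Prod.mk.inj h).1
  · rw [Finset.disjoint_left]
    rintro ⟨a, b⟩ hab h
    rw [mem_pairs] at hab
    rw [mem_image] at h
    obtain ⟨c, hc, h⟩ := h
    split_ifs at h
    · obtain ⟨rfl, rfl⟩ := Prod.mk.inj h
      exact hv hab.1
    · obtain ⟨rfl, rfl⟩ := Prod.mk.inj h
      exact hv hab.2.1

theorem forall_pairs_insert (p : κ → κ → Prop) (hp : ∀ v w, p v w ↔ p w v) {Y : Finset κ}
    {v : κ} (hv : v ∉ Y) :
    (∀ q ∈ pairs (insert v Y), p q.1 q.2) ↔ (∀ q ∈ pairs Y, p q.1 q.2) ∧ ∀ c ∈ Y, p v c := by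
  constructor
  · intro h
    refine ⟨fun q hq => h q (pairs_mono (subset_insert _ _) hq), fun c hc => ?_⟩
    have hne : v ≠ c := fun h => hv (h ▸ hc)
    rcases lt_or_gt_of_ne hne with h1 | h1
    · exact h (v, c) (mem_pairs.2 ⟨mem_insert_self _ _, mem_insert_of_mem hc, h1⟩)
    · exact (hp _ _).1 (h (c, v) (mem_pairs.2 ⟨mem_insert_of_mem hc, mem_insert_self _ _, h1⟩))
  · rintro ⟨h1, h2⟩ ⟨a, b⟩ hq
    rw [pairs_insert hv, mem_union, mem_image] at hq
    rcases hq with hq | ⟨c, hc, h⟩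
    · exact h1 _ hq
    · split_ifs at h
      · rw [← h]
        exact h2 c hc
      · rw [← h]
        exact (hp _ _).1 (h2 c hc)

end pairs

end Pool.Agent.Lib.SDF3
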