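import Pool.Agent.Lib.SDF3.Wts

/-!
The densities of a pattern `z : κ → S`: products over the pairs of a vertex set.
-/

set_option autoImplicit false

namespace Pool.Agent.Lib.SDF3

open Finset Function
open Pool.Agent.Lib.SDF (av av_add av_sub av_neg av_mul_left av_mul_right av_zero av_const av_mono
  av_nonneg av_finset_sum av_comm abs_av_le av_congr sum_eq_card_mul_av)

variable {κ S F : Type} [Fintype κ] [LinearOrder κ] [Field F] [Fintype F]
  [DecidableEq F] (e : κ → κ → S → S → F)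

/-- The product of `φ (e v w)` over the pairs of `Y`. -/
noncomputable def pp (φ : F → ℝ) (Y : Finset κ) (z : κ → S) : ℝ :=
  ∏ p ∈ pairs Y, φ (e p.1 p.2 (z p.1) (z p.2))

/-- The product of `φ (e v c)` over the `c ∈ Y`, where `s` is the type of `v`. -/
noncomputable def st (φ : F → ℝ) (v : κ) (Y : Finset κ) (z : κ → S) (s : S) : ℝ :=
  ∏ c ∈ Y, φ (e v c s (z c))

/-- The sum of `e v w` over the pairs of `Y`. -/
def rr (Y : Finset κ) (z : κ → S) : F :=
  ∑ p ∈ pairs Y, e p.1 p.2 (z p.1) (z p.2)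

/-- All pairs of `Y` are edges. -/
def Cl (Y : Finset κ) (z : κ → S) : Prop :=
  ∀ p ∈ pairs Y, e p.1 p.2 (z p.1) (z p.2) = 0

/-- The sum vanishes, but `Y` is not a clique. -/
def Bad (Y : Finset κ) (z : κ → S) : Prop := rr e Y z = 0 ∧ ¬ Cl e Y z

open Classical in
/-- The number of bad subsets. -/
noncomputable def cnt (Y : Finset κ) (z : κ → S) : ℝ :=
  ∑ Y' ∈ Y.powerset, if Bad e Y' z then (1 : ℝ) else 0

/-- The majorant. -/
noncomputable def os (Λ : ℝ) (Y : Finset κ) (z : κ → S) : ℝ :=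
  pp e om Y z * (1 + Λ * cnt e Y z)

section dep
variable {e}

theorem pp_congr (φ : F → ℝ) {Y : Finset κ} {z z' : κ → S} (h : ∀ v ∈ Y, z v = z' v) :
    pp e φ Y z = pp e φ Y z' := by
  unfold pp
  refine Finset.prod_congr rfl fun p hp => ?_
  rw [mem_pairs] at hp
  rw [h _ hp.1, h _ hp.2.1]

theorem st_congr (φ : F → ℝ) (v : κ) {Y : Finset κ} {z z' : κ → S} (h : ∀ v ∈ Y, z v = z' v)
    (s : S) : st e φ v Y z s = st e φ v Y z' s := by
  unfold st
  refine Finset.prod_congr rfl fun c hc => ?_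
  rw [h _ hc]

theorem rr_congr {Y : Finset κ} {z z' : κ → S} (h : ∀ v ∈ Y, z v = z' v) :
    rr e Y z = rr e Y z' := by
  unfold rr
  refine Finset.sum_congr rfl fun p hp => ?_
  rw [mem_pairs] at hp
  rw [h _ hp.1, h _ hp.2.1]

theorem cl_congr {Y : Finset κ} {z z' : κ → S} (h : ∀ v ∈ Y, z v = z' v) :
    Cl e Y z ↔ Cl e Y z' := by
  unfold Cl
  refine forall₂_congr fun p hp => ?_
  rw [mem_pairs] at hp
  rw [h _ hp.1, h _ hp.2.1]

theorem bad_congr {Y : Finset κ} {z z' : κ → S} (h : ∀ v ∈ Y, z v = z' v) :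
    Bad e Y z ↔ Bad e Y z' := by
  unfold Bad
  rw [rr_congr h, cl_congr h]

theorem cnt_congr {Y : Finset κ} {z z' : κ → S} (h : ∀ v ∈ Y, z v = z' v) :
    cnt e Y z = cnt e Y z' := by
  classical
  unfold cnt
  refine Finset.sum_congr rfl fun Y' hY' => ?_
  exact if_congr (bad_congr fun v hv => h v (Finset.mem_powerset.1 hY' hv)) rfl rfl

theorem os_congr (Λ : ℝ) {Y : Finset κ} {z z' : κ → S} (h : ∀ v ∈ Y, z v = z' v) :
    os e Λ Y z = os e Λ Y z' := by
  unfold os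
  rw [pp_congr _ h, cnt_congr h]

theorem upd_ne {Y : Finset κ} {v : κ} (hv : v ∉ Y) (z : κ → S) (s : S) :
    ∀ c ∈ Y, update z v s c = z c := by
  intro c hc
  rw [update_of_ne]
  rintro rfl
  exact hv hc

theorem pp_nonneg (φ : F → ℝ) (hφ : ∀ x, 0 ≤ φ x) (Y : Finset κ) (z : κ → S) :
    0 ≤ pp e φ Y z := Finset.prod_nonneg fun _ _ => hφ _

theorem one_le_pp_om (Y : Finset κ) (z : κ → S) : 1 ≤ pp e om Y z := by
  unfold pp
  calc (1 : ℝ) = ∏ _p ∈ pairs Y, (1 : ℝ) := by rw [Finset.prod_const_one]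
    _ ≤ _ := Finset.prod_le_prod (fun _ _ => zero_le_one) fun _ _ => one_le_om _

theorem pp_om_pos (Y : Finset κ) (z : κ → S) : 0 < pp e om Y z :=
  lt_of_lt_of_le one_pos (one_le_pp_om Y z)

theorem pp_dl_le (Y : Finset κ) (z : κ → S) : pp e dl Y z ≤ pp e om Y z :=
  Finset.prod_le_prod (fun _ _ => dl_nonneg _) fun _ _ => dl_le_om _

theorem abs_pp_ps_le (Y : Finset κ) (z : κ → S) : |pp e ps Y z| ≤ pp e om Y z := by
  unfold pp
  rw [Finset.abs_prod]
  exact Finset.prod_le_prod (fun _ _ => abs_nonneg _) fun _ _ => abs_ps_le _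

theorem cnt_nonneg (Y : Finset κ) (z : κ → S) : 0 ≤ cnt e Y z := by
  unfold cnt
  refine Finset.sum_nonneg fun _ _ => ?_
  split_ifs <;> norm_num

theorem cnt_mono {Y Y' : Finset κ} (h : Y ⊆ Y') (z : κ → S) : cnt e Y z ≤ cnt e Y' z := by
  unfold cnt
  refine Finset.sum_le_sum_of_subset_of_nonneg (Finset.powerset_mono.2 h) fun _ _ _ => ?_
  split_ifs <;> norm_num

theorem one_le_cnt {Y : Finset κ} {z : κ → S} (h : Bad e Y z) : 1 ≤ cnt e Y z := by
  classical
  unfold cnt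
  have h1 : (if Bad e Y z then (1 : ℝ) else 0)
      ≤ ∑ Y' ∈ Y.powerset, if Bad e Y' z then (1 : ℝ) else 0 :=
    Finset.single_le_sum (f := fun Y' => if Bad e Y' z then (1 : ℝ) else 0)
      (fun _ _ => by split_ifs <;> norm_num) (Finset.mem_powerset.2 (Finset.Subset.refl Y))
  rwa [if_pos h] at h1

theorem cl_subset {Y Y' : Finset κ} (h : Y ⊆ Y') {z : κ → S} (hc : Cl e Y' z) : Cl e Y z :=
  fun p hp => hc p (pairs_mono h hp)

theorem rr_of_cl {Y : Finset κ} {z : κ → S} (hc : Cl e Y z) : rr e Y z = 0 :=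
  Finset.sum_eq_zero hc

theorem cnt_of_cl {Y : Finset κ} {z : κ → S} (hc : Cl e Y z) : cnt e Y z = 0 := by
  unfold cnt
  refine Finset.sum_eq_zero fun Y' hY' => ?_
  rw [if_neg]
  exact fun h => h.2 (cl_subset (Finset.mem_powerset.1 hY') hc)

theorem pp_of_cl (φ : F → ℝ) {Y : Finset κ} {z : κ → S} (hc : Cl e Y z) :
    pp e φ Y z = φ 0 ^ (pairs Y).card := by
  unfold pp
  rw [Finset.prod_congr rfl fun p hp => by rw [hc p hp], Finset.prod_const]

theorem dl_zero : dl (0 : F) = Fintype.card F := by simp [dl]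
theorem om_zero : om (0 : F) = Fintype.card F := by simp [om]
theorem ps_zero : ps (0 : F) = Fintype.card F - 1 := by simp [ps, dl]

theorem pp_dl_of_cl {Y : Finset κ} {z : κ → S} (hc : Cl e Y z) :
    pp e dl Y z = pp e om Y z := by
  rw [pp_of_cl _ hc, pp_of_cl _ hc, dl_zero, om_zero]

theorem pp_dl_of_not_cl {Y : Finset κ} {z : κ → S} (hc : ¬ Cl e Y z) : pp e dl Y z = 0 := by
  unfold Cl at hc
  push Not at hc
  obtain ⟨p, hp, h⟩ := hc
  refine Finset.prod_eq_zero hp ?_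
  simp [dl, h]

theorem os_of_cl (Λ : ℝ) {Y : Finset κ} {z : κ → S} (hc : Cl e Y z) :
    os e Λ Y z = pp e dl Y z := by
  unfold os
  rw [cnt_of_cl hc, pp_dl_of_cl hc]; ring

variable {Λ : ℝ} (hΛ : 0 ≤ Λ)
include hΛ

theorem om_le_os (Y : Finset κ) (z : κ → S) : pp e om Y z ≤ os e Λ Y z := by
  unfold os
  have h1 := pp_om_pos (e := e) Y z
  have h2 := mul_nonneg hΛ (cnt_nonneg (e := e) Y z)
  nlinarith

theorem one_le_os (Y : Finset κ) (z : κ → S) : 1 ≤ os e Λ Y z :=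
  (one_le_pp_om Y z).trans (om_le_os hΛ Y z)

theorem os_nonneg (Y : Finset κ) (z : κ → S) : 0 ≤ os e Λ Y z :=
  zero_le_one.trans (one_le_os hΛ Y z)

theorem os_of_bad {Y : Finset κ} {z : κ → S} (h : Bad e Y z) :
    Λ * pp e om Y z ≤ os e Λ Y z := by
  unfold os
  have h1 := pp_om_pos (e := e) Y z
  have h2 := mul_le_mul_of_nonneg_left (one_le_cnt h) hΛ
  nlinarith

end dep

section ins
variable {e} (hsymm : ∀ v w s t, e v w s t = e w v t s)
include hsymm

theorem pp_insert (φ : F → ℝ) {Y : Finset κ} {v : κ} (hv : v ∉ Y) (z : κ → S) :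
    pp e φ (insert v Y) z = pp e φ Y z * st e φ v Y z (z v) := by
  unfold pp st
  exact prod_pairs_insert (fun a b => φ (e a b (z a) (z b)))
    (fun a b => by rw [hsymm]) hv

theorem pp_insert_upd (φ : F → ℝ) {Y : Finset κ} {v : κ} (hv : v ∉ Y) (z : κ → S) (s : S) :
    pp e φ (insert v Y) (update z v s) = pp e φ Y z * st e φ v Y z s := by
  rw [pp_insert hsymm φ hv, pp_congr φ (upd_ne hv z s), st_congr φ v (upd_ne hv z s),
    update_self]

theorem rr_insert {Y : Finset κ} {v : κ} (hv : v ∉ Y) (z : κ → S) :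
    rr e (insert v Y) z = rr e Y z + ∑ c ∈ Y, e v c (z v) (z c) := by
  unfold rr
  exact sum_pairs_insert (fun a b => e a b (z a) (z b)) (fun a b => by rw [hsymm]) hv

theorem rr_insert_upd {Y : Finset κ} {v : κ} (hv : v ∉ Y) (z : κ → S) (s : S) :
    rr e (insert v Y) (update z v s) = rr e Y z + ∑ c ∈ Y, e v c s (z c) := by
  rw [rr_insert hsymm hv, rr_congr (upd_ne hv z s), update_self]
  congr 1
  exact Finset.sum_congr rfl fun c hc => by rw [upd_ne hv z s c hc]

theorem cl_insert_upd {Y : Finset κ} {v : κ} (hv : v ∉ Y) (z : κ → S) (s : S) :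
    Cl e (insert v Y) (update z v s) ↔ Cl e Y z ∧ ∀ c ∈ Y, e v c s (z c) = 0 := by
  unfold Cl
  rw [forall_pairs_insert (fun a b => e a b (update z v s a) (update z v s b) = 0)
    (fun a b => by rw [hsymm]) hv]
  refine and_congr (cl_congr (upd_ne hv z s)) ?_
  refine forall₂_congr fun c hc => ?_
  rw [update_self, upd_ne hv z s c hc]

theorem bad_insert_upd {Y : Finset κ} {v : κ} (hv : v ∉ Y) (z : κ → S) (s : S)
    (h : Bad e (insert v Y) (update z v s)) (h0 : ¬ Bad e Y z) :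
    ∑ c ∈ Y, e v c s (z c) = - rr e Y z ∧ ∃ c ∈ Y, e v c s (z c) ≠ 0 := by
  obtain ⟨h1, h2⟩ := h
  rw [rr_insert_upd hsymm hv] at h1
  rw [cl_insert_upd hsymm hv] at h2
  refine ⟨(neg_eq_of_add_eq_zero_right h1).symm, ?_⟩
  by_contra hcon
  push Not at hcon
  rw [Finset.sum_eq_zero hcon, add_zero] at h1
  exact h0 ⟨h1, fun hc => h2 ⟨hc, hcon⟩⟩

theorem cnt_insert_upd {Y : Finset κ} {v : κ} (hv : v ∉ Y) (z : κ → S) (s : S) :
    cnt e (insert v Y) (update z v s) ≤ 2 * cnt e Y z + ∑ Y' ∈ Y.powerset,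
      if (∑ c ∈ Y', e v c s (z c) = - rr e Y' z ∧ ∃ c ∈ Y', e v c s (z c) ≠ 0)
        then (1 : ℝ) else 0 := by
  classical
  unfold cnt
  rw [Finset.sum_powerset_insert hv, two_mul, add_assoc]
  refine add_le_add (le_of_eq ?_) ?_
  · refine Finset.sum_congr rfl fun Y' hY' => ?_
    refine if_congr (bad_congr ?_) rfl rfl
    exact upd_ne (fun h => hv (Finset.mem_powerset.1 hY' h)) z s
  · rw [← Finset.sum_add_distrib]
    refine Finset.sum_le_sum fun Y' hY' => ?_
    have hv' : v ∉ Y' := fun h => hv (Finset.mem_powerset.1 hY' h)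
    by_cases hb : Bad e Y' z
    · rw [if_pos hb]
      split_ifs <;> norm_num
    · rw [if_neg hb, zero_add]
      by_cases hb' : Bad e (insert v Y') (update z v s)
      · rw [if_pos hb', if_pos (bad_insert_upd hsymm hv' z s hb' hb)]
      · rw [if_neg hb']
        split_ifs <;> norm_num

theorem os_insert_ge {Λ : ℝ} (hΛ : 0 ≤ Λ) {Y : Finset κ} {v : κ} (hv : v ∉ Y) (z : κ → S)
    (s : S) : os e Λ Y z * st e om v Y z s ≤ os e Λ (insert v Y) (update z v s) := by
  unfold os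
  rw [pp_insert_upd hsymm om hv]
  have h1 : cnt e Y z ≤ cnt e (insert v Y) (update z v s) := by
    rw [← cnt_congr (upd_ne hv z s)]
    exact cnt_mono (Finset.subset_insert _ _) _
  have h2 : 0 ≤ st e om v Y z s := Finset.prod_nonneg fun _ _ => (om_pos _).le
  have h3 := (pp_om_pos (e := e) Y z).le
  have h4 : Λ * cnt e Y z ≤ Λ * cnt e (insert v Y) (update z v s) :=
    mul_le_mul_of_nonneg_left h1 hΛ
  have h5 := mul_le_mul_of_nonneg_left h4 (mul_nonneg h3 h2)
  nlinarith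

end ins

end Pool.Agent.Lib.SDF3
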