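import Pool.Agent.Lib.SDF3.Avg

/-!
The average of the main part over one vertex.
-/

set_option autoImplicit false

namespace Pool.Agent.Lib.SDF3

open Finset Function
open Pool.Agent.Lib.SDF (av av_add av_sub av_neg av_mul_left av_mul_right av_zero av_const av_mono
  av_nonneg av_finset_sum av_comm abs_av_le av_congr sum_eq_card_mul_av)

variable {κ S F B : Type} [Fintype κ] [LinearOrder κ] [Fintype S] [Nonempty S] [Field F]
  [Fintype F] [DecidableEq F] [Fintype B] [Nonempty B] {e : κ → κ → S → S → F} {P : S → B}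
  {D : (κ → B) → F} {θ : ℝ} (hG : Gad e P D θ)

include hG

/-- The edge `b a` is determined by the rest. -/
theorem Gad.edge_one {a b : κ} (hab : a ≠ b) (z : κ → S) (s : S) :
    e b a s (z a) = D (update (fun v => P (z v)) b (P s)) - rr e (univ.erase b) z
      - ∑ c ∈ (univ.erase b).erase a, e b c s (z c) := by
  have h1 : rr e univ (update z b s) = D (update (fun v => P (z v)) b (P s)) := by
    have := hG.sum (update z b s)
    unfold rr
    rw [this]
    congr 1
    funext v
    by_cases hv : v = b
    · subst hv; simp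
    · simp [hv]
  have h2 : insert b (univ.erase b) = univ := Finset.insert_erase (mem_univ b)
  have h3 := rr_insert_upd hG.symm (Finset.notMem_erase b univ) z s
  rw [h2, h1, ← Finset.add_sum_erase (univ.erase b) _ (Finset.mem_erase.2 ⟨hab, mem_univ a⟩)]
    at h3
  rw [h3]
  ring

/-- The average over one vertex of the star of a vertex. -/
theorem Gad.av_star (hu : 3 ≤ Fintype.card κ) (b : κ) (z : κ → S) :
    av (fun s => st e ps b (univ.erase b) z s)
      = av fun x => (if D (update (fun v => P (z v)) b x) = rr e (univ.erase b) z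
        then (Fintype.card F : ℝ) else 0) - 1 := by
  have hcard : (univ.erase b).card = Fintype.card κ - 1 := by
    rw [Finset.card_erase_of_mem (mem_univ b), Finset.card_univ]
  obtain ⟨a, ha⟩ : ∃ a, a ∈ univ.erase b := by
    rw [← Finset.Nonempty, ← Finset.card_pos, hcard]; omega
  have hab : a ≠ b := Finset.ne_of_mem_erase ha
  have hZ : ((univ.erase b).erase a).Nonempty := by
    rw [← Finset.card_pos, Finset.card_erase_of_mem ha, hcard]; omega
  obtain ⟨f, h1, h2, h3⟩ := hG.inv b a hab.symm z
  rw [h3]
  refine av_congr fun x => ?_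
  have h4 : ∀ w, st e ps b (univ.erase b) z (f x w)
      = (∏ c ∈ (univ.erase b).erase a, ps (w c))
        * ps (D (update (fun v => P (z v)) b x) - rr e (univ.erase b) z
          - ∑ c ∈ (univ.erase b).erase a, w c) := by
    intro w
    unfold st
    rw [← Finset.mul_prod_erase _ _ ha, hG.edge_one hab, h1, mul_comm]
    have h5 : ∀ c ∈ (univ.erase b).erase a, e b c (f x w) (z c) = w c := by
      intro c hc
      refine h2 x w c ?_ ?_
      · exact Finset.ne_of_mem_erase (Finset.mem_of_mem_erase hc)
      · exact Finset.ne_of_mem_erase hc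
    rw [Finset.prod_congr rfl fun c hc => by rw [h5 c hc], Finset.sum_congr rfl h5]
  simp only [h4]
  rw [av_ps_sum _ hZ (fun t => ps (D (update (fun v => P (z v)) b x) - rr e (univ.erase b) z - t))]
  rw [av_bij (fun t : F => D (update (fun v => P (z v)) b x) - rr e (univ.erase b) z - t)
    (Equiv.subLeft _).bijective ps, av_ps, sub_zero, sub_zero]
  unfold ps dl
  simp only [sub_eq_zero]

theorem Gad.S3 (hu : 3 ≤ Fintype.card κ) (hθ : 0 ≤ θ) {Λ : ℝ} (hΛ : 0 < Λ) (b : κ)
    (z : κ → S) :
    |av (fun s => - pp e ps univ (update z b s)) - pp e dl (univ.erase b) z|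
      ≤ (θ + (pairs (univ.erase b)).card / Fintype.card F + 1 / Λ)
        * os e Λ (univ.erase b) z := by
  set Y : Finset κ := univ.erase b with hY
  have h2 : insert b Y = univ := Finset.insert_erase (mem_univ b)
  have hbY : b ∉ Y := Finset.notMem_erase b univ
  have h3 : ∀ s, - pp e ps univ (update z b s) = - pp e ps Y z * st e ps b Y z s := by
    intro s
    rw [← h2, pp_insert_upd hG.symm ps hbY]
    ring
  simp only [h3]
  rw [av_mul_left, hG.av_star hu b z, ← hY]
  set ξ : ℝ := av fun x => (if D (update (fun v => P (z v)) b x) = rr e Y z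
        then (Fintype.card F : ℝ) else 0) - 1 with hξ
  have hq := q_pos (F := F)
  have hom := pp_om_pos (e := e) Y z
  have hos : pp e om Y z ≤ os e Λ Y z := om_le_os hΛ.le Y z
  have hos0 : 0 ≤ os e Λ Y z := os_nonneg hΛ.le Y z
  have hps := abs_pp_ps_le (e := e) Y z
  have hN : (0 : ℝ) ≤ (pairs Y).card / Fintype.card F := by positivity
  have hΛ' : 0 < 1 / Λ := by positivity
  by_cases hr : rr e Y z = 0
  · have hξ1 : ξ = -1 := by
      rw [hξ]
      have : ∀ x, (if D (update (fun v => P (z v)) b x) = rr e Y z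
        then (Fintype.card F : ℝ) else 0) - 1 = -1 := by
        intro x
        rw [hr, if_neg (hG.ne _)]
        norm_num
      simp only [this]
      exact av_const _
    rw [hξ1]
    by_cases hc : Cl e Y z
    · rw [pp_of_cl _ hc, pp_of_cl _ hc, ps_zero, dl_zero]
      set N : ℕ := (pairs Y).card with hNdef
      set q : ℝ := (Fintype.card F : ℝ) with hqdef
      have hq1 : 1 ≤ q := one_le_q
      have h4 : q ^ N - (q - 1) ^ N ≤ N / q * q ^ N := by
        have h5 : (1 : ℝ) + N * (-(1 / q)) ≤ (1 + -(1 / q)) ^ N := by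
          refine one_add_mul_le_pow ?_ N
          have : 1 / q ≤ 1 := by rw [div_le_one hq]; exact hq1
          linarith
        have h6 : (q - 1) ^ N = (1 + -(1 / q)) ^ N * q ^ N := by
          rw [← mul_pow]; congr 1; field_simp; ring
        rw [h6]
        have h7 := mul_le_mul_of_nonneg_right h5 (show (0 : ℝ) ≤ q ^ N by positivity)
        have h8 : (1 + N * (-(1 / q))) * q ^ N = q ^ N - N / q * q ^ N := by ring
        linarith
      have h9 : (q - 1) ^ N ≤ q ^ N := pow_le_pow_left₀ (by linarith) (by linarith) N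
      have h10 : -(q - 1) ^ N * -1 - q ^ N = -(q ^ N - (q - 1) ^ N) := by ring
      rw [h10, abs_neg, abs_of_nonneg (by linarith)]
      have h11 : q ^ N = pp e om Y z := by rw [pp_of_cl _ hc, om_zero]
      refine h4.trans ?_
      rw [h11]
      have h12 : (N : ℝ) / q * pp e om Y z ≤ N / q * os e Λ Y z :=
        mul_le_mul_of_nonneg_left hos hN
      nlinarith [mul_nonneg hθ hos0, mul_nonneg hΛ'.le hos0]
    · rw [pp_dl_of_not_cl hc, sub_zero, mul_neg, mul_one, neg_neg]
      have h4 := os_of_bad hΛ.le (e := e) ⟨hr, hc⟩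
      have h5 : pp e om Y z ≤ 1 / Λ * os e Λ Y z := by
        rw [div_mul_eq_mul_div, one_mul, le_div_iff₀ hΛ, mul_comm]
        exact h4
      refine hps.trans (h5.trans ?_)
      nlinarith [mul_nonneg hθ hos0, mul_nonneg hN hos0]
  · have hξ1 : |ξ| ≤ θ := hG.row b (fun v => P (z v)) (rr e Y z) hr
    have hc : ¬ Cl e Y z := fun hc => hr (rr_of_cl hc)
    rw [pp_dl_of_not_cl hc, sub_zero, neg_mul, abs_neg, abs_mul]
    have h4 : |pp e ps Y z| * |ξ| ≤ os e Λ Y z * θ :=
      mul_le_mul (hps.trans hos) hξ1 (abs_nonneg _) hos0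
    refine h4.trans ?_
    nlinarith [mul_nonneg hN hos0, mul_nonneg hΛ'.le hos0]

end Pool.Agent.Lib.SDF3
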