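import Pool.Agent.Lib.SDF3.Defs
import Pool.Agent.Lib.SDF3.Bil

/-!
The gadget: every vertex has two elements of a subgroup `H` of index 2 of a field of
characteristic 2, and one field element for each other vertex, up to one relation.
-/

set_option autoImplicit false

namespace Pool.Agent.Lib.SDF3

open Finset Function
open Pool.Agent.Lib.SDF (av av_add av_sub av_neg av_mul_left av_mul_right av_zero av_const av_mono
  av_nonneg av_finset_sum av_comm abs_av_le av_congr sum_eq_card_mul_av)

section aux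

theorem av_prod_type {X Y : Type*} [Fintype X] [Fintype Y] (G : X × Y → ℝ) :
    av G = av fun x => av fun y => G (x, y) := by
  simp only [av, Fintype.sum_prod_type, Fintype.card_prod, ← Finset.sum_div]
  rw [div_div, Nat.cast_mul, mul_comm]

theorem av_restrict {κ F : Type} [Fintype κ] [DecidableEq κ] [Fintype F] [Nonempty F]
    (p : κ → Prop) [DecidablePred p] (Ψ : ({c // p c} → F) → ℝ) :
    av (fun w : κ → F => Ψ fun c => w c) = av Ψ := by
  have h1 := av_bij (Equiv.piEquivPiSubtypeProd p (fun _ => F))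
    (Equiv.piEquivPiSubtypeProd p (fun _ => F)).bijective (fun q => Ψ q.1)
  rw [av_prod_type] at h1
  simp only [av_const] at h1
  exact h1

theorem sum_pairs_univ {κ M : Type} [Fintype κ] [LinearOrder κ] [AddCommMonoid M]
    (g : κ → κ → M) :
    ∑ p ∈ pairs (univ : Finset κ), (g p.1 p.2 + g p.2 p.1)
      = ∑ v, ∑ w ∈ univ.erase v, g v w := by
  have h1 : ∀ f : κ × κ → M, ∑ p ∈ pairs (univ : Finset κ), f p
      = ∑ v, ∑ w, if v < w then f (v, w) else 0 := by
    intro f
    unfold pairs
    rw [Finset.sum_filter, Finset.sum_product]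
  have h2 : ∀ v : κ, ∑ w ∈ univ.erase v, g v w
      = ∑ w, ((if v < w then g v w else 0) + if w < v then g v w else 0) := by
    intro v
    rw [← Finset.add_sum_erase univ (fun w => (if v < w then g v w else 0)
      + if w < v then g v w else 0) (mem_univ v)]
    rw [if_neg (lt_irrefl v), add_zero, zero_add]
    refine Finset.sum_congr rfl fun w hw => ?_
    rcases lt_or_gt_of_ne (Finset.ne_of_mem_erase hw).symm with h | h
    · rw [if_pos h, if_neg (not_lt.2 h.le), add_zero]
    · rw [if_neg (not_lt.2 h.le), if_pos h, zero_add]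
  rw [Finset.sum_add_distrib, h1, h1, Finset.sum_congr rfl fun v _ => h2 v]
  simp only [Finset.sum_add_distrib]
  congr 1
  rw [Finset.sum_comm]

end aux

section gadget
variable {F : Type} [Field F] [Fintype F] [DecidableEq F] [CharP F 2] (H : AddSubgroup F)
  (m : ℕ) (θ0 : F)

/-- The types: two elements of `H`, and `m` field elements. -/
abbrev Ty : Type := (H × H) × (Fin m → F)

/-- The index of `w` in the list of the vertices other than `v`. -/
def idx {m : ℕ} (v w : Fin (m + 2)) : Fin (m + 1) :=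
  if h : w ≠ v then (finSuccAboveEquiv v).symm ⟨w, h⟩ else 0

theorem idx_succAbove {m : ℕ} (v : Fin (m + 2)) (i : Fin (m + 1)) :
    idx v (v.succAbove i) = i := by
  unfold idx
  rw [dif_pos (Fin.succAbove_ne v i)]
  have : (⟨v.succAbove i, Fin.succAbove_ne v i⟩ : {x // x ≠ v}) = finSuccAboveEquiv v i := rfl
  rw [this]
  exact Equiv.symm_apply_apply _ i

variable {H m}

/-- The prescribed sum of the field elements of a vertex. -/
def uu (θ0 : F) (s : Ty H m) : F :=
  (s.1.1 : F) * s.1.2 + θ0 * s.1.2 + θ0 * s.1.1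

/-- The field elements of a vertex. -/
def ff (θ0 : F) (s : Ty H m) : Fin (m + 1) → F :=
  Fin.cons (uu θ0 s + ∑ i, s.2 i) s.2

omit [Fintype F] [DecidableEq F] in
theorem sum_ff (s : Ty H m) : ∑ i, ff θ0 s i = uu θ0 s := by
  unfold ff
  rw [Fin.sum_univ_succ]
  simp only [Fin.cons_zero, Fin.cons_succ]
  rw [add_assoc, CharTwo.add_self_eq_zero, add_zero]

/-- One half of the pair function. -/
def gg (θ0 : F) (v w : Fin (m + 2)) (s t : Ty H m) : F :=
  ff θ0 s (idx v w) + (s.1.1 : F) * t.1.2 + if v = 0 ∧ w = 1 then θ0 * θ0 else 0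

/-- The pair function. -/
def ee (θ0 : F) (v w : Fin (m + 2)) (s t : Ty H m) : F :=
  gg θ0 v w s t + gg θ0 w v t s

/-- The function which does not vanish. -/
def DD (θ0 : F) (y : Fin (m + 2) → H × H) : F :=
  (∑ v, ((y v).1 : F) + θ0) * (∑ v, ((y v).2 : F) + θ0)

omit [Fintype F] [DecidableEq F] in
theorem sum_ee (z : Fin (m + 2) → Ty H m) :
    ∑ p ∈ pairs univ, ee θ0 p.1 p.2 (z p.1) (z p.2) = DD θ0 fun v => (z v).1 := by
  unfold ee
  rw [sum_pairs_univ (fun v w => gg θ0 v w (z v) (z w))]
  have h1 : ∀ v, ∑ w ∈ univ.erase v, gg θ0 v w (z v) (z w)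
      = (((z v).1.1 : F) * (∑ w, ((z w).1.2 : F)) + θ0 * (z v).1.2 + θ0 * (z v).1.1)
        + if v = 0 then θ0 * θ0 else 0 := by
    intro v
    unfold gg
    rw [Finset.sum_add_distrib, Finset.sum_add_distrib]
    have h2 : ∑ w ∈ univ.erase v, ff θ0 (z v) (idx v w) = uu θ0 (z v) := by
      rw [← sum_ff θ0 (z v)]
      have h3 := Fin.sum_univ_succAbove (fun w => ff θ0 (z v) (idx v w)) v
      rw [← Finset.add_sum_erase univ _ (mem_univ v)] at h3
      rw [add_left_cancel h3]
      simp only [idx_succAbove]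
    have h4 : ∑ w ∈ univ.erase v, ((z v).1.1 : F) * (z w).1.2
        = ((z v).1.1 : F) * (∑ w, ((z w).1.2 : F)) - (z v).1.1 * (z v).1.2 := by
      rw [Finset.mul_sum, ← Finset.add_sum_erase univ _ (mem_univ v)]
      ring
    have h5 : ∑ w ∈ univ.erase v, (if v = 0 ∧ w = 1 then θ0 * θ0 else 0)
        = if v = 0 then θ0 * θ0 else 0 := by
      by_cases hv : v = 0
      · subst hv
        have h10 : (1 : Fin (m + 2)) ∈ univ.erase (0 : Fin (m + 2)) :=
          Finset.mem_erase.2 ⟨by simp, mem_univ _⟩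
        simp only [true_and, if_true]
        rw [Finset.sum_ite_eq' (univ.erase 0) 1 (fun _ => θ0 * θ0), if_pos h10]
      · simp [hv]
    rw [h2, h4, h5]
    unfold uu
    ring
  rw [Finset.sum_congr rfl fun v _ => h1 v, Finset.sum_add_distrib, Finset.sum_add_distrib,
    Finset.sum_add_distrib, ← Finset.sum_mul, ← Finset.mul_sum, ← Finset.mul_sum]
  have h6 : ∑ v : Fin (m + 2), (if v = 0 then θ0 * θ0 else 0) = θ0 * θ0 := by simp
  rw [h6]
  unfold DD
  ring

omit [Fintype F] [DecidableEq F] [CharP F 2] in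
theorem DD_ne (hθ0 : θ0 ∉ H) (y : Fin (m + 2) → H × H) : DD θ0 y ≠ 0 := by
  have key : ∀ f : Fin (m + 2) → H, (∑ v, ((f v : F)) + θ0) ≠ 0 := by
    intro f h
    refine hθ0 ?_
    have h1 : θ0 = - ((∑ v, f v : H) : F) := by
      rw [AddSubgroup.val_finsetSum]
      exact eq_neg_of_add_eq_zero_right h
    rw [h1]
    exact H.neg_mem (∑ v, f v : H).2
  exact mul_ne_zero (key fun v => (y v).1) (key fun v => (y v).2)

omit [Fintype F] [DecidableEq F] [CharP F 2] in
theorem DD_one (y : Fin (m + 2) → H × H) (a : Fin (m + 2)) (x : H × H) :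
    DD θ0 (update y a x) = ((x.1 : F) + (∑ v ∈ univ.erase a, ((y v).1 : F) + θ0))
      * ((x.2 : F) + (∑ v ∈ univ.erase a, ((y v).2 : F) + θ0)) := by
  have h0 : ∀ v ∈ univ.erase a, update y a x v = y v := fun v hv => by
    rw [update_of_ne (Finset.ne_of_mem_erase hv)]
  have h1 : ∑ v ∈ univ.erase a, ((update y a x v).1 : F) = ∑ v ∈ univ.erase a, ((y v).1 : F) :=
    Finset.sum_congr rfl fun v hv => by rw [h0 v hv]
  have h2 : ∑ v ∈ univ.erase a, ((update y a x v).2 : F) = ∑ v ∈ univ.erase a, ((y v).2 : F) :=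
    Finset.sum_congr rfl fun v hv => by rw [h0 v hv]
  unfold DD
  rw [← Finset.add_sum_erase univ (fun v => ((update y a x v).1 : F)) (mem_univ a),
    ← Finset.add_sum_erase univ (fun v => ((update y a x v).2 : F)) (mem_univ a),
    update_self, h1, h2]
  ring

omit [Fintype F] [DecidableEq F] [CharP F 2] in
theorem DD_two (y : Fin (m + 2) → H × H) {a b : Fin (m + 2)} (hab : a ≠ b) (x x' : H × H) :
    DD θ0 (update (update y a x) b x')
      = ((x.1 : F) + x'.1 + (∑ v ∈ (univ.erase b).erase a, ((y v).1 : F) + θ0))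
      * ((x.2 : F) + x'.2 + (∑ v ∈ (univ.erase b).erase a, ((y v).2 : F) + θ0)) := by
  have ha : a ∈ univ.erase b := Finset.mem_erase.2 ⟨hab, mem_univ a⟩
  have h0 : ∀ v ∈ (univ.erase b).erase a, update y a x v = y v := fun v hv => by
    rw [update_of_ne (Finset.ne_of_mem_erase hv)]
  have h1 : ∑ v ∈ (univ.erase b).erase a, ((update y a x v).1 : F)
      = ∑ v ∈ (univ.erase b).erase a, ((y v).1 : F) :=
    Finset.sum_congr rfl fun v hv => by rw [h0 v hv]
  have h2 : ∑ v ∈ (univ.erase b).erase a, ((update y a x v).2 : F)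
      = ∑ v ∈ (univ.erase b).erase a, ((y v).2 : F) :=
    Finset.sum_congr rfl fun v hv => by rw [h0 v hv]
  rw [DD_one, ← Finset.add_sum_erase (univ.erase b) (fun v => ((update y a x v).1 : F)) ha,
    ← Finset.add_sum_erase (univ.erase b) (fun v => ((update y a x v).2 : F)) ha,
    update_self, h1, h2]
  ring

theorem bij_ee [Fintype H] {a b : Fin (m + 2)} (hab : a ≠ b) (z : Fin (m + 2) → Ty H m) :
    Function.Bijective (fun s : Ty H m =>
      ((s.1, fun c => ee θ0 a c s (z c)) :
        (H × H) × ({c : Fin (m + 2) // c ≠ a ∧ c ≠ b} → F))) := by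
  rw [Fintype.bijective_iff_injective_and_card]
  constructor
  · intro s s' h
    have h1 : s.1 = s'.1 := (Prod.mk.inj h).1
    have h2 : ∀ c : Fin (m + 2), c ≠ a → c ≠ b → ee θ0 a c s (z c) = ee θ0 a c s' (z c) :=
      fun c hca hcb => congrFun (Prod.mk.inj h).2 ⟨c, hca, hcb⟩
    have h3 : ∀ i : Fin (m + 1), a.succAbove i ≠ b → ff θ0 s i = ff θ0 s' i := by
      intro i hi
      have h4 := h2 (a.succAbove i) (Fin.succAbove_ne a i) hi
      unfold ee gg at h4
      rw [idx_succAbove, h1] at h4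
      linear_combination h4
    obtain ⟨i0, hi0⟩ := Fin.exists_succAbove_eq hab.symm
    have h5 : ff θ0 s i0 = ff θ0 s' i0 := by
      have h6 : ∑ i, ff θ0 s i = ∑ i, ff θ0 s' i := by
        rw [sum_ff, sum_ff]
        unfold uu
        rw [h1]
      rw [← Finset.add_sum_erase univ _ (mem_univ i0),
        ← Finset.add_sum_erase univ (fun i => ff θ0 s' i) (mem_univ i0)] at h6
      have h7 : ∑ i ∈ univ.erase i0, ff θ0 s i = ∑ i ∈ univ.erase i0, ff θ0 s' i := by
        refine Finset.sum_congr rfl fun i hi => h3 i ?_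
        intro hib
        exact Finset.ne_of_mem_erase hi (Fin.succAbove_right_injective (hib.trans hi0.symm))
      rw [h7] at h6
      exact add_right_cancel h6
    have h8 : ∀ i, ff θ0 s i = ff θ0 s' i := by
      intro i
      by_cases hi : a.succAbove i = b
      · have : i = i0 := Fin.succAbove_right_injective (hi.trans hi0.symm)
        rw [this]; exact h5
      · exact h3 i hi
    refine Prod.ext h1 (funext fun j => ?_)
    have h9 := h8 j.succ
    unfold ff at h9
    simpa using h9
  · have h1 : Fintype.card {c : Fin (m + 2) // c ≠ a ∧ c ≠ b} = m := by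
      rw [Fintype.card_subtype]
      have : (univ.filter fun c : Fin (m + 2) => c ≠ a ∧ c ≠ b) = (univ.erase b).erase a := by
        ext c
        simp
      rw [this, Finset.card_erase_of_mem (Finset.mem_erase.2 ⟨hab, mem_univ a⟩),
        Finset.card_erase_of_mem (mem_univ b), Finset.card_univ, Fintype.card_fin]
      rfl
    simp only [Ty, Fintype.card_prod, Fintype.card_fun, h1, Fintype.card_fin]

/-- The gadget satisfies the interface. -/
theorem gad [Fintype H] (hH : Fintype.card F ≤ 2 * Fintype.card H) (hθ0 : θ0 ∉ H) (Q : ℝ)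
    (hQ : 1 ≤ Q) (hq : Q ^ 4 = Fintype.card F) :
    Gad (ee θ0 : Fin (m + 2) → Fin (m + 2) → Ty H m → Ty H m → F) (fun s => s.1) (DD θ0)
      (8 / Q) where
  symm := fun v w s t => by unfold ee; rw [add_comm]
  sum := sum_ee θ0
  ne := DD_ne θ0 hθ0
  inv := by
    intro a b hab z
    have hb := bij_ee θ0 hab z
    obtain ⟨E, hE⟩ : ∃ E : Ty H m ≃ (H × H) × ({c : Fin (m + 2) // c ≠ a ∧ c ≠ b} → F),
      E = Equiv.ofBijective _ hb := ⟨_, rfl⟩
    have hE1 : ∀ s, (E s).1 = s.1 := fun s => by rw [hE]; rfl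
    have hE2 : ∀ s c, (E s).2 c = ee θ0 a c s (z c) := fun s c => by rw [hE]; rfl
    refine ⟨fun x w => E.symm (x, fun c => w c), ?_, ?_, ?_⟩
    · intro x w
      rw [← hE1, E.apply_symm_apply]
    · intro x w c hca hcb
      have h1 := hE2 (E.symm (x, fun c => w c)) ⟨c, hca, hcb⟩
      rw [E.apply_symm_apply] at h1
      exact h1.symm
    · intro G
      rw [← av_bij E.symm E.symm.bijective G, av_prod_type]
      refine av_congr fun x => ?_
      exact (av_restrict (fun c : Fin (m + 2) => c ≠ a ∧ c ≠ b)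
        (fun w => G (E.symm (x, w)))).symm
  row := by
    intro a y r hr
    have h1 := bil_bound H hH Q hQ hq (∑ v ∈ univ.erase a, ((y v).1 : F) + θ0)
      (∑ v ∈ univ.erase a, ((y v).2 : F) + θ0) r hr (fun _ => 1) (fun _ => 1)
    have h2 : ∀ x : H × H, av (fun x' : H × H => ((if ((x.1 : F) + x'.1
        + (∑ v ∈ univ.erase a, ((y v).1 : F) + θ0)) * ((x.2 : F) + x'.2
        + (∑ v ∈ univ.erase a, ((y v).2 : F) + θ0)) = r
        then (Fintype.card F : ℝ) else 0) - 1) * ((1 : ℝ) * 1))
        = av fun x => (if DD θ0 (update y a x) = r then (Fintype.card F : ℝ) else 0) - 1 := by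
      intro x
      rw [← av_bij (fun x' : H × H => x + x') (Equiv.addLeft x).bijective
        (fun x => (if DD θ0 (update y a x) = r then (Fintype.card F : ℝ) else 0) - 1)]
      refine av_congr fun x' => ?_
      rw [DD_one, mul_one, mul_one]
      simp only [Prod.fst_add, Prod.snd_add, AddSubgroup.coe_add]
    simp only [h2, av_const] at h1
    refine h1.trans (le_of_eq ?_)
    norm_num
  bil := by
    intro a b hab y r hr f g
    have h1 := bil_bound H hH Q hQ hq (∑ v ∈ (univ.erase b).erase a, ((y v).1 : F) + θ0)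
      (∑ v ∈ (univ.erase b).erase a, ((y v).2 : F) + θ0) r hr f g
    simp only [DD_two θ0 y hab]
    exact h1

end gadget

theorem zmod2_cases (x : ZMod 2) : x = 0 ∨ x = 1 := by
  revert x
  decide

/-- There are fields of characteristic 2 with a subgroup of index 2. -/
theorem exists_field (j : ℕ) (hj : j ≠ 0) : ∃ (F : Type) (_ : Field F) (_ : Fintype F)
    (_ : DecidableEq F) (_ : CharP F 2) (H : AddSubgroup F) (_ : Fintype H) (θ0 : F),
    Fintype.card F = (2 ^ j) ^ 4 ∧ Fintype.card F ≤ 2 * Fintype.card H ∧ θ0 ∉ H := by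
  classical
  have : Fact (Nat.Prime 2) := ⟨Nat.prime_two⟩
  have hfin : Fintype (GaloisField 2 (j * 4)) := Fintype.ofFinite _
  obtain ⟨φ, hφ⟩ : ∃ φ : Module.Dual (ZMod 2) (GaloisField 2 (j * 4)), φ 1 ≠ 0 := by
    by_contra hcon
    push Not at hcon
    have h1 := (Module.forall_dual_apply_eq_zero_iff (ZMod 2)
      (1 : GaloisField 2 (j * 4))).1 hcon
    exact one_ne_zero h1
  have hz : ∀ x : ZMod 2, x = 0 ∨ x = 1 := zmod2_cases
  have h1 : φ 1 = 1 := (hz _).resolve_left hφ
  refine ⟨GaloisField 2 (j * 4), inferInstance, hfin, inferInstance, inferInstance,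
    φ.toAddMonoidHom.ker, inferInstance, 1, ?_, ?_, ?_⟩
  · rw [← Nat.card_eq_fintype_card, GaloisField.card 2 (j * 4) (by omega), pow_mul]
  · have hsurj : Function.Surjective (fun p : φ.toAddMonoidHom.ker × Bool =>
        (p.1 : GaloisField 2 (j * 4)) + if p.2 then 1 else 0) := by
      intro x
      rcases hz (φ x) with hx | hx
      · exact ⟨(⟨x, hx⟩, false), by simp⟩
      · refine ⟨(⟨x - 1, ?_⟩, true), by simp⟩
        show φ (x - 1) = 0
        rw [map_sub, hx, h1, sub_self]
    have h2 := Fintype.card_le_of_surjective _ hsurj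
    rw [Fintype.card_prod, Fintype.card_bool] at h2
    omega
  · intro h
    exact hφ h

end Pool.Agent.Lib.SDF3
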