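import Pool.Agent.Lib.SDF3.Top

/-!
The lower bound for semidefinite programs with exponent `k`.
-/

set_option autoImplicit false

namespace Pool.Agent.Lib.SDF3

open Finset
open Pool.Agent.Lib.MP_678664_lc_h67 (Cons vert vert_inj rowGraph rowGraph_adj colSet colSet_inj
  card_colSet rowGraph_cliqueFree)
open Pool.Agent.Lib.SDF (degLE Junta CliqueSDP clique_factor core av av_congr av_sub
  av_mul_left av_mul_right av_pattern av_finset_sum resample_pattern)

section corr
variable {n k N : ℕ} {S : Type} [Fintype S] [DecidableEq S] [Nonempty S]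

open Classical in
/-- The correlation of the test function with the indicator function of `H ≤ G_x`. -/
theorem corr_le (h : k * N ≤ n) (ok : Fin k → Fin k → S → S → Prop)
    (hsymm : ∀ v w s t, ok v w s t → ok w v t s) (W : (Fin k → S) → ℝ) (u : ℕ)
    (hloc : ∀ (T : Finset (Fin k)) (F : (Fin k → S) → ℝ), T.card < u →
        (∀ z z' : Fin k → S, (∀ v ∈ T, z v = z' v) → F z = F z') → (∀ z, 0 ≤ F z) →
        (0 ≤ ∑ z, W z * F z) ∧
        ((∀ z, Cons ok T z → F z = 1) → Fintype.card (Fin k → S) ≤ ∑ z, W z * F z))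
    (H : SimpleGraph (Fin n)) (hH : H.support.ncard < u) (y : Fin k → Fin N) :
    0 ≤ av (fun x : Fin k × Fin N → S => W (fun v => x (v, y v))
        * if H ≤ rowGraph h ok hsymm (fun v i => x (v, i)) then 1 else 0) ∧
    ((∀ a b, H.Adj a b → a ∈ colSet h y ∧ b ∈ colSet h y) →
      1 ≤ av (fun x : Fin k × Fin N → S => W (fun v => x (v, y v))
        * if H ≤ rowGraph h ok hsymm (fun v i => x (v, i)) then 1 else 0)) := by
  set T : Finset (Fin k) := Finset.univ.filter fun v => vert h v (y v) ∈ H.support with hT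
  have hmem : ∀ v, v ∈ T ↔ vert h v (y v) ∈ H.support := fun v => by simp [hT]
  have hTu : T.card < u := by
    refine lt_of_le_of_lt ?_ hH
    rw [← Set.ncard_coe_finset, ← Set.ncard_image_of_injective _ (colSet_inj h y)]
    refine Set.ncard_le_ncard ?_ (Set.toFinite _)
    rintro _ ⟨v, hv, rfl⟩
    exact (hmem v).1 hv
  -- resampling
  have hres := resample_pattern (κ := Fin k) (α := Fin N) (S := S)
    (fun x z => W (fun v => x (v, y v))
        * if H ≤ rowGraph h ok hsymm (fun v i => x (v, i)) then 1 else 0) y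
  have hpat : ∀ (x : Fin k × Fin N → S) (z : Fin k → S),
      (fun v => (if (v, y v).2 = y (v, y v).1 then z (v, y v).1 else x (v, y v))) = z := by
    intro x z
    funext v
    simp
  have hS0 : (0 : ℝ) < Fintype.card (Fin k → S) := by exact_mod_cast Fintype.card_pos
  have hX0 : (0 : ℝ) < Fintype.card (Fin k × Fin N → S) := by exact_mod_cast Fintype.card_pos
  -- the function of the pattern for a fixed row
  let F : (Fin k × Fin N → S) → (Fin k → S) → ℝ := fun x z =>
    if H ≤ rowGraph h ok hsymm (fun v i => if i = y v then z v else x (v, i)) then 1 else 0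
  have hF0 : ∀ x z, 0 ≤ F x z := by
    intro x z
    show (0 : ℝ) ≤ if _ then 1 else 0
    split_ifs <;> norm_num
  have hFdep : ∀ x, ∀ z z' : Fin k → S, (∀ v ∈ T, z v = z' v) → F x z = F x z' := by
    intro x
    have hle : ∀ z z' : Fin k → S, (∀ v ∈ T, z v = z' v) →
        H ≤ rowGraph h ok hsymm (fun v i => if i = y v then z v else x (v, i)) →
        H ≤ rowGraph h ok hsymm (fun v i => if i = y v then z' v else x (v, i)) := by
      intro z z' hzz hle a b hab
      obtain ⟨v, w, i, j, rfl, rfl, hvw, hok⟩ := hle hab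
      rw [rowGraph_adj]
      refine ⟨hvw, ?_⟩
      have hkey : ∀ (v : Fin k) (i : Fin N), vert h v i ∈ H.support →
          (if i = y v then z v else x (v, i)) = (if i = y v then z' v else x (v, i)) := by
        intro v i hv
        by_cases hi : i = y v
        · subst hi
          rw [if_pos rfl, if_pos rfl]
          exact hzz v ((hmem v).2 hv)
        · rw [if_neg hi, if_neg hi]
      have hok' : ok v w (if i = y v then z v else x (v, i)) (if j = y w then z w else x (w, j)) :=
        hok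
      rwa [hkey v i ⟨_, hab⟩, hkey w j ⟨_, hab.symm⟩] at hok'
    intro z z' hzz
    show (if _ then (1 : ℝ) else 0) = if _ then 1 else 0
    refine if_congr ⟨hle z z' hzz, hle z' z fun v hv => (hzz v hv).symm⟩ rfl rfl
  have hsum : ∀ x : Fin k × Fin N → S, ∑ z : Fin k → S,
      (W (fun v => (if (v, y v).2 = y (v, y v).1 then z (v, y v).1 else x (v, y v)))
        * if H ≤ rowGraph h ok hsymm (fun v i =>
            (if (v, i).2 = y (v, i).1 then z (v, i).1 else x (v, i))) then 1 else 0)
      = ∑ z, W z * F x z := by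
    intro x
    refine Finset.sum_congr rfl fun z _ => ?_
    rw [hpat x z]
  have hav : av (fun x : Fin k × Fin N → S => W (fun v => x (v, y v))
        * if H ≤ rowGraph h ok hsymm (fun v i => x (v, i)) then 1 else 0)
      = (∑ x : Fin k × Fin N → S, ∑ z, W z * F x z)
        / (Fintype.card (Fin k × Fin N → S) * Fintype.card (Fin k → S)) := by
    rw [← Finset.sum_congr rfl fun x _ => hsum x, ← hres]
    simp only [Finset.sum_const, Finset.card_univ, nsmul_eq_mul]
    rw [← Finset.mul_sum]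
    unfold av
    field_simp
  rw [hav]
  refine ⟨?_, fun hcol => ?_⟩
  · refine div_nonneg (Finset.sum_nonneg fun x _ => (hloc T (F x) hTu (hFdep x) (hF0 x)).1) ?_
    positivity
  · have h1 : ∀ x, Fintype.card (Fin k → S) ≤ ∑ z, W z * F x z := by
      intro x
      refine (hloc T (F x) hTu (hFdep x) (hF0 x)).2 fun z hc => ?_
      show (if _ then (1 : ℝ) else 0) = 1
      rw [if_pos]
      intro a b hab
      obtain ⟨ha, hb⟩ := hcol a b hab
      simp only [colSet, Finset.mem_image, Finset.mem_univ, true_and] at ha hb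
      obtain ⟨v, rfl⟩ := ha
      obtain ⟨w, rfl⟩ := hb
      have hvw : v ≠ w := by
        rintro rfl
        exact H.loopless.irrefl _ hab
      rw [rowGraph_adj]
      refine ⟨hvw, ?_⟩
      rw [if_pos rfl, if_pos rfl]
      exact hc v ((hmem v).2 ⟨_, hab⟩) w ((hmem w).2 ⟨_, hab.symm⟩) hvw
    rw [one_le_div (by positivity)]
    refine le_trans (le_of_eq ?_) (Finset.sum_le_sum fun x _ => h1 x)
    simp only [Finset.sum_const, Finset.card_univ, nsmul_eq_mul]

end corr

/-- The lower bound with free parameters. -/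
theorem lower_param (k : ℕ) (hk : 3 ≤ k) (ε : ℝ) (hε : 0 < ε) (hε1 : ε ≤ 1) :
    ∃ c0 K1 δ : ℝ, 0 < c0 ∧ 0 < K1 ∧ 0 < δ ∧
      ∀ (n r : ℕ), Nonempty (CliqueSDP n k k ε r) →
        ∀ N s : ℕ, 0 < N → k * N ≤ n → K1 * (r + 1) < (1 + δ) ^ (2 * s) →
          c0 < (r + 1) * ((k * s : ℝ) / N) ^ (k - 1 + 1) := by
  classical
  obtain ⟨S, _, _, _, ok, W, c, hc, hWc, hsymm, hno, hW1, hloc, hpsd⟩ :=
    exists_design_top k hk (ε / 2) (by positivity)
  have hc0 : 0 < c := by linarith
  refine ⟨(ε / 2) ^ 2 / (320 * c ^ 2 * (1 + 1) ^ 2), 256 * c ^ 3 * (1 + 1) ^ 3 / (ε / 2) ^ 3,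
    (ε / 2) / (16 * c * (1 + 1)), by positivity, by positivity, by positivity, ?_⟩
  rintro n r ⟨P⟩ N s hN hkn hs
  have : Nonempty (Fin N) := ⟨⟨0, hN⟩⟩
  obtain ⟨A, B, hA, hB, hAB⟩ := clique_factor P
  have hfree : ∀ x : Fin k → Fin N → S, (rowGraph hkn ok hsymm x).CliqueFree k := fun x =>
    rowGraph_cliqueFree hkn ok hsymm x k hk hno
  have hfin : ∀ (G : SimpleGraph (Fin n)) (T : Finset (Fin n)),
      ∑ᶠ H ∈ Set.Iic G, P.wt T H = ∑ H, P.wt T H * if H ≤ G then 1 else 0 := by
    intro G T
    rw [finsum_mem_eq_finite_toFinset_sum _ (Set.toFinite _)]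
    simp only [mul_ite, mul_one, mul_zero]
    rw [← Finset.sum_filter]
    refine Finset.sum_congr ?_ fun _ _ => rfl
    ext H
    simp
  have hval0 : ∀ (G : SimpleGraph (Fin n)) (T : Finset (Fin n)),
      0 ≤ ∑ᶠ H ∈ Set.Iic G, P.wt T H := by
    intro G T
    rw [hfin]
    exact Finset.sum_nonneg fun H _ => mul_nonneg (P.wt_nonneg T H) (by split_ifs <;> norm_num)
  have hcard : (Fintype.card (Fin r ⊕ Unit) : ℝ) = r + 1 := by
    simp
  have hmain := core (κ := Fin k) (α := Fin N) (ι := Fin r ⊕ Unit) W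
    (fun x y => 1 - ε - ∑ᶠ H ∈ Set.Iic (rowGraph hkn ok hsymm (fun v i => x (v, i))),
      P.wt (colSet hkn y) H)
    c 1 (ε / 2) (k - 1) hc zero_le_one (by positivity) (by linarith) hWc hpsd
    (fun x y => by
      have := hval0 (rowGraph hkn ok hsymm (fun v i => x (v, i))) (colSet hkn y)
      linarith)
    (fun y => by
      have h1 : ∀ x : Fin k × Fin N → S, W (fun v => x (v, y v)) * (1 - ε -
          ∑ᶠ H ∈ Set.Iic (rowGraph hkn ok hsymm (fun v i => x (v, i))), P.wt (colSet hkn y) H)
          = W (fun v => x (v, y v)) * (1 - ε) - ∑ H, P.wt (colSet hkn y) H *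
            (W (fun v => x (v, y v)) *
              if H ≤ rowGraph hkn ok hsymm (fun v i => x (v, i)) then 1 else 0) := by
        intro x
        rw [hfin, mul_sub, Finset.mul_sum]
        congr 1
        exact Finset.sum_congr rfl fun H _ => by ring
      rw [av_congr h1, av_sub, av_mul_right, av_pattern (fun z => W z) y, av_finset_sum]
      have h2 : av (fun z => W z) ≤ 1 + ε / 2 := by
        unfold av
        rw [div_le_iff₀ (by exact_mod_cast Fintype.card_pos)]
        exact hW1
      have h2' : av (fun z => W z) * (1 - ε) ≤ (1 + ε / 2) * (1 - ε) :=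
        mul_le_mul_of_nonneg_right h2 (by linarith)
      have h3 : ∀ H : SimpleGraph (Fin n), P.wt (colSet hkn y) H *
            (if H ≤ SimpleGraph.fromRel (fun a b => a ∈ colSet hkn y ∧ b ∈ colSet hkn y)
              then (1 : ℝ) else 0)
          ≤ av (fun x : Fin k × Fin N → S => P.wt (colSet hkn y) H *
            (W (fun v => x (v, y v)) *
              if H ≤ rowGraph hkn ok hsymm (fun v i => x (v, i)) then 1 else 0)) := by
        intro H
        rw [av_mul_left]
        by_cases hH : H.support.ncard < k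
        · obtain ⟨h4, h5⟩ := corr_le hkn ok hsymm W k hloc H hH y
          refine mul_le_mul_of_nonneg_left ?_ (P.wt_nonneg _ _)
          split_ifs with hle
          · refine h5 ?_
            intro a b hab
            have := hle hab
            rw [SimpleGraph.fromRel_adj] at this
            rcases this.2 with h6 | h6
            · exact h6
            · exact h6.symm
          · exact h4
        · rw [P.wt_small _ H (not_lt.1 hH), zero_mul, zero_mul]
      have h6 := Finset.sum_le_sum fun H (_ : H ∈ Finset.univ) => h3 H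
      have h7 := P.complete (colSet hkn y) (card_colSet hkn y)
        (SimpleGraph.fromRel (fun a b => a ∈ colSet hkn y ∧ b ∈ colSet hkn y)) (by
          intro a ha b hb hab
          rw [SimpleGraph.fromRel_adj]
          exact ⟨hab, Or.inl ⟨ha, hb⟩⟩)
      rw [P.point_val _ (card_colSet hkn y), hfin] at h7
      nlinarith)
    (fun x => A (rowGraph hkn ok hsymm (fun v i => x (v, i)))) (fun y => B (colSet hkn y))
    (fun x => hA _ (hfree _)) (fun y => hB _ (card_colSet hkn y))
    (fun x y => hAB _ (hfree _) _ (card_colSet hkn y)) s (by rw [hcard]; exact hs)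
  rw [hcard] at hmain
  simpa using hmain


/-- The lower bound for `k`-clique. -/
theorem sdp_top (k : ℕ) (hk : 3 ≤ k) (ε : ℝ) (hε : 0 < ε) :
    ∃ c : ℝ, 0 < c ∧ ∀ n r : ℕ, 2 ≤ n → Nonempty (CliqueSDP n k k ε r) →
      c * (n / Real.log n) ^ k ≤ r + 1 := by
  obtain ⟨c0, K1, δ, hc0, hK1, hδ, h⟩ := lower_param k hk (min ε 1)
    (lt_min hε one_pos) (min_le_right _ _)
  have he : k - 1 + 1 = k := by omega
  rw [he] at h
  obtain ⟨c, hc, hc2⟩ := Pool.Agent.Lib.SDF.asym k k (by omega) (by omega) c0 K1 δ hc0 hK1 hδ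
  refine ⟨c, hc, fun n r hn hF => ?_⟩
  obtain ⟨F⟩ := hF
  exact hc2 n r hn (h n r (Pool.Agent.Lib.SDF.clique_sdp_mono (min_le_left _ _) F))

theorem main :
    (∀ k : ℕ, 3 ≤ k → ∀ ε : ℝ, 0 < ε → ∃ c : ℝ, 0 < c ∧ ∀ n r : ℕ, 2 ≤ n →
      Nonempty (CliqueSDP n k k ε r) → c * (n / Real.log n) ^ k ≤ r + 1) ∧
    ∀ k u : ℕ, 3 ≤ u → u ≤ k →
      (∀ ε : ℝ, 0 < ε → ∃ c : ℝ, 0 < c ∧ ∀ n r : ℕ, 2 ≤ n →
        Nonempty (CliqueSDP n k u ε r) →
          c * (n / Real.log n) ^ ((u + 1) / 2) ≤ r + 1) ∧
      (∀ ε : ℝ, 0 < ε → ∃ c : ℝ, 0 < c ∧ ∀ n r : ℕ, 2 ≤ n →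
        (∃ P : CliqueSDP n k u ε r, P.IsLinear) →
          c * (n / Real.log n ^ 3) ^ u ≤ r + 1) ∧
      ∀ n : ℕ, ∃ P : CliqueSDP n k u (1 - 2 / u) (n.choose u), P.IsLinear :=
  ⟨sdp_top, Pool.Agent.Lib.SDF2.main⟩

end Pool.Agent.Lib.SDF3
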