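import Pool.Agent.Lib.SDF3.Diag

/-!
The average of the main part over two vertices.
-/

set_option autoImplicit false

namespace Pool.Agent.Lib.SDF3

open Finset Function
open Pool.Agent.Lib.SDF (av av_add av_sub av_neg av_mul_left av_mul_right av_zero av_const av_mono
  av_nonneg av_finset_sum av_comm abs_av_le av_congr sum_eq_card_mul_av)

section abs
variable {κ F : Type} [Fintype κ] [DecidableEq κ] [Field F] [Fintype F] [DecidableEq F]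

theorem two_mul_le (x y σ : ℝ) (hσ : 0 < σ) : |x * y| ≤ (σ * x ^ 2 + 1 / σ * y ^ 2) / 2 := by
  rw [abs_mul]
  have h1 : 0 ≤ σ * (|x| - 1 / σ * |y|) ^ 2 := by positivity
  have h2 : σ * (|x| - 1 / σ * |y|) ^ 2
      = σ * |x| ^ 2 + 1 / σ * |y| ^ 2 - 2 * (|x| * |y|) := by
    field_simp
    ring
  rw [h2, sq_abs, sq_abs] at h1
  linarith

theorem pair_pt (Z : Finset κ) (R0 : F) (σ θ : ℝ) (hσ : 1 ≤ σ) (hθ : 0 ≤ θ)
    (w w' : κ → F) (I Nf Ng fb gb : ℝ)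
    (hI0 : R0 + ∑ c ∈ Z, w c + ∑ c ∈ Z, w' c = 0 → I = - (fb * gb))
    (hI1 : R0 + ∑ c ∈ Z, w c + ∑ c ∈ Z, w' c ≠ 0 → |I| ≤ θ / 2 * (Nf + Ng))
    (hf : fb ^ 2 ≤ Nf) (hg : gb ^ 2 ≤ Ng) :
    |(∏ c ∈ Z, ps (w c)) * (∏ c ∈ Z, ps (w' c)) * I
      + (if R0 = 0 then 1 else 0) * (((Fintype.card F : ℝ) - 1) / Fintype.card F) ^ (2 * Z.card)
        * (((∏ c ∈ Z, dl (w c)) * fb) * ((∏ c ∈ Z, dl (w' c)) * gb))|
      ≤ θ / 2 * (((∏ c ∈ Z, om (w c)) * Nf) * (∏ c ∈ Z, om (w' c))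
          + (∏ c ∈ Z, om (w c)) * ((∏ c ∈ Z, om (w' c)) * Ng))
        + ((∏ c ∈ Z, om (w c)) * Nf * (1 / σ * (∏ c ∈ Z, dl (w' c))
          + σ * ((∏ c ∈ Z, om (w' c)) * if (∑ c ∈ Z, w' c = - R0 - ∑ c ∈ Z, w c ∧
            ∃ c ∈ Z, w' c ≠ 0) then 1 else 0))
          + (∏ c ∈ Z, om (w' c)) * Ng * (1 / σ * (∏ c ∈ Z, dl (w c))
          + σ * ((∏ c ∈ Z, om (w c)) * if (∑ c ∈ Z, w c = - R0 - ∑ c ∈ Z, w' c ∧
            ∃ c ∈ Z, w c ≠ 0) then 1 else 0))) / 2 := by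
  classical
  have hNf : 0 ≤ Nf := (sq_nonneg _).trans hf
  have hNg : 0 ≤ Ng := (sq_nonneg _).trans hg
  have hσ0 : 0 < σ := by linarith
  obtain ⟨Ω, hΩ⟩ : ∃ Ω, Ω = ∏ c ∈ Z, om (w c) := ⟨_, rfl⟩
  obtain ⟨Ω', hΩ'⟩ : ∃ Ω', Ω' = ∏ c ∈ Z, om (w' c) := ⟨_, rfl⟩
  obtain ⟨Ψ, hΨ⟩ : ∃ Ψ, Ψ = ∏ c ∈ Z, ps (w c) := ⟨_, rfl⟩
  obtain ⟨Ψ', hΨ'⟩ : ∃ Ψ', Ψ' = ∏ c ∈ Z, ps (w' c) := ⟨_, rfl⟩
  obtain ⟨α, hα⟩ : ∃ α, α = ∏ c ∈ Z, dl (w c) := ⟨_, rfl⟩
  obtain ⟨α', hα'⟩ : ∃ α', α' = ∏ c ∈ Z, dl (w' c) := ⟨_, rfl⟩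
  have hΩ0 : 0 ≤ Ω := by rw [hΩ]; exact Finset.prod_nonneg fun _ _ => (om_pos _).le
  have hΩ0' : 0 ≤ Ω' := by rw [hΩ']; exact Finset.prod_nonneg fun _ _ => (om_pos _).le
  have hα0 : 0 ≤ α := by rw [hα]; exact Finset.prod_nonneg fun _ _ => dl_nonneg _
  have hα0' : 0 ≤ α' := by rw [hα']; exact Finset.prod_nonneg fun _ _ => dl_nonneg _
  have hΨΩ : |Ψ| ≤ Ω := by
    rw [hΨ, hΩ, Finset.abs_prod]
    exact Finset.prod_le_prod (fun _ _ => abs_nonneg _) fun _ _ => abs_ps_le _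
  have hΨΩ' : |Ψ'| ≤ Ω' := by
    rw [hΨ', hΩ', Finset.abs_prod]
    exact Finset.prod_le_prod (fun _ _ => abs_nonneg _) fun _ _ => abs_ps_le _
  rw [← hΩ, ← hΩ', ← hΨ, ← hΨ', ← hα, ← hα']
  obtain ⟨o', ho'⟩ : ∃ o' : ℝ, o' = if (∑ c ∈ Z, w' c = - R0 - ∑ c ∈ Z, w c ∧
            ∃ c ∈ Z, w' c ≠ 0) then 1 else 0 := ⟨_, rfl⟩
  obtain ⟨o, ho⟩ : ∃ o : ℝ, o = if (∑ c ∈ Z, w c = - R0 - ∑ c ∈ Z, w' c ∧
            ∃ c ∈ Z, w c ≠ 0) then 1 else 0 := ⟨_, rfl⟩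
  rw [← ho, ← ho']
  have ho0 : 0 ≤ o := by rw [ho]; split_ifs <;> norm_num
  have ho0' : 0 ≤ o' := by rw [ho']; split_ifs <;> norm_num
  have hE : 0 ≤ (Ω * Nf * (1 / σ * α' + σ * (Ω' * o')) + Ω' * Ng * (1 / σ * α + σ * (Ω * o)))
      / 2 := by positivity
  have hT : 0 ≤ θ / 2 * (Ω * Nf * Ω' + Ω * (Ω' * Ng)) := by positivity
  -- the case of a nonzero sum
  have hbig : R0 + ∑ c ∈ Z, w c + ∑ c ∈ Z, w' c ≠ 0 →
      |Ψ * Ψ' * I| ≤ θ / 2 * (Ω * Nf * Ω' + Ω * (Ω' * Ng)) := by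
    intro h
    rw [abs_mul, abs_mul]
    have h1 : |Ψ| * |Ψ'| ≤ Ω * Ω' := mul_le_mul hΨΩ hΨΩ' (abs_nonneg _) hΩ0
    refine (mul_le_mul h1 (hI1 h) (abs_nonneg _) (by positivity)).trans (le_of_eq ?_)
    ring
  by_cases hw : ∀ c ∈ Z, w c = 0
  · have hs : ∑ c ∈ Z, w c = 0 := Finset.sum_eq_zero hw
    have hΩe : Ω = α := by
      rw [hΩ, hα]
      exact Finset.prod_congr rfl fun c hc => by rw [hw c hc, dl_zero, om_zero]
    by_cases hw' : ∀ c ∈ Z, w' c = 0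
    · have hs' : ∑ c ∈ Z, w' c = 0 := Finset.sum_eq_zero hw'
      by_cases hR : R0 = 0
      · have hI := hI0 (by rw [hR, hs, hs']; ring)
        have hq := q_pos (F := F)
        have e1 : Ψ = ((Fintype.card F : ℝ) - 1) ^ Z.card := by
          rw [hΨ, Finset.prod_congr rfl fun c hc => by rw [hw c hc, ps_zero], Finset.prod_const]
        have e2 : Ψ' = ((Fintype.card F : ℝ) - 1) ^ Z.card := by
          rw [hΨ', Finset.prod_congr rfl fun c hc => by rw [hw' c hc, ps_zero],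
            Finset.prod_const]
        have e3 : α = (Fintype.card F : ℝ) ^ Z.card := by
          rw [hα, Finset.prod_congr rfl fun c hc => by rw [hw c hc, dl_zero], Finset.prod_const]
        have e4 : α' = (Fintype.card F : ℝ) ^ Z.card := by
          rw [hα', Finset.prod_congr rfl fun c hc => by rw [hw' c hc, dl_zero],
            Finset.prod_const]
        have h0 : Ψ * Ψ' * I + (if R0 = 0 then 1 else 0)
            * (((Fintype.card F : ℝ) - 1) / Fintype.card F) ^ (2 * Z.card)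
            * (α * fb * (α' * gb)) = 0 := by
          rw [hI, if_pos hR, e1, e2, e3, e4, div_pow, two_mul, pow_add, pow_add]
          field_simp
          ring
        rw [h0, abs_zero]
        linarith
      · rw [if_neg hR, zero_mul, zero_mul, add_zero]
        have := hbig (by rw [hs, hs', add_zero, add_zero]; exact hR)
        linarith
    · -- `w = 0`, `w' ≠ 0`
      have hα'0 : α' = 0 := by
        push Not at hw'
        obtain ⟨c, hc, h⟩ := hw'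
        rw [hα']
        exact Finset.prod_eq_zero hc (by simp [dl, h])
      rw [hα'0, zero_mul, mul_zero, mul_zero, add_zero]
      rw [hα'0] at hE
      by_cases hR : R0 + ∑ c ∈ Z, w c + ∑ c ∈ Z, w' c = 0
      · have ho1 : o' = 1 := by
          rw [ho', if_pos]
          refine ⟨by linear_combination hR, ?_⟩
          push Not at hw'
          exact hw'
        rw [hI0 hR, abs_mul, abs_mul, abs_neg]
        have h1 : |Ψ| * |Ψ'| ≤ Ω * Ω' := mul_le_mul hΨΩ hΨΩ' (abs_nonneg _) hΩ0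
        have h2 := two_mul_le fb gb σ hσ0
        have h3 : (σ * fb ^ 2 + 1 / σ * gb ^ 2) / 2 ≤ (σ * Nf + 1 / σ * Ng) / 2 := by
          have h4 := mul_le_mul_of_nonneg_left hf hσ0.le
          have h5 := mul_le_mul_of_nonneg_left hg (show 0 ≤ 1 / σ by positivity)
          linarith
        refine (mul_le_mul h1 (h2.trans h3) (abs_nonneg _) (by positivity)).trans ?_
        rw [ho1, ← hΩe]
        have h6 : Ω * Ω' * ((σ * Nf + 1 / σ * Ng) / 2)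
            = (Ω * Nf * (1 / σ * 0 + σ * (Ω' * 1)) + Ω' * Ng * (1 / σ * Ω)) / 2 := by ring
        rw [h6]
        have h7 : 0 ≤ Ω' * Ng * (σ * (Ω * o)) := by positivity
        nlinarith
      · have := hbig hR
        linarith
  · have hα00 : α = 0 := by
      push Not at hw
      obtain ⟨c, hc, h⟩ := hw
      rw [hα]
      exact Finset.prod_eq_zero hc (by simp [dl, h])
    rw [hα00, zero_mul, zero_mul, mul_zero, add_zero]
    rw [hα00] at hE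
    by_cases hR : R0 + ∑ c ∈ Z, w c + ∑ c ∈ Z, w' c = 0
    · have ho1 : o = 1 := by
        rw [ho, if_pos]
        refine ⟨by linear_combination hR, ?_⟩
        push Not at hw
        exact hw
      rw [hI0 hR, abs_mul, abs_mul, abs_neg]
      have h1 : |Ψ| * |Ψ'| ≤ Ω * Ω' := mul_le_mul hΨΩ hΨΩ' (abs_nonneg _) hΩ0
      by_cases hw' : ∀ c ∈ Z, w' c = 0
      · have hΩe : Ω' = α' := by
          rw [hΩ', hα']
          exact Finset.prod_congr rfl fun c hc => by rw [hw' c hc, dl_zero, om_zero]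
        have h2 := two_mul_le gb fb σ hσ0
        rw [mul_comm gb fb] at h2
        have h3 : (σ * gb ^ 2 + 1 / σ * fb ^ 2) / 2 ≤ (σ * Ng + 1 / σ * Nf) / 2 := by
          have h4 := mul_le_mul_of_nonneg_left hg hσ0.le
          have h5 := mul_le_mul_of_nonneg_left hf (show 0 ≤ 1 / σ by positivity)
          linarith
        refine (mul_le_mul h1 (h2.trans h3) (abs_nonneg _) (by positivity)).trans ?_
        rw [ho1, ← hΩe]
        have h6 : Ω * Ω' * ((σ * Ng + 1 / σ * Nf) / 2)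
            = (Ω * Nf * (1 / σ * Ω') + Ω' * Ng * (1 / σ * 0 + σ * (Ω * 1))) / 2 := by ring
        rw [h6]
        have h7 : 0 ≤ Ω * Nf * (σ * (Ω' * o')) := by positivity
        nlinarith
      · have ho1' : o' = 1 := by
          rw [ho', if_pos]
          refine ⟨by linear_combination hR, ?_⟩
          push Not at hw'
          exact hw'
        have h2 := two_mul_le fb gb 1 one_pos
        have h3 : (1 * fb ^ 2 + 1 / 1 * gb ^ 2) / 2 ≤ (σ * Nf + σ * Ng) / 2 := by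
          have h4 := mul_le_mul hσ hf (sq_nonneg _) hσ0.le
          have h5 := mul_le_mul hσ hg (sq_nonneg _) hσ0.le
          rw [div_one]
          linarith
        refine (mul_le_mul h1 (h2.trans h3) (abs_nonneg _) (by positivity)).trans ?_
        rw [ho1, ho1']
        have h6 : Ω * Ω' * ((σ * Nf + σ * Ng) / 2)
            = (Ω * Nf * (σ * (Ω' * 1)) + Ω' * Ng * (1 / σ * 0 + σ * (Ω * 1))) / 2 := by ring
        rw [h6]
        have h7 : 0 ≤ Ω * Nf * (1 / σ * α') := by positivity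
        nlinarith
    · have := hbig hR
      linarith

/-- The bound for one pair, in the coordinates `w`, `w'`. -/
theorem pair_abs (Z : Finset κ) (R0 : F) (σ θ : ℝ) (hσ : 1 ≤ σ)
    (hσq : σ ^ 2 = Fintype.card F) (hθ : 0 ≤ θ) (I : (κ → F) → (κ → F) → ℝ)
    (Nf Ng fb gb : (κ → F) → ℝ)
    (hI0 : ∀ w w', R0 + ∑ c ∈ Z, w c + ∑ c ∈ Z, w' c = 0 → I w w' = - (fb w * gb w'))
    (hI1 : ∀ w w', R0 + ∑ c ∈ Z, w c + ∑ c ∈ Z, w' c ≠ 0 →
      |I w w'| ≤ θ / 2 * (Nf w + Ng w'))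
    (hf : ∀ w, fb w ^ 2 ≤ Nf w) (hg : ∀ w, gb w ^ 2 ≤ Ng w) :
    |av (fun w : κ → F => av fun w' : κ → F =>
        (∏ c ∈ Z, ps (w c)) * (∏ c ∈ Z, ps (w' c)) * I w w')
      + (if R0 = 0 then 1 else 0) * (((Fintype.card F : ℝ) - 1) / Fintype.card F) ^ (2 * Z.card)
        * (av (fun w : κ → F => (∏ c ∈ Z, dl (w c)) * fb w)
          * av (fun w : κ → F => (∏ c ∈ Z, dl (w c)) * gb w))|
      ≤ (θ * 2 ^ Z.card + (1 + Z.card * 2 ^ Z.card) / σ) / 2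
        * (av (fun w : κ → F => (∏ c ∈ Z, om (w c)) * Nf w)
          + av (fun w : κ → F => (∏ c ∈ Z, om (w c)) * Ng w)) := by
  classical
  have hσ0 : 0 < σ := by linarith
  have hNf : ∀ w, 0 ≤ Nf w := fun w => (sq_nonneg _).trans (hf w)
  have hNg : ∀ w, 0 ≤ Ng w := fun w => (sq_nonneg _).trans (hg w)
  have hΩ0 : ∀ w : κ → F, 0 ≤ ∏ c ∈ Z, om (w c) :=
    fun w => Finset.prod_nonneg fun _ _ => (om_pos _).le
  obtain ⟨κ0, hκ0⟩ : ∃ κ0 : ℝ, κ0 = (if R0 = 0 then 1 else 0)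
    * (((Fintype.card F : ℝ) - 1) / Fintype.card F) ^ (2 * Z.card) := ⟨_, rfl⟩
  have h1 : av (fun w : κ → F => av fun w' : κ → F =>
        (∏ c ∈ Z, ps (w c)) * (∏ c ∈ Z, ps (w' c)) * I w w')
      + κ0 * (av (fun w : κ → F => (∏ c ∈ Z, dl (w c)) * fb w)
          * av (fun w : κ → F => (∏ c ∈ Z, dl (w c)) * gb w))
      = av (fun w : κ → F => av fun w' : κ → F =>
        ((∏ c ∈ Z, ps (w c)) * (∏ c ∈ Z, ps (w' c)) * I w w'
        + κ0 * (((∏ c ∈ Z, dl (w c)) * fb w) * ((∏ c ∈ Z, dl (w' c)) * gb w')))) := by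
    simp only [av_add, av_mul_left, av_mul_right]
  rw [← hκ0, h1]
  refine (abs_av_le _).trans ?_
  refine (av_mono fun w => abs_av_le _).trans ?_
  have h2 : ∀ w w' : κ → F, |(∏ c ∈ Z, ps (w c)) * (∏ c ∈ Z, ps (w' c)) * I w w'
        + κ0 * (((∏ c ∈ Z, dl (w c)) * fb w) * ((∏ c ∈ Z, dl (w' c)) * gb w'))|
      ≤ θ / 2 * (((∏ c ∈ Z, om (w c)) * Nf w) * (∏ c ∈ Z, om (w' c))
          + (∏ c ∈ Z, om (w c)) * ((∏ c ∈ Z, om (w' c)) * Ng w'))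
        + ((∏ c ∈ Z, om (w c)) * Nf w * (1 / σ * (∏ c ∈ Z, dl (w' c))
          + σ * ((∏ c ∈ Z, om (w' c)) * if (∑ c ∈ Z, w' c = - R0 - ∑ c ∈ Z, w c ∧
            ∃ c ∈ Z, w' c ≠ 0) then 1 else 0))
          + (∏ c ∈ Z, om (w' c)) * Ng w' * (1 / σ * (∏ c ∈ Z, dl (w c))
          + σ * ((∏ c ∈ Z, om (w c)) * if (∑ c ∈ Z, w c = - R0 - ∑ c ∈ Z, w' c ∧
            ∃ c ∈ Z, w c ≠ 0) then 1 else 0))) / 2 := by
    intro w w'
    rw [hκ0]
    exact pair_pt Z R0 σ θ hσ hθ w w' (I w w') (Nf w) (Ng w') (fb w) (gb w') (hI0 w w')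
      (hI1 w w') (hf w) (hg w')
  refine (av_mono fun w => av_mono (h2 w)).trans ?_
  have hΩav : av (fun w : κ → F => ∏ c ∈ Z, om (w c)) ≤ 2 ^ Z.card := by
    rw [av_prod]
    exact pow_le_pow_left₀ (av_nonneg fun x => (om_pos x).le) av_om_le _
  have hoff : ∀ τ : F, av (fun w' : κ → F => 1 / σ * (∏ c ∈ Z, dl (w' c))
          + σ * ((∏ c ∈ Z, om (w' c)) * if (∑ c ∈ Z, w' c = τ ∧
            ∃ c ∈ Z, w' c ≠ 0) then 1 else 0)) ≤ (1 + Z.card * 2 ^ Z.card) / σ := by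
    intro τ
    rw [av_add, av_mul_left, av_mul_left, av_prod, av_dl, one_pow, mul_one]
    have h3 := mul_le_mul_of_nonneg_left (av_off_le Z Z (Finset.Subset.refl _) τ) hσ0.le
    refine (add_le_add le_rfl h3).trans (le_of_eq ?_)
    rw [← hσq]
    field_simp
  obtain ⟨A, hA⟩ : ∃ A, A = av (fun w : κ → F => (∏ c ∈ Z, om (w c)) * Nf w) := ⟨_, rfl⟩
  obtain ⟨A', hA'⟩ : ∃ A', A' = av (fun w : κ → F => (∏ c ∈ Z, om (w c)) * Ng w) := ⟨_, rfl⟩
  have hA0 : 0 ≤ A := by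
    rw [hA]; exact av_nonneg fun w => mul_nonneg (hΩ0 w) (hNf w)
  have hA0' : 0 ≤ A' := by
    rw [hA']; exact av_nonneg fun w => mul_nonneg (hΩ0 w) (hNg w)
  have e1 : av (fun w : κ → F => av fun w' : κ → F => ((∏ c ∈ Z, om (w c)) * Nf w)
      * (∏ c ∈ Z, om (w' c))) ≤ A * 2 ^ Z.card := by
    simp only [av_mul_left, av_mul_right]
    rw [← hA]
    exact mul_le_mul_of_nonneg_left hΩav hA0
  have e2 : av (fun w : κ → F => av fun w' : κ → F => (∏ c ∈ Z, om (w c))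
      * ((∏ c ∈ Z, om (w' c)) * Ng w')) ≤ 2 ^ Z.card * A' := by
    simp only [av_mul_left, av_mul_right]
    rw [← hA']
    exact mul_le_mul_of_nonneg_right hΩav hA0'
  have e3 : av (fun w : κ → F => av fun w' : κ → F => (∏ c ∈ Z, om (w c)) * Nf w
      * (1 / σ * (∏ c ∈ Z, dl (w' c)) + σ * ((∏ c ∈ Z, om (w' c)) *
        if (∑ c ∈ Z, w' c = - R0 - ∑ c ∈ Z, w c ∧ ∃ c ∈ Z, w' c ≠ 0) then 1 else 0)))
      ≤ A * ((1 + Z.card * 2 ^ Z.card) / σ) := by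
    rw [hA, ← av_mul_right]
    refine av_mono fun w => ?_
    rw [av_mul_left]
    exact mul_le_mul_of_nonneg_left (hoff _) (mul_nonneg (hΩ0 w) (hNf w))
  have e4 : av (fun w : κ → F => av fun w' : κ → F => (∏ c ∈ Z, om (w' c)) * Ng w'
      * (1 / σ * (∏ c ∈ Z, dl (w c)) + σ * ((∏ c ∈ Z, om (w c)) *
        if (∑ c ∈ Z, w c = - R0 - ∑ c ∈ Z, w' c ∧ ∃ c ∈ Z, w c ≠ 0) then 1 else 0)))
      ≤ A' * ((1 + Z.card * 2 ^ Z.card) / σ) := by
    rw [av_comm, hA', ← av_mul_right]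
    refine av_mono fun w' => ?_
    rw [av_mul_left]
    exact mul_le_mul_of_nonneg_left (hoff _) (mul_nonneg (hΩ0 w') (hNg w'))
  rw [← hA, ← hA']
  have e5 : av (fun w : κ → F => av fun w' : κ → F =>
      θ / 2 * (((∏ c ∈ Z, om (w c)) * Nf w) * (∏ c ∈ Z, om (w' c))
          + (∏ c ∈ Z, om (w c)) * ((∏ c ∈ Z, om (w' c)) * Ng w'))
        + ((∏ c ∈ Z, om (w c)) * Nf w * (1 / σ * (∏ c ∈ Z, dl (w' c))
          + σ * ((∏ c ∈ Z, om (w' c)) * if (∑ c ∈ Z, w' c = - R0 - ∑ c ∈ Z, w c ∧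
            ∃ c ∈ Z, w' c ≠ 0) then 1 else 0))
          + (∏ c ∈ Z, om (w' c)) * Ng w' * (1 / σ * (∏ c ∈ Z, dl (w c))
          + σ * ((∏ c ∈ Z, om (w c)) * if (∑ c ∈ Z, w c = - R0 - ∑ c ∈ Z, w' c ∧
            ∃ c ∈ Z, w c ≠ 0) then 1 else 0))) / 2)
      = θ / 2 * (av (fun w : κ → F => av fun w' : κ → F => ((∏ c ∈ Z, om (w c)) * Nf w)
      * (∏ c ∈ Z, om (w' c))) + av (fun w : κ → F => av fun w' : κ → F => (∏ c ∈ Z, om (w c))
      * ((∏ c ∈ Z, om (w' c)) * Ng w')))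
      + (av (fun w : κ → F => av fun w' : κ → F => (∏ c ∈ Z, om (w c)) * Nf w
      * (1 / σ * (∏ c ∈ Z, dl (w' c)) + σ * ((∏ c ∈ Z, om (w' c)) *
        if (∑ c ∈ Z, w' c = - R0 - ∑ c ∈ Z, w c ∧ ∃ c ∈ Z, w' c ≠ 0) then 1 else 0)))
      + av (fun w : κ → F => av fun w' : κ → F => (∏ c ∈ Z, om (w' c)) * Ng w'
      * (1 / σ * (∏ c ∈ Z, dl (w c)) + σ * ((∏ c ∈ Z, om (w c)) *
        if (∑ c ∈ Z, w c = - R0 - ∑ c ∈ Z, w' c ∧ ∃ c ∈ Z, w c ≠ 0) then 1 else 0))))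
        * (1 / 2) := by
    rw [← av_add, ← av_add, ← av_mul_left, ← av_mul_right, ← av_add]
    refine av_congr fun w => ?_
    rw [← av_add, ← av_add, ← av_mul_left, ← av_mul_right, ← av_add]
    refine av_congr fun w' => ?_
    ring
  rw [e5]
  have h3 := mul_le_mul_of_nonneg_left (add_le_add e1 e2) (show 0 ≤ θ / 2 by positivity)
  nlinarith [add_le_add e3 e4]

end abs

end Pool.Agent.Lib.SDF3
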