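import Pool.Agent.Lib.SDF3.Cross
import Pool.Agent.Lib.SDF3.Dec

/-!
Almost minimal decompositions.
-/

set_option autoImplicit false

namespace Pool.Agent.Lib.SDF3

open Finset Function
open Pool.Agent.Lib.SDF (av av_add av_sub av_neg av_mul_left av_mul_right av_zero av_const av_mono
  av_nonneg av_finset_sum av_comm abs_av_le av_congr sum_eq_card_mul_av degLE Junta)

variable {κ S F B : Type} [Fintype κ] [LinearOrder κ] [Fintype S] [Nonempty S] [Field F]
  [Fintype F] [DecidableEq F] [Fintype B] [Nonempty B] {e : κ → κ → S → S → F} {P : S → B}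
  {D : (κ → B) → F} {θ : ℝ}

/-- The quadratic functional of a decomposition. -/
noncomputable def Phi (e : κ → κ → S → S → F) (Λ l : ℝ) (G : κ → (κ → S) → ℝ) : ℝ :=
  ∑ b, av fun z => (pp e dl (univ.erase b) z + l * os e Λ (univ.erase b) z) * G b z ^ 2

/-- The weighted norm of a function. -/
noncomputable def NN (e : κ → κ → S → S → F) (Λ : ℝ) (b : κ) (g : (κ → S) → ℝ) : ℝ :=
  av fun z => os e Λ (univ.erase b) z * g z ^ 2

theorem NN_nonneg {Λ : ℝ} (hΛ : 0 ≤ Λ) (b : κ) (g : (κ → S) → ℝ) : 0 ≤ NN e Λ b g :=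
  av_nonneg fun z => mul_nonneg (os_nonneg hΛ _ _) (sq_nonneg _)

theorem hf_indep_a {a b : κ} (hab : a ≠ b) (ga gb : (κ → S) → ℝ)
    (hga : ∀ z s, ga (update z a s) = ga z) (z : κ → S) (s : S) :
    hf e a b ga gb (update z a s) = hf e a b ga gb z := by
  classical
  have haZ : a ∉ (univ.erase b).erase a := Finset.notMem_erase a _
  unfold hf
  refine if_congr (cl_congr (upd_ne haZ z s)) ?_ rfl
  congr 1
  · unfold pav
    refine av_congr fun s' => ?_
    beta_reduce
    rw [st_congr dl a (upd_ne haZ z s), update_idem]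
  · unfold pav
    refine av_congr fun t => ?_
    beta_reduce
    rw [st_congr dl b (upd_ne haZ z s), update_comm hab, hga]

theorem hf_indep_b {a b : κ} (hab : a ≠ b) (ga gb : (κ → S) → ℝ)
    (hgb : ∀ z s, gb (update z b s) = gb z) (z : κ → S) (s : S) :
    hf e a b ga gb (update z b s) = hf e a b ga gb z := by
  classical
  have hbZ : b ∉ (univ.erase b).erase a :=
    fun h => Finset.notMem_erase b univ (Finset.mem_of_mem_erase h)
  unfold hf
  refine if_congr (cl_congr (upd_ne hbZ z s)) ?_ rfl
  congr 1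
  · unfold pav
    refine av_congr fun s' => ?_
    beta_reduce
    rw [st_congr dl a (upd_ne hbZ z s), update_comm hab.symm, hgb]
  · unfold pav
    refine av_congr fun t => ?_
    beta_reduce
    rw [st_congr dl b (upd_ne hbZ z s), update_idem]

/-- The perturbed decomposition. -/
theorem isDec_pert {g : (κ → S) → ℝ} {G : κ → (κ → S) → ℝ} (hG : IsDec g G) {a b : κ}
    (hab : a ≠ b) (τ : ℝ) :
    IsDec g fun c z => G c z + ((if c = a then τ else 0) - (if c = b then τ else 0))
      * hf e a b (G a) (G b) z := by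
  constructor
  · intro c z s
    by_cases hca : c = a
    · subst hca
      rw [hG.indep, hf_indep_a hab _ _ (hG.indep c)]
    · by_cases hcb : c = b
      · subst hcb
        rw [hG.indep, hf_indep_b hab _ _ (hG.indep c)]
      · rw [hG.indep, if_neg hca, if_neg hcb, sub_zero, zero_mul, zero_mul]
  · intro z
    rw [Finset.sum_add_distrib, hG.sum, ← Finset.sum_mul, Finset.sum_sub_distrib]
    simp

/-- The functional at the perturbed decomposition. -/
theorem Phi_pert (Λ l : ℝ) (G : κ → (κ → S) → ℝ) {a b : κ} (hab : a ≠ b) (τ : ℝ)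
    (h : (κ → S) → ℝ) :
    Phi e Λ l (fun c z => G c z + ((if c = a then τ else 0) - (if c = b then τ else 0)) * h z)
      = Phi e Λ l G
        + (2 * τ * av (fun z => (pp e dl (univ.erase a) z + l * os e Λ (univ.erase a) z)
            * (G a z * h z))
          + τ ^ 2 * av (fun z => (pp e dl (univ.erase a) z + l * os e Λ (univ.erase a) z)
            * h z ^ 2))
        + (- (2 * τ * av (fun z => (pp e dl (univ.erase b) z + l * os e Λ (univ.erase b) z)
            * (G b z * h z)))
          + τ ^ 2 * av (fun z => (pp e dl (univ.erase b) z + l * os e Λ (univ.erase b) z)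
            * h z ^ 2)) := by
  unfold Phi
  have h1 : ∀ c, av (fun z => (pp e dl (univ.erase c) z + l * os e Λ (univ.erase c) z)
        * (G c z + ((if c = a then τ else 0) - (if c = b then τ else 0)) * h z) ^ 2)
      = av (fun z => (pp e dl (univ.erase c) z + l * os e Λ (univ.erase c) z) * G c z ^ 2)
        + (if c = a then (2 * τ * av (fun z => (pp e dl (univ.erase c) z
            + l * os e Λ (univ.erase c) z) * (G c z * h z))
          + τ ^ 2 * av (fun z => (pp e dl (univ.erase c) z + l * os e Λ (univ.erase c) z)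
            * h z ^ 2)) else 0)
        + (if c = b then (- (2 * τ * av (fun z => (pp e dl (univ.erase c) z
            + l * os e Λ (univ.erase c) z) * (G c z * h z)))
          + τ ^ 2 * av (fun z => (pp e dl (univ.erase c) z + l * os e Λ (univ.erase c) z)
            * h z ^ 2)) else 0) := by
    intro c
    by_cases hca : c = a
    · have hcb : c ≠ b := fun h => hab (hca ▸ h)
      simp only [if_pos hca, if_neg hcb, sub_zero, add_zero]
      rw [← av_mul_left, ← av_mul_left, ← av_add, ← av_add]
      refine av_congr fun z => ?_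
      ring
    · by_cases hcb : c = b
      · simp only [if_neg hca, if_pos hcb, zero_sub, add_zero]
        rw [← av_mul_left, ← av_mul_left, ← av_neg, ← av_add, ← av_add]
        refine av_congr fun z => ?_
        ring
      · simp only [if_neg hca, if_neg hcb, sub_zero, add_zero, zero_mul]
  simp only [h1]
  rw [Finset.sum_add_distrib, Finset.sum_add_distrib]
  simp

variable (hG : Gad e P D θ)
include hG

theorem Gad.lin_b {a b : κ} (hab : a ≠ b) (gb h : (κ → S) → ℝ)
    (hh : ∀ z s, h (update z a s) = h z) :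
    av (fun z => pp e dl (univ.erase b) z * (gb z * h z))
      = av fun z => pp e dl ((univ.erase b).erase a) z * (h z
        * pav e a ((univ.erase b).erase a) z (fun s => gb (update z a s))) := by
  obtain ⟨Z, hZ⟩ : ∃ Z : Finset κ, Z = (univ.erase b).erase a := ⟨_, rfl⟩
  have haZ : a ∉ Z := by rw [hZ]; exact Finset.notMem_erase a _
  have hia : insert a Z = univ.erase b := by
    rw [hZ]; exact Finset.insert_erase (Finset.mem_erase.2 ⟨hab, mem_univ a⟩)
  rw [← hZ, ← hia, ← av_resample a]
  refine av_congr fun z => ?_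
  unfold pav
  rw [← av_mul_left, ← av_mul_left]
  refine av_congr fun s => ?_
  rw [pp_insert_upd hG.symm dl haZ, hh]
  ring

theorem Gad.quad_b {a b : κ} (hab : a ≠ b) (h : (κ → S) → ℝ)
    (hh : ∀ z s, h (update z a s) = h z) :
    av (fun z => pp e dl (univ.erase b) z * h z ^ 2)
      = av fun z => pp e dl ((univ.erase b).erase a) z * h z ^ 2 := by
  obtain ⟨Z, hZ⟩ : ∃ Z : Finset κ, Z = (univ.erase b).erase a := ⟨_, rfl⟩
  have haZ : a ∉ Z := by rw [hZ]; exact Finset.notMem_erase a _
  have hia : insert a Z = univ.erase b := by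
    rw [hZ]; exact Finset.insert_erase (Finset.mem_erase.2 ⟨hab, mem_univ a⟩)
  rw [← hZ, ← hia, ← av_resample a]
  refine av_congr fun z => ?_
  simp only [hh]
  rw [av_mul_right, hG.av_rho ⟨b, by rw [hia]; exact Finset.notMem_erase b _⟩ haZ]

theorem Gad.quad_os {Λ : ℝ} (hΛ : 0 ≤ Λ) (hΛq : Λ ≤ Fintype.card F) {a b : κ} (hab : a ≠ b)
    (h : (κ → S) → ℝ) (hh : ∀ z s, h (update z a s) = h z)
    (hc : ∀ z, ¬ Cl e ((univ.erase b).erase a) z → h z = 0) :
    av (fun z => os e Λ (univ.erase b) z * h z ^ 2)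
      ≤ CE κ * av fun z => pp e dl ((univ.erase b).erase a) z * h z ^ 2 := by
  obtain ⟨Z, hZ⟩ : ∃ Z : Finset κ, Z = (univ.erase b).erase a := ⟨_, rfl⟩
  have haZ : a ∉ Z := by rw [hZ]; exact Finset.notMem_erase a _
  have hia : insert a Z = univ.erase b := by
    rw [hZ]; exact Finset.insert_erase (Finset.mem_erase.2 ⟨hab, mem_univ a⟩)
  rw [← hZ] at hc ⊢
  rw [← hia, ← av_resample a, ← av_mul_left]
  refine av_mono fun z => ?_
  simp only [hh]
  rw [av_mul_right]
  have h1 := hG.ext hΛ hΛq (v := a) (Y := Z)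
    ⟨b, by rw [hia]; exact Finset.notMem_erase b _⟩ haZ z
  refine (mul_le_mul_of_nonneg_right h1 (sq_nonneg _)).trans (le_of_eq ?_)
  by_cases hcl : Cl e Z z
  · rw [os_of_cl _ hcl, mul_assoc]
  · rw [hc z hcl]; ring

/-- The difference function is small for an almost minimal decomposition. -/
theorem Gad.pert {Λ : ℝ} (hΛ : 0 ≤ Λ) (hΛq : Λ ≤ Fintype.card F) {l : ℝ} (hl : 0 < l)
    (hl1 : l * CE κ ≤ 1) {g : (κ → S) → ℝ} {G : κ → (κ → S) → ℝ} (hD : IsDec g G) (ε : ℝ)
    (hmin : ∀ G', IsDec g G' → Phi e Λ l G ≤ Phi e Λ l G' + ε) {a b : κ} (hab : a ≠ b) :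
    av (fun z => pp e dl ((univ.erase b).erase a) z * hf e a b (G a) (G b) z ^ 2)
      ≤ 8 * ε + 4 * l ^ 2 * CE κ * (NN e Λ a (G a) + NN e Λ b (G b)) := by
  classical
  obtain ⟨h, hh⟩ : ∃ h, h = hf e a b (G a) (G b) := ⟨_, rfl⟩
  have hha : ∀ z s, h (update z a s) = h z := by
    intro z s; rw [hh]; exact hf_indep_a hab _ _ (hD.indep a) z s
  have hhb : ∀ z s, h (update z b s) = h z := by
    intro z s; rw [hh]; exact hf_indep_b hab _ _ (hD.indep b) z s
  have hcl : ∀ z, ¬ Cl e ((univ.erase b).erase a) z → h z = 0 := by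
    intro z hz; rw [hh]; unfold hf; rw [if_neg hz]
  have h1 := hmin _ (isDec_pert (e := e) hD hab (1 / 8))
  rw [← hh, Phi_pert Λ l G hab (1 / 8) h] at h1
  rw [← hh]
  have hZ' : (univ.erase a).erase b = (univ.erase b).erase a := Finset.erase_right_comm
  obtain ⟨X, hX⟩ : ∃ X, X = av (fun z => pp e dl ((univ.erase b).erase a) z * h z ^ 2) :=
    ⟨_, rfl⟩
  rw [← hX]
  have hX0 : 0 ≤ X := by
    rw [hX]; exact av_nonneg fun z => mul_nonneg (pp_nonneg dl dl_nonneg _ _) (sq_nonneg _)
  -- the linear part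
  have l1 := hG.lin_b hab (G b) h hha
  have l2 := hG.lin_b hab.symm (G a) h hhb
  rw [hZ'] at l2
  have l3 : av (fun z => pp e dl (univ.erase b) z * (G b z * h z))
      - av (fun z => pp e dl (univ.erase a) z * (G a z * h z)) = X := by
    rw [l1, l2, ← av_sub, hX]
    refine av_congr fun z => ?_
    by_cases hc : Cl e ((univ.erase b).erase a) z
    · have : h z = pav e a ((univ.erase b).erase a) z (fun s => G b (update z a s))
          - pav e b ((univ.erase b).erase a) z (fun t => G a (update z b t)) := by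
        rw [hh]; unfold hf; rw [if_pos hc]
      rw [this]; ring
    · rw [pp_dl_of_not_cl hc]; ring
  -- the quadratic part
  have q1 := hG.quad_b hab h hha
  have q2 := hG.quad_b hab.symm h hhb
  rw [hZ'] at q2
  rw [← hX] at q1 q2
  have o1 := hG.quad_os hΛ hΛq hab h hha hcl
  have o2 := hG.quad_os hΛ hΛq hab.symm h hhb (by rw [hZ']; exact hcl)
  rw [hZ'] at o2
  rw [← hX] at o1 o2
  -- the mixed parts
  have hCE := CE_pos (κ := κ)
  have hCE0 : 0 < CE κ := by linarith
  have mix : ∀ c, av (fun z => os e Λ (univ.erase c) z * h z ^ 2) ≤ CE κ * X →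
      |av (fun z => os e Λ (univ.erase c) z * (G c z * h z))|
      ≤ (1 / (4 * l) * X + 4 * l * CE κ * NN e Λ c (G c)) / 2 := by
    intro c hc
    refine (abs_av_le _).trans ?_
    have hk : 0 < 4 * l * CE κ := by positivity
    have h2 : ∀ z, |os e Λ (univ.erase c) z * (G c z * h z)|
        ≤ (4 * l * CE κ * (os e Λ (univ.erase c) z * G c z ^ 2)
          + 1 / (4 * l * CE κ) * (os e Λ (univ.erase c) z * h z ^ 2)) * (1 / 2) := by
      intro z
      rw [abs_mul, abs_of_nonneg (os_nonneg hΛ _ _)]
      have h3 := mul_le_mul_of_nonneg_left (two_mul_le (G c z) (h z) _ hk)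
        (os_nonneg hΛ (e := e) (univ.erase c) z)
      refine h3.trans (le_of_eq ?_)
      ring
    refine (av_mono h2).trans ?_
    rw [av_mul_right, av_add, av_mul_left, av_mul_left]
    have h4 : 1 / (4 * l * CE κ) * av (fun z => os e Λ (univ.erase c) z * h z ^ 2)
        ≤ 1 / (4 * l) * X := by
      refine (mul_le_mul_of_nonneg_left hc (by positivity)).trans (le_of_eq ?_)
      field_simp
    unfold NN
    linarith
  have m1 := mix b o1
  have m2 := mix a o2
  -- splitting of the averages
  have s1 : ∀ (c : κ) (f : (κ → S) → ℝ),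
      av (fun z => (pp e dl (univ.erase c) z + l * os e Λ (univ.erase c) z) * f z)
      = av (fun z => pp e dl (univ.erase c) z * f z)
        + l * av (fun z => os e Λ (univ.erase c) z * f z) := by
    intro c f
    rw [← av_mul_left, ← av_add]
    refine av_congr fun z => ?_
    ring
  rw [s1 a (fun z => G a z * h z), s1 b (fun z => G b z * h z), s1 a (fun z => h z ^ 2),
    s1 b (fun z => h z ^ 2), q1, q2] at h1
  have o1' := mul_le_mul_of_nonneg_left o1 hl.le
  have o2' := mul_le_mul_of_nonneg_left o2 hl.le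
  have hlX : l * (CE κ * X) ≤ X := by
    rw [← mul_assoc]
    exact (mul_le_mul_of_nonneg_right hl1 hX0).trans (by rw [one_mul])
  have m1' := mul_le_mul_of_nonneg_left ((neg_abs_le _).trans' (neg_le_neg m1)) hl.le
  have m2' := mul_le_mul_of_nonneg_left ((le_abs_self _).trans m2) hl.le
  have e1 : l * ((1 / (4 * l) * X + 4 * l * CE κ * NN e Λ a (G a)) / 2)
      = X / 8 + 2 * l ^ 2 * CE κ * NN e Λ a (G a) := by
    field_simp
    ring
  have e2 : l * -((1 / (4 * l) * X + 4 * l * CE κ * NN e Λ b (G b)) / 2)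
      = - (X / 8 + 2 * l ^ 2 * CE κ * NN e Λ b (G b)) := by
    field_simp
    ring
  rw [e1] at m2'
  rw [e2] at m1'
  nlinarith

end Pool.Agent.Lib.SDF3
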