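import Pool.Agent.Lib.SDF3.Pert

/-!
The test function and its properties.
-/

set_option autoImplicit false

namespace Pool.Agent.Lib.SDF3

open Finset Function
open Pool.Agent.Lib.SDF (av av_add av_sub av_neg av_mul_left av_mul_right av_zero av_const av_mono
  av_nonneg av_finset_sum av_comm abs_av_le av_congr sum_eq_card_mul_av degLE Junta)

variable {κ S F B : Type} [Fintype κ] [LinearOrder κ] [Fintype S] [Nonempty S] [Field F]
  [Fintype F] [DecidableEq F] [Fintype B] [Nonempty B] {e : κ → κ → S → S → F} {P : S → B}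
  {D : (κ → B) → F} {θ : ℝ}

/-- The test function. -/
noncomputable def TW (e : κ → κ → S → S → F) (Λ δ : ℝ) (z : κ → S) : ℝ :=
  - pp e ps univ z + δ * MM e Λ z

/-- The error in the diagonal terms. -/
noncomputable def et1 (κ : Type) [Fintype κ] (F : Type) [Fintype F] (σ θ : ℝ) : ℝ :=
  θ + (Fintype.card κ : ℝ) ^ 2 / Fintype.card F + 1 / σ

/-- The error in the cross terms. -/
noncomputable def et2 (κ : Type) [Fintype κ] (σ θ : ℝ) : ℝ :=
  (θ * 2 ^ Fintype.card κ + (1 + Fintype.card κ * 2 ^ Fintype.card κ) / σ) / 2 + 1 / (2 * σ)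

/-- There are almost minimal decompositions. -/
theorem exists_min {Λ : ℝ} (hΛ : 0 ≤ Λ) {l : ℝ} (hl : 0 < l) {g : (κ → S) → ℝ}
    {G0 : κ → (κ → S) → ℝ} (hG0 : IsDec g G0) (ε : ℝ) (hε : 0 < ε) :
    ∃ G, IsDec g G ∧ Phi e Λ l G ≤ Phi e Λ l G0 + ε ∧
      ∀ G', IsDec g G' → Phi e Λ l G ≤ Phi e Λ l G' + ε := by
  set A : Set ℝ := {x | ∃ G : κ → (κ → S) → ℝ, IsDec g G ∧ Phi e Λ l G = x} with hA
  have hne : A.Nonempty := ⟨_, G0, hG0, rfl⟩
  have hbd : BddBelow A := by
    refine ⟨0, ?_⟩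
    rintro x ⟨G, _, rfl⟩
    refine Finset.sum_nonneg fun b _ => av_nonneg fun z => mul_nonneg ?_ (sq_nonneg _)
    exact add_nonneg (pp_nonneg dl dl_nonneg _ _) (mul_nonneg hl.le (os_nonneg hΛ _ _))
  obtain ⟨x, ⟨G, hG, rfl⟩, hx⟩ := Real.lt_sInf_add_pos hne hε
  refine ⟨G, hG, ?_, ?_⟩
  · have := csInf_le hbd ⟨G0, hG0, rfl⟩
    linarith
  · intro G' hG'
    have := csInf_le hbd ⟨G', hG', rfl⟩
    linarith

variable (hG : Gad e P D θ)
include hG

theorem Gad.S3' (hu : 3 ≤ Fintype.card κ) (hθ : 0 ≤ θ) {σ : ℝ} (hσ : 0 < σ) (b : κ)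
    (z : κ → S) :
    |av (fun s => - pp e ps univ (update z b s)) - pp e dl (univ.erase b) z|
      ≤ et1 κ F σ θ * os e σ (univ.erase b) z := by
  refine (hG.S3 hu hθ hσ b z).trans ?_
  refine mul_le_mul_of_nonneg_right ?_ (os_nonneg hσ.le _ _)
  unfold et1
  have h1 : ((pairs (univ.erase b)).card : ℝ) ≤ (Fintype.card κ : ℝ) ^ 2 := by
    have h2 : (pairs (univ.erase b)).card ≤ Fintype.card (κ × κ) := Finset.card_le_univ _
    rw [Fintype.card_prod] at h2
    rw [pow_two]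
    exact_mod_cast h2
  have h2 := div_le_div_of_nonneg_right h1 (q_pos (F := F)).le
  linarith

/-- The diagonal terms. -/
theorem Gad.diag (hu : 3 ≤ Fintype.card κ) (hθ : 0 ≤ θ) {σ : ℝ} (hσ : 0 < σ) (b : κ)
    (g : (κ → S) → ℝ) (hg : ∀ z s, g (update z b s) = g z) :
    - (et1 κ F σ θ * NN e σ b g) ≤ av fun z => - pp e ps univ z * (g z * g z) := by
  rw [← av_resample b]
  unfold NN
  rw [← av_mul_left, ← av_neg]
  refine av_mono fun z => ?_
  simp only [hg]
  rw [av_mul_right]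
  have h1 := (abs_le.1 (hG.S3' hu hθ hσ b z)).1
  have h2 : 0 ≤ pp e dl (univ.erase b) z := pp_nonneg dl dl_nonneg _ _
  have h3 : - (et1 κ F σ θ * os e σ (univ.erase b) z)
      ≤ av (fun s => - pp e ps univ (update z b s)) := by linarith
  have h4 := mul_le_mul_of_nonneg_right h3 (mul_self_nonneg (g z))
  refine le_trans (le_of_eq ?_) h4
  ring

/-- The test function is positive semidefinite on the functions of degree at most `k - 1`. -/
theorem Gad.psd (hu : 3 ≤ Fintype.card κ) (hθ : 0 ≤ θ) {σ : ℝ} (hσ : 1 ≤ σ)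
    (hσq : σ ^ 2 = Fintype.card F) {l δ : ℝ} (hl : 0 < l) (hl1 : l * CE κ ≤ 1)
    (hδ : (2 * Fintype.card κ * l * CE κ
        + (2 * Fintype.card κ * et2 κ σ θ + et1 κ F σ θ) / l)
        * (2 * Fintype.card κ * 4 ^ Fintype.card κ * CE κ ^ Fintype.card κ) ≤ δ)
    (g : (κ → S) → ℝ) (hg : g ∈ degLE κ S (Fintype.card κ - 1)) :
    0 ≤ av fun z => TW e σ δ z * g z ^ 2 := by
  classical
  have hσ0 : 0 < σ := by linarith
  have hσq' : σ ≤ Fintype.card F := by rw [← hσq]; nlinarith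
  have hκ : 0 < Fintype.card κ := by omega
  obtain ⟨u, hudef⟩ : ∃ u : ℝ, u = Fintype.card κ := ⟨_, rfl⟩
  have hu0 : 0 ≤ u := by rw [hudef]; positivity
  have hCE := CE_pos (κ := κ)
  have hCE0 : 0 < CE κ := by linarith
  have hl1' : l ≤ 1 := by nlinarith
  obtain ⟨C1, hC1⟩ : ∃ C1 : ℝ, C1 = 2 * Fintype.card κ * 4 ^ Fintype.card κ
    * CE κ ^ Fintype.card κ := ⟨_, rfl⟩
  have hC10 : 0 ≤ C1 := by rw [hC1]; positivity
  obtain ⟨η1, hη1⟩ : ∃ η1, η1 = et1 κ F σ θ := ⟨_, rfl⟩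
  obtain ⟨η2, hη2⟩ : ∃ η2, η2 = et2 κ σ θ := ⟨_, rfl⟩
  have hη10 : 0 ≤ η1 := by rw [hη1]; unfold et1; positivity
  have hη20 : 0 ≤ η2 := by rw [hη2]; unfold et2; positivity
  rw [← hC1, ← hη1, ← hη2, ← hudef] at hδ
  obtain ⟨Γ, hΓ⟩ : ∃ Γ, Γ = av fun z => MM e σ z * g z ^ 2 := ⟨_, rfl⟩
  have hMM0 : ∀ z : κ → S, 0 ≤ MM e σ z := fun z =>
    Finset.sum_nonneg fun c _ => os_nonneg hσ0.le _ _
  have hΓ0 : 0 ≤ Γ := by
    rw [hΓ]; exact av_nonneg fun z => mul_nonneg (hMM0 z) (sq_nonneg _)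
  obtain ⟨c2, hc2⟩ : ∃ c2, c2 = 2 * u * l * CE κ + (2 * u * η2 + η1) / l := ⟨_, rfl⟩
  have hc20 : 0 ≤ c2 := by rw [hc2]; positivity
  rw [← hc2] at hδ
  -- the decomposition
  obtain ⟨G0, hG0, hG0b⟩ := hG.exists_dec hσ0.le hσq' hκ g hg
  have hPhi0 : Phi e σ l G0 ≤ C1 * Γ := by
    unfold Phi
    have h1 : ∀ b, av (fun z => (pp e dl (univ.erase b) z + l * os e σ (univ.erase b) z)
        * G0 b z ^ 2) ≤ 2 * (4 ^ Fintype.card κ * CE κ ^ Fintype.card κ * Γ) := by
      intro b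
      rw [hΓ]
      refine le_trans ?_ (mul_le_mul_of_nonneg_left (hG0b b) (by norm_num : (0 : ℝ) ≤ 2))
      rw [← av_mul_left]
      refine av_mono fun z => ?_
      rw [← mul_assoc]
      refine mul_le_mul_of_nonneg_right ?_ (sq_nonneg _)
      have h2 := (pp_dl_le (e := e) (univ.erase b) z).trans (om_le_os hσ0.le (univ.erase b) z)
      have h3 := os_nonneg hσ0.le (e := e) (univ.erase b) z
      nlinarith
    refine (Finset.sum_le_sum fun b _ => h1 b).trans (le_of_eq ?_)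
    rw [Finset.sum_const, Finset.card_univ, nsmul_eq_mul, hC1]
    ring
  refine le_of_forall_pos_le_add fun ε hε => ?_
  obtain ⟨ε1, hε1, hε1b⟩ : ∃ ε1 : ℝ, 0 < ε1 ∧ (2 * u ^ 2 + c2) * ε1 ≤ ε := by
    refine ⟨ε / (2 * u ^ 2 + c2 + 1), by positivity, ?_⟩
    rw [mul_div_assoc', div_le_iff₀ (by positivity)]
    nlinarith
  obtain ⟨G, hGd, hGΦ, hGmin⟩ := exists_min (e := e) hσ0.le hl hG0 ε1 hε1
  have hΦ : Phi e σ l G ≤ C1 * Γ + ε1 := by linarith
  obtain ⟨N, hN⟩ : ∃ N, N = ∑ b, NN e σ b (G b) := ⟨_, rfl⟩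
  have hNb0 : ∀ b, 0 ≤ NN e σ b (G b) := fun b => NN_nonneg hσ0.le b _
  have hN0 : 0 ≤ N := by rw [hN]; exact Finset.sum_nonneg fun b _ => hNb0 b
  have hNΦ : l * N ≤ C1 * Γ + ε1 := by
    refine le_trans ?_ hΦ
    rw [hN, Finset.mul_sum]
    unfold Phi
    refine Finset.sum_le_sum fun b _ => ?_
    unfold NN
    rw [← av_mul_left]
    refine av_mono fun z => ?_
    have h1 : 0 ≤ pp e dl (univ.erase b) z := pp_nonneg dl dl_nonneg _ _
    have h2 := mul_nonneg h1 (sq_nonneg (G b z))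
    nlinarith
  -- the terms
  have hterm : ∀ a b, - (2 * ε1) - (l ^ 2 * CE κ + η2) * (NN e σ a (G a) + NN e σ b (G b))
      - (if a = b then η1 * NN e σ a (G a) else 0)
      ≤ av fun z => - pp e ps univ z * (G a z * G b z) := by
    intro a b
    have ha0 := hNb0 a
    have hb0 := hNb0 b
    have hk : 0 ≤ (l ^ 2 * CE κ + η2) * (NN e σ a (G a) + NN e σ b (G b)) := by positivity
    by_cases hab : a = b
    · subst hab
      rw [if_pos rfl]
      have h1 := hG.diag hu hθ hσ0 a (G a) (hGd.indep a)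
      rw [← hη1] at h1
      linarith
    · rw [if_neg hab]
      have h1 := hG.cross hab σ hσ hσq hθ (G a) (G b) (hGd.indep a) (hGd.indep b)
      have h2 := hG.pert hσ0.le hσq' hl hl1 hGd ε1 hGmin hab
      have h3 : (θ * 2 ^ Fintype.card κ + (1 + Fintype.card κ * 2 ^ Fintype.card κ) / σ) / 2
          + 1 / (2 * σ) = η2 := by rw [hη2]; rfl
      rw [h3] at h1
      have h4 : av (fun z => os e σ (univ.erase b) z * G b z ^ 2)
          + av (fun z => os e σ (univ.erase a) z * G a z ^ 2)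
          = NN e σ b (G b) + NN e σ a (G a) := rfl
      rw [h4] at h1
      nlinarith
  -- the sum
  have hW0 : av (fun z => - pp e ps univ z * g z ^ 2)
      = ∑ a, ∑ b, av fun z => - pp e ps univ z * (G a z * G b z) := by
    rw [Finset.sum_congr rfl fun a _ => (av_finset_sum univ
      (fun b z => - pp e ps univ z * (G a z * G b z))).symm,
      ← av_finset_sum univ (fun a z => ∑ b, - pp e ps univ z * (G a z * G b z))]
    refine av_congr fun z => ?_
    rw [← hGd.sum z, pow_two, Finset.sum_mul_sum, Finset.mul_sum]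
    exact Finset.sum_congr rfl fun a _ => by rw [Finset.mul_sum]
  have hW1 : - (2 * u ^ 2 * ε1) - (2 * u * (l ^ 2 * CE κ + η2) + η1) * N
      ≤ av (fun z => - pp e ps univ z * g z ^ 2) := by
    rw [hW0]
    refine le_trans (le_of_eq ?_) (Finset.sum_le_sum fun a _ => Finset.sum_le_sum fun b _ =>
      hterm a b)
    simp only [Finset.sum_sub_distrib, ← Finset.mul_sum, Finset.sum_add_distrib,
      Finset.sum_const, Finset.card_univ, nsmul_eq_mul, Finset.sum_ite_eq, Finset.mem_univ,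
      if_true]
    rw [← hN, ← hudef]
    ring
  have htot : av (fun z => TW e σ δ z * g z ^ 2)
      = av (fun z => - pp e ps univ z * g z ^ 2) + δ * Γ := by
    rw [hΓ, ← av_mul_left, ← av_add]
    refine av_congr fun z => ?_
    unfold TW
    ring
  rw [htot]
  have hc2N : (2 * u * (l ^ 2 * CE κ + η2) + η1) * N = c2 * (l * N) := by
    rw [hc2]
    field_simp
    ring
  have h1 := mul_le_mul_of_nonneg_left hNΦ hc20
  have h2 := mul_le_mul_of_nonneg_right hδ hΓ0
  rw [hc2N] at hW1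
  nlinarith

/-- The average of the test function over one vertex. -/
theorem Gad.TW_av (hu : 3 ≤ Fintype.card κ) (hθ : 0 ≤ θ) {σ : ℝ} (hσ : 0 < σ) {δ : ℝ}
    (hδ : et1 κ F σ θ ≤ δ) (b : κ) (z : κ → S) :
    pp e dl (univ.erase b) z ≤ av fun s => TW e σ δ (update z b s) := by
  have h1 := (abs_le.1 (hG.S3' hu hθ hσ b z)).1
  have hos := os_nonneg hσ.le (e := e) (univ.erase b) z
  have hδ0 : 0 ≤ δ := by
    refine le_trans ?_ hδ
    unfold et1
    positivity
  have h2 : os e σ (univ.erase b) z ≤ av fun s => MM e σ (update z b s) := by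
    have h3 : ∀ s, os e σ (univ.erase b) z ≤ MM e σ (update z b s) := by
      intro s
      rw [← os_congr σ (upd_ne (Finset.notMem_erase b univ) z s)]
      exact os_le_MM hσ.le b _
    refine le_trans (le_of_eq (av_const _).symm) (av_mono h3)
  have h4 : av (fun s => TW e σ δ (update z b s))
      = av (fun s => - pp e ps univ (update z b s)) + δ * av fun s => MM e σ (update z b s) := by
    rw [← av_mul_left, ← av_add]
    rfl
  rw [h4]
  have h5 := mul_le_mul_of_nonneg_left h2 hδ0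
  have h6 := mul_le_mul_of_nonneg_right hδ hos
  linarith

/-- The test function against a nonnegative function of less than `k` coordinates. -/
theorem Gad.TW_local (hu : 3 ≤ Fintype.card κ) (hθ : 0 ≤ θ) {σ : ℝ} (hσ : 0 < σ) {δ : ℝ}
    (hδ : et1 κ F σ θ ≤ δ) (T : Finset κ) (hT : T.card < Fintype.card κ) (f : (κ → S) → ℝ)
    (hf : ∀ z z' : κ → S, (∀ v ∈ T, z v = z' v) → f z = f z') (hf0 : ∀ z, 0 ≤ f z) :
    0 ≤ av (fun z => TW e σ δ z * f z) ∧
      ((∀ z, Cl e T z → f z = 1) → 1 ≤ av fun z => TW e σ δ z * f z) := by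
  obtain ⟨b, hb⟩ : ∃ b, b ∉ T := by
    by_contra hcon
    push Not at hcon
    have : T = univ := Finset.eq_univ_iff_forall.2 hcon
    rw [this, Finset.card_univ] at hT
    omega
  have h1 : av (fun z => pp e dl (univ.erase b) z * f z) ≤ av fun z => TW e σ δ z * f z := by
    rw [← av_resample b (fun z => TW e σ δ z * f z)]
    refine av_mono fun z => ?_
    have h2 : ∀ s, f (update z b s) = f z := fun s => hf _ _ (upd_ne hb z s)
    simp only [h2]
    rw [av_mul_right]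
    exact mul_le_mul_of_nonneg_right (hG.TW_av hu hθ hσ hδ b z) (hf0 z)
  constructor
  · refine le_trans ?_ h1
    exact av_nonneg fun z => mul_nonneg (pp_nonneg dl dl_nonneg _ _) (hf0 z)
  · intro hcl
    refine le_trans (le_of_eq ?_) h1
    rw [← hG.mean_rho (univ.erase b) ⟨b, Finset.notMem_erase b univ⟩]
    refine av_congr fun z => ?_
    by_cases hc : Cl e (univ.erase b) z
    · have hsub : T ⊆ univ.erase b := fun v hv =>
        Finset.mem_erase.2 ⟨fun h => hb (h ▸ hv), mem_univ v⟩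
      rw [hcl z (cl_subset hsub hc), mul_one]
    · rw [pp_dl_of_not_cl hc, zero_mul]

/-- The mean of the test function. -/
theorem Gad.TW_mean (hu : 3 ≤ Fintype.card κ) (hθ : 0 ≤ θ) {σ : ℝ} (hσ : 0 < σ)
    (hσq : σ ≤ Fintype.card F) {δ : ℝ} (hδ : et1 κ F σ θ ≤ δ) :
    av (TW e σ δ : (κ → S) → ℝ)
      ≤ 1 + δ * ((Fintype.card κ + 1) * CE κ ^ Fintype.card κ) := by
  have hδ0 : 0 ≤ δ := by
    refine le_trans ?_ hδ
    unfold et1
    positivity
  obtain ⟨b⟩ : Nonempty κ := Fintype.card_pos_iff.1 (by omega)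
  have hmos : ∀ c : κ, av (fun z => os e σ (univ.erase c) z) ≤ CE κ ^ Fintype.card κ :=
    fun c => hG.mean_os hσ.le hσq ⟨c, Finset.notMem_erase c univ⟩
  have h1 : av (fun z => - pp e ps univ z) ≤ 1 + δ * CE κ ^ Fintype.card κ := by
    rw [← av_resample b]
    have h2 : ∀ z : κ → S, av (fun s => - pp e ps univ (update z b s))
        ≤ pp e dl (univ.erase b) z + δ * os e σ (univ.erase b) z := by
      intro z
      have h3 := (abs_le.1 (hG.S3' hu hθ hσ b z)).2
      have h4 := mul_le_mul_of_nonneg_right hδ (os_nonneg hσ.le (e := e) (univ.erase b) z)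
      linarith
    refine (av_mono h2).trans ?_
    rw [av_add, av_mul_left, hG.mean_rho (univ.erase b) ⟨b, Finset.notMem_erase b univ⟩]
    have := mul_le_mul_of_nonneg_left (hmos b) hδ0
    linarith
  have h5 : av (fun z => MM e σ z) ≤ Fintype.card κ * CE κ ^ Fintype.card κ := by
    unfold MM
    rw [av_finset_sum]
    refine (Finset.sum_le_sum fun c _ => hmos c).trans (le_of_eq ?_)
    rw [Finset.sum_const, Finset.card_univ, nsmul_eq_mul]
  have h6 : av (TW e σ δ : (κ → S) → ℝ)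
      = av (fun z => - pp e ps univ z) + δ * av (fun z => MM e σ z) := by
    rw [← av_mul_left, ← av_add]
    rfl
  rw [h6]
  have h7 := mul_le_mul_of_nonneg_left h5 hδ0
  linarith

end Pool.Agent.Lib.SDF3
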