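import Pool.Agent.Lib.SDF3.Psd
import Pool.Agent.Lib.SDF3.Gadget
import Pool.Agent.Lib.SDF2.M1

/-!
The design with its test function of degree `k - 1`.
-/

set_option autoImplicit false

namespace Pool.Agent.Lib.SDF3

open Finset Function
open Pool.Agent.Lib.MP_678664_lc_h67 (Cons vert vert_inj rowGraph rowGraph_adj colSet colSet_inj
  card_colSet rowGraph_cliqueFree)
open Pool.Agent.Lib.SDF (av av_add av_sub av_neg av_mul_left av_mul_right av_zero av_const av_mono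
  av_nonneg av_finset_sum av_comm abs_av_le av_congr sum_eq_card_mul_av degLE Junta av_pattern
  CliqueSDP clique_factor core)

theorem cons_iff_cl {κ S F : Type} [Fintype κ] [LinearOrder κ] [Field F] [Fintype F]
    [DecidableEq F] (e : κ → κ → S → S → F) (hsymm : ∀ v w s t, e v w s t = e w v t s)
    (T : Finset κ) (z : κ → S) :
    Cons (fun v w s t => e v w s t = 0) T z ↔ Cl e T z := by
  constructor
  · intro h p hp
    rw [mem_pairs] at hp
    exact h _ hp.1 _ hp.2.1 hp.2.2.ne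
  · intro h v hv w hw hvw
    rcases lt_or_gt_of_ne hvw with h1 | h1
    · exact h (v, w) (mem_pairs.2 ⟨hv, hw, h1⟩)
    · have := h (w, v) (mem_pairs.2 ⟨hw, hv, h1⟩)
      show e v w (z v) (z w) = 0
      rw [hsymm]
      exact this

theorem exists_design_top (k : ℕ) (hk : 3 ≤ k) (ε : ℝ) (hε : 0 < ε) :
    ∃ (S : Type) (_ : Fintype S) (_ : DecidableEq S) (_ : Nonempty S)
      (ok : Fin k → Fin k → S → S → Prop) (W : (Fin k → S) → ℝ) (c : ℝ),
      1 ≤ c ∧ (∀ z, |W z| ≤ c) ∧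
      (∀ v w s t, ok v w s t → ok w v t s) ∧
      (∀ (z : Fin k → S) (U : Finset (Fin k)), U.card = k → ¬ Cons ok U z) ∧
      (∑ z, W z ≤ (1 + ε) * Fintype.card (Fin k → S)) ∧
      (∀ (T : Finset (Fin k)) (F : (Fin k → S) → ℝ), T.card < k →
        (∀ z z' : Fin k → S, (∀ v ∈ T, z v = z' v) → F z = F z') → (∀ z, 0 ≤ F z) →
        (0 ≤ ∑ z, W z * F z) ∧
        ((∀ z, Cons ok T z → F z = 1) → Fintype.card (Fin k → S) ≤ ∑ z, W z * F z)) ∧
      ∀ g ∈ degLE (Fin k) S (k - 1), 0 ≤ ∑ z, W z * g z ^ 2 := by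
  classical
  obtain ⟨m, rfl⟩ : ∃ m, k = m + 2 := ⟨k - 2, by omega⟩
  obtain ⟨u, hu⟩ : ∃ u : ℝ, u = (Fintype.card (Fin (m + 2)) : ℝ) := ⟨_, rfl⟩
  have hcardκ : Fintype.card (Fin (m + 2)) = m + 2 := Fintype.card_fin _
  have hu3 : 3 ≤ Fintype.card (Fin (m + 2)) := by rw [hcardκ]; exact hk
  have hu0 : (0 : ℝ) < u := by
    rw [hu]; exact_mod_cast (by omega : 0 < Fintype.card (Fin (m + 2)))
  obtain ⟨C, hC⟩ : ∃ C : ℝ, C = CE (Fin (m + 2)) := ⟨_, rfl⟩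
  have hC1 : 1 ≤ C := by rw [hC]; exact CE_pos
  have hC0 : 0 < C := by linarith
  obtain ⟨δ, hδ⟩ : ∃ δ : ℝ, δ = ε / ((u + 1) * C ^ (m + 2)) := ⟨_, rfl⟩
  have hδ0 : 0 < δ := by rw [hδ]; positivity
  obtain ⟨C1, hC1d⟩ : ∃ C1 : ℝ, C1 = 2 * u * 4 ^ (m + 2) * C ^ (m + 2) := ⟨_, rfl⟩
  have hC10 : 0 < C1 := by rw [hC1d]; positivity
  obtain ⟨l, hl0, hlC, hlδ⟩ : ∃ l : ℝ, 0 < l ∧ l * C ≤ 1 ∧ 2 * u * l * C * C1 ≤ δ / 2 := by
    refine ⟨min (1 / C) (δ / (4 * u * C * C1)), by positivity, ?_, ?_⟩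
    · calc min (1 / C) (δ / (4 * u * C * C1)) * C ≤ 1 / C * C :=
          mul_le_mul_of_nonneg_right (min_le_left _ _) hC0.le
        _ = 1 := by field_simp
    · calc 2 * u * min (1 / C) (δ / (4 * u * C * C1)) * C * C1
          = min (1 / C) (δ / (4 * u * C * C1)) * (2 * u * C * C1) := by ring
        _ ≤ δ / (4 * u * C * C1) * (2 * u * C * C1) :=
          mul_le_mul_of_nonneg_right (min_le_right _ _) (by positivity)
        _ = δ / 2 := by field_simp; norm_num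
  obtain ⟨A1, hA1⟩ : ∃ A1 : ℝ, A1 = 9 + u ^ 2 := ⟨_, rfl⟩
  obtain ⟨A2, hA2⟩ : ∃ A2 : ℝ, A2 = 8 * 2 ^ (m + 2) + 1 + u * 2 ^ (m + 2) + 1 := ⟨_, rfl⟩
  have hA10 : 0 < A1 := by rw [hA1]; positivity
  have hA20 : 0 < A2 := by rw [hA2]; positivity
  obtain ⟨K, hK⟩ : ∃ K : ℝ, K = A1 / δ + (2 * u * A2 + A1) * C1 * 2 / (l * δ) := ⟨_, rfl⟩
  obtain ⟨j, hj1, hjK⟩ : ∃ j : ℕ, j ≠ 0 ∧ K ≤ (2 : ℝ) ^ j := by
    obtain ⟨n, hn⟩ := exists_nat_ge K
    refine ⟨n + 1, by omega, hn.trans ?_⟩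
    have h1 : n < 2 ^ n := Nat.lt_two_pow_self
    have h2 : (n : ℝ) ≤ 2 ^ n := by exact_mod_cast h1.le
    have h3 : (2 : ℝ) ^ n ≤ 2 ^ (n + 1) := pow_le_pow_right₀ (by norm_num) (by omega)
    linarith
  obtain ⟨F, _, _, _, _, H, _, θ0, hcard, hH, hθ0⟩ := exists_field j hj1
  obtain ⟨Q, hQ⟩ : ∃ Q : ℝ, Q = 2 ^ j := ⟨_, rfl⟩
  have hQ1 : 1 ≤ Q := by rw [hQ]; exact one_le_pow₀ (by norm_num)
  have hQ0 : 0 < Q := by linarith
  have hq : Q ^ 4 = Fintype.card F := by rw [hQ, hcard]; push_cast; ring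
  have hG := gad (m := m) θ0 hH hθ0 Q hQ1 hq
  rw [← hQ] at hjK
  obtain ⟨σ, hσ⟩ : ∃ σ : ℝ, σ = Q ^ 2 := ⟨_, rfl⟩
  have hσ1 : 1 ≤ σ := by rw [hσ]; exact one_le_pow₀ hQ1
  have hσ0 : 0 < σ := by linarith
  have hQσ : Q ≤ σ := by rw [hσ]; nlinarith
  have hσq : σ ^ 2 = Fintype.card F := by rw [hσ, ← hq]; ring
  have hσq' : σ ≤ Fintype.card F := by rw [← hσq]; nlinarith
  have hQq : Q ≤ Fintype.card F := by linarith
  have hθ : 0 ≤ 8 / Q := by positivity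
  -- the errors
  have he1 : et1 (Fin (m + 2)) F σ (8 / Q) ≤ A1 / Q := by
    unfold et1
    rw [← hu]
    have h1 : u ^ 2 / (Fintype.card F : ℝ) ≤ u ^ 2 / Q :=
      div_le_div_of_nonneg_left (by positivity) hQ0 hQq
    have h2 : 1 / σ ≤ 1 / Q := div_le_div_of_nonneg_left (by norm_num) hQ0 hQσ
    have h3 : A1 / Q = 8 / Q + u ^ 2 / Q + 1 / Q := by rw [hA1]; ring
    linarith
  have he2 : et2 (Fin (m + 2)) σ (8 / Q) ≤ A2 / Q := by
    unfold et2
    rw [← hu, hcardκ]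
    have h1 : (1 + u * 2 ^ (m + 2)) / σ ≤ (1 + u * 2 ^ (m + 2)) / Q :=
      div_le_div_of_nonneg_left (by positivity) hQ0 hQσ
    have h2 : 1 / (2 * σ) ≤ 1 / Q :=
      div_le_div_of_nonneg_left (by norm_num) hQ0 (by linarith)
    have h3 : A2 / Q = 8 / Q * 2 ^ (m + 2) + (1 + u * 2 ^ (m + 2)) / Q + 1 / Q := by
      rw [hA2]; ring
    have h4 : 0 ≤ 8 / Q * 2 ^ (m + 2) := by positivity
    have h5 : 0 ≤ (1 + u * 2 ^ (m + 2)) / Q := by positivity
    linarith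
  have hK1 : A1 / δ ≤ Q := by
    refine le_trans ?_ hjK
    rw [hK]
    have : 0 ≤ (2 * u * A2 + A1) * C1 * 2 / (l * δ) := by positivity
    linarith
  have hK2 : (2 * u * A2 + A1) * C1 * 2 / (l * δ) ≤ Q := by
    refine le_trans ?_ hjK
    rw [hK]
    have : 0 ≤ A1 / δ := by positivity
    linarith
  have hδ1 : et1 (Fin (m + 2)) F σ (8 / Q) ≤ δ := by
    refine he1.trans ?_
    rw [div_le_iff₀ hQ0]
    rw [div_le_iff₀ hδ0] at hK1
    linarith
  have hδ2 : (2 * u * l * C + (2 * u * et2 (Fin (m + 2)) σ (8 / Q)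
      + et1 (Fin (m + 2)) F σ (8 / Q)) / l) * C1 ≤ δ := by
    have h1 : (2 * u * et2 (Fin (m + 2)) σ (8 / Q) + et1 (Fin (m + 2)) F σ (8 / Q))
        ≤ (2 * u * A2 + A1) / Q := by
      have h2 := mul_le_mul_of_nonneg_left he2 (show 0 ≤ 2 * u by positivity)
      have h3 : (2 * u * A2 + A1) / Q = 2 * u * (A2 / Q) + A1 / Q := by ring
      linarith
    have h2 : (2 * u * et2 (Fin (m + 2)) σ (8 / Q) + et1 (Fin (m + 2)) F σ (8 / Q)) / l * C1
        ≤ δ / 2 := by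
      have h3 : (2 * u * et2 (Fin (m + 2)) σ (8 / Q) + et1 (Fin (m + 2)) F σ (8 / Q)) / l * C1
          ≤ (2 * u * A2 + A1) / Q / l * C1 :=
        mul_le_mul_of_nonneg_right (div_le_div_of_nonneg_right h1 hl0.le) hC10.le
      refine h3.trans ?_
      rw [div_div, div_mul_eq_mul_div, div_le_iff₀ (by positivity)]
      rw [div_le_iff₀ (by positivity)] at hK2
      nlinarith
    have h3 : (2 * u * l * C + (2 * u * et2 (Fin (m + 2)) σ (8 / Q)
        + et1 (Fin (m + 2)) F σ (8 / Q)) / l) * C1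
        = 2 * u * l * C * C1 + (2 * u * et2 (Fin (m + 2)) σ (8 / Q)
        + et1 (Fin (m + 2)) F σ (8 / Q)) / l * C1 := by ring
    linarith
  obtain ⟨W, hW⟩ : ∃ W : (Fin (m + 2) → Ty H m) → ℝ, W = TW (ee θ0) σ δ := ⟨_, rfl⟩
  have hsum : ∀ f : (Fin (m + 2) → Ty H m) → ℝ,
      ∑ z, f z = Fintype.card (Fin (m + 2) → Ty H m) * av f := fun f => sum_eq_card_mul_av f
  have hcard0 : (0 : ℝ) < Fintype.card (Fin (m + 2) → Ty H m) := by
    exact_mod_cast Fintype.card_pos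
  refine ⟨Ty H m, inferInstance, inferInstance, inferInstance,
    fun v w s t => ee θ0 v w s t = 0, W, max 1 (∑ z, |W z|), le_max_left _ _,
    fun z => ?_, ?_, ?_, ?_, ?_, ?_⟩
  · refine le_trans ?_ (le_max_right _ _)
    exact Finset.single_le_sum (f := fun z => |W z|) (fun _ _ => abs_nonneg _) (mem_univ z)
  · intro v w s t h
    rw [hG.symm]
    exact h
  · intro z U hU hcons
    rw [cons_iff_cl _ hG.symm] at hcons
    have hUu : U = univ := by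
      rw [← Finset.card_eq_iff_eq_univ, hU, hcardκ]
    rw [hUu] at hcons
    have h1 := hG.sum z
    rw [Finset.sum_eq_zero hcons] at h1
    exact hG.ne _ h1.symm
  · rw [hsum, mul_comm]
    refine mul_le_mul_of_nonneg_right ?_ hcard0.le
    have h1 := hG.TW_mean hu3 hθ hσ0 hσq' hδ1
    rw [hW]
    refine h1.trans (le_of_eq ?_)
    rw [← hu, ← hC, hcardκ, hδ]
    congr 1
    field_simp
  · intro T f hT hf hf0
    have h1 := hG.TW_local hu3 hθ hσ0 hδ1 T (by rw [hcardκ]; exact hT) f hf hf0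
    rw [hsum, hW]
    refine ⟨mul_nonneg hcard0.le h1.1, fun hcl => ?_⟩
    have h2 := h1.2 fun z hz => hcl z ((cons_iff_cl _ hG.symm T z).2 hz)
    have := mul_le_mul_of_nonneg_left h2 hcard0.le
    linarith
  · intro g hg
    rw [hsum, hW]
    refine mul_nonneg hcard0.le ?_
    refine hG.psd hu3 hθ hσ1 hσq hl0 (by rw [← hC]; exact hlC) ?_ g ?_
    · rw [← hu, ← hC, hcardκ, ← hC1d]
      exact hδ2
    · rw [hcardκ]
      exact hg

end Pool.Agent.Lib.SDF3
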