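import Pool.Agent.Lib.SDF3.Defs

/-!
Averages of products over the functions `κ → F`.
-/

set_option autoImplicit false

namespace Pool.Agent.Lib.SDF3

open Finset Function
open Pool.Agent.Lib.SDF (av av_add av_sub av_neg av_mul_left av_mul_right av_zero av_const av_mono
  av_nonneg av_finset_sum av_comm abs_av_le av_congr sum_eq_card_mul_av)

variable {F : Type} [Field F] [Fintype F] [DecidableEq F]

/-- `q` at `0`, `0` elsewhere. -/
noncomputable def dl (x : F) : ℝ := if x = 0 then (Fintype.card F : ℝ) else 0

/-- `q - 1` at `0`, `-1` elsewhere. -/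
noncomputable def ps (x : F) : ℝ := dl x - 1

/-- `q` at `0`, `1` elsewhere. -/
noncomputable def om (x : F) : ℝ := if x = 0 then (Fintype.card F : ℝ) else 1

theorem q_pos : (0 : ℝ) < Fintype.card F := by exact_mod_cast Fintype.card_pos

theorem one_le_q : (1 : ℝ) ≤ Fintype.card F := by exact_mod_cast Fintype.card_pos

theorem dl_nonneg (x : F) : 0 ≤ dl x := by
  unfold dl; split_ifs <;> simp

theorem one_le_om (x : F) : 1 ≤ om x := by
  unfold om; split_ifs
  · exact one_le_q
  · exact le_rfl

theorem om_pos (x : F) : 0 < om x := lt_of_lt_of_le one_pos (one_le_om x)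

theorem dl_le_om (x : F) : dl x ≤ om x := by
  unfold dl om; split_ifs <;> norm_num

theorem abs_ps_le (x : F) : |ps x| ≤ om x := by
  unfold ps dl om
  split_ifs
  · rw [abs_of_nonneg (by linarith [one_le_q (F := F)])]; linarith
  · norm_num

theorem av_ite (x : F) (c : ℝ) : av (fun t : F => if t = x then c else 0)
    = c / Fintype.card F := by
  unfold av
  rw [Finset.sum_ite_eq' univ x (fun _ => c)]
  simp

theorem av_dl : av (dl : F → ℝ) = 1 := by
  unfold dl
  rw [av_ite, div_self q_pos.ne']

theorem av_ps : av (ps : F → ℝ) = 0 := by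
  unfold ps
  rw [av_sub, av_const, av_dl, sub_self]

theorem av_om_le : av (om : F → ℝ) ≤ 2 := by
  have h : ∀ x : F, om x ≤ dl x + 1 := by
    intro x
    unfold om dl
    split_ifs <;> norm_num
  calc av (om : F → ℝ) ≤ av (fun x : F => dl x + 1) := av_mono h
    _ = 2 := by rw [av_add, av_const, av_dl]; norm_num

section vec
variable {κ : Type} [Fintype κ] [DecidableEq κ]

/-- The average of a product over independent coordinates. -/
theorem av_prod (φ : F → ℝ) (Y : Finset κ) :
    av (fun w : κ → F => ∏ c ∈ Y, φ (w c)) = av φ ^ Y.card := by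
  induction Y using Finset.induction_on with
  | empty => simp [av_const]
  | insert c Y hc ih =>
    rw [← av_resample c]
    have h : ∀ (w : κ → F) (s : F), ∏ c' ∈ insert c Y, φ (update w c s c')
        = φ s * ∏ c' ∈ Y, φ (w c') := by
      intro w s
      rw [Finset.prod_insert hc, update_self]
      congr 1
      refine Finset.prod_congr rfl fun c' hc' => ?_
      rw [update_of_ne]
      rintro rfl
      exact hc hc'
    simp only [h]
    simp only [av_mul_right]
    rw [av_mul_left, ih, Finset.card_insert_of_notMem hc, pow_succ]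
    ring

/-- The average of a function of the sum of the coordinates against the product of the
`ps (w c)`. -/
theorem av_ps_sum (Y : Finset κ) (hY : Y.Nonempty) : ∀ G : F → ℝ,
    av (fun w : κ → F => (∏ c ∈ Y, ps (w c)) * G (∑ c ∈ Y, w c)) = G 0 - av G := by
  have key : ∀ (G : F → ℝ) (x : F), av (fun t : F => ps t * G (t + x)) = G x - av G := by
    intro G x
    unfold ps dl
    have h1 : ∀ t : F, ((if t = 0 then (Fintype.card F : ℝ) else 0) - 1) * G (t + x)
        = (if t = 0 then (Fintype.card F : ℝ) * G x else 0) - G (t + x) := by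
      intro t
      split_ifs with ht
      · rw [ht, zero_add]; ring
      · ring
    simp only [h1]
    rw [av_sub, av_ite, mul_div_assoc, mul_div_cancel₀ _ q_pos.ne']
    congr 1
    exact av_bij (fun t : F => t + x) (Equiv.addRight x).bijective G
  induction hY using Finset.Nonempty.cons_induction with
  | singleton c =>
    intro G
    rw [← av_resample c]
    simp only [Finset.prod_singleton, Finset.sum_singleton, update_self]
    have h := key G 0
    simp only [add_zero] at h
    rw [h, av_const]
  | cons c Y hc hY ih =>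
    intro G
    rw [Finset.cons_eq_insert, ← av_resample c]
    have h : ∀ (w : κ → F) (s : F), (∏ c' ∈ insert c Y, ps (update w c s c'))
          * G (∑ c' ∈ insert c Y, update w c s c')
        = (∏ c' ∈ Y, ps (w c')) * (ps s * G (s + ∑ c' ∈ Y, w c')) := by
      intro w s
      have hne : ∀ c' ∈ Y, update w c s c' = w c' := by
        intro c' hc'
        rw [update_of_ne]
        rintro rfl
        exact hc hc'
      rw [Finset.prod_insert hc, Finset.sum_insert hc, update_self,
        Finset.prod_congr rfl (fun c' hc' => by rw [hne c' hc']),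
        Finset.sum_congr rfl (fun c' hc' => hne c' hc')]
      ring
    simp only [h]
    simp only [av_mul_left, key]
    have h2 := ih (fun x => G x - av G)
    rw [h2, av_sub, av_const]
    ring

/-- The weight of the vectors which are not zero on `Y'` and have a given sum. -/
theorem av_off_le (Y Y' : Finset κ) (hY : Y' ⊆ Y) (τ : F) :
    av (fun w : κ → F => (∏ c ∈ Y, om (w c)) *
      if (∑ c ∈ Y', w c = τ ∧ ∃ c ∈ Y', w c ≠ 0) then 1 else 0)
      ≤ Y'.card * 2 ^ Y.card / Fintype.card F := by
  classical
  have h1 : ∀ w : κ → F, (∏ c ∈ Y, om (w c)) *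
      (if (∑ c ∈ Y', w c = τ ∧ ∃ c ∈ Y', w c ≠ 0) then (1 : ℝ) else 0)
      ≤ ∑ d ∈ Y', (∏ c ∈ Y.erase d, om (w c)) * if ∑ c ∈ Y', w c = τ then 1 else 0 := by
    intro w
    have hnn : ∀ d ∈ Y', 0 ≤ (∏ c ∈ Y.erase d, om (w c))
        * if ∑ c ∈ Y', w c = τ then (1 : ℝ) else 0 := by
      intro d _
      refine mul_nonneg (Finset.prod_nonneg fun c _ => (om_pos _).le) ?_
      split_ifs <;> norm_num
    by_cases h : ∑ c ∈ Y', w c = τ ∧ ∃ c ∈ Y', w c ≠ 0
    · obtain ⟨h2, d, hd, hwd⟩ := h
      rw [if_pos ⟨h2, d, hd, hwd⟩]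
      refine le_trans (le_of_eq ?_) (Finset.single_le_sum hnn hd)
      rw [if_pos h2, ← Finset.mul_prod_erase Y _ (hY hd)]
      have : om (w d) = 1 := by unfold om; rw [if_neg hwd]
      rw [this, one_mul]
    · rw [if_neg h, mul_zero]
      exact Finset.sum_nonneg hnn
  refine (av_mono h1).trans ?_
  rw [av_finset_sum]
  have h3 : ∀ d ∈ Y', av (fun w : κ → F => (∏ c ∈ Y.erase d, om (w c))
      * if ∑ c ∈ Y', w c = τ then 1 else 0) ≤ 2 ^ Y.card / Fintype.card F := by
    intro d hd
    rw [← av_resample d]
    have h4 : ∀ (w : κ → F) (s : F), (∏ c ∈ Y.erase d, om (update w d s c))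
        * (if ∑ c ∈ Y', update w d s c = τ then (1 : ℝ) else 0)
        = (∏ c ∈ Y.erase d, om (w c))
          * if s = τ - ∑ c ∈ Y'.erase d, w c then 1 else 0 := by
      intro w s
      congr 1
      · refine Finset.prod_congr rfl fun c hc => ?_
        rw [update_of_ne (Finset.ne_of_mem_erase hc)]
      · rw [← Finset.add_sum_erase Y' _ hd, update_self,
          Finset.sum_congr rfl (fun c hc => by rw [update_of_ne (Finset.ne_of_mem_erase hc)])]
        exact if_congr ⟨fun h => eq_sub_of_add_eq h, fun h => add_eq_of_eq_sub h⟩ rfl rfl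
    simp only [h4, av_mul_left, av_ite]
    rw [av_mul_right, av_prod]
    rw [mul_one_div]
    refine div_le_div_of_nonneg_right ?_ q_pos.le
    refine (pow_le_pow_left₀ ?_ av_om_le _).trans ?_
    · exact av_nonneg fun x => (om_pos x).le
    · exact pow_le_pow_right₀ (by norm_num) (Finset.card_erase_le)
  refine (Finset.sum_le_sum h3).trans (le_of_eq ?_)
  rw [Finset.sum_const, nsmul_eq_mul]
  ring

end vec

end Pool.Agent.Lib.SDF3
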